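import Pool.Agent.Q280.MK.HYP1

/-! # Project MK, job HYP2 (helper280): exponential moments of the hypergeometric law -/

set_option autoImplicit false

namespace Pool.Agent.Q280.MK

open Pool.Agent.Q291.MK Finset

theorem H_mono (K L : ℕ) {φ ψ : ℕ → ℝ} (h : ∀ j, j ≤ K → φ j ≤ ψ j) : H K L φ ≤ H K L ψ := by
  unfold H
  refine Finset.sum_le_sum fun j hj => ?_
  exact mul_le_mul_of_nonneg_left (h j (Nat.lt_succ_iff.1 (Finset.mem_range.1 hj)))
    (hyp_nonneg K L j)

theorem H_congr (K L : ℕ) {φ ψ : ℕ → ℝ} (h : ∀ j, j ≤ K → φ j = ψ j) : H K L φ = H K L ψ := by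
  unfold H
  refine Finset.sum_congr rfl fun j hj => ?_
  rw [h j (Nat.lt_succ_iff.1 (Finset.mem_range.1 hj))]

theorem H_sum (K L : ℕ) (s : Finset ℕ) (φ : ℕ → ℕ → ℝ) :
    H K L (fun j => ∑ r ∈ s, φ r j) = ∑ r ∈ s, H K L (φ r) := by
  unfold H
  rw [Finset.sum_comm]
  exact Finset.sum_congr rfl fun j _ => Finset.mul_sum _ _ _

theorem binom_ext (u : ℝ) (j K : ℕ) (h : j ≤ K) :
    (1 + u) ^ j = ∑ r ∈ range (K + 1), (j.choose r : ℝ) * u ^ r := by
  rw [add_comm, add_pow]
  have h1 : range (j + 1) ⊆ range (K + 1) := Finset.range_subset_range.2 (by omega)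
  rw [← Finset.sum_subset h1]
  · refine Finset.sum_congr rfl fun r _ => ?_
    rw [one_pow, mul_one, mul_comm]
  · intro r _ hr
    have h2 : j < r := by
      rw [Finset.mem_range] at hr
      omega
    rw [Nat.choose_eq_zero_of_lt h2]
    simp

theorem ch_succ (n r : ℕ) : (n.choose (r + 1) : ℝ) = (n.choose r : ℝ) * (n - r) / (r + 1) := by
  have hr : (r : ℝ) + 1 ≠ 0 := by positivity
  rw [eq_div_iff hr]
  rcases Nat.lt_or_ge n r with h | h
  · rw [Nat.choose_eq_zero_of_lt h, Nat.choose_eq_zero_of_lt (show n < r + 1 by omega)]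
    simp
  · have h2 := Nat.choose_succ_right_eq n r
    have h3 : ((n.choose (r + 1) * (r + 1) : ℕ) : ℝ) = ((n.choose r * (n - r) : ℕ) : ℝ) := by
      rw [h2]
    rw [Nat.cast_mul, Nat.cast_mul, Nat.cast_sub h] at h3
    push_cast at h3
    exact h3

theorem hm_nonneg (K L : ℕ) : 0 ≤ hm K L := by
  unfold hm
  positivity

theorem hm_le (K L : ℕ) : hm K L ≤ K := by
  unfold hm
  rw [div_le_iff₀ (by positivity)]
  have h1 : (0 : ℝ) ≤ K := Nat.cast_nonneg K
  have h2 : (0 : ℝ) ≤ L := Nat.cast_nonneg L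
  nlinarith

theorem sub_hm (K L : ℕ) : (K : ℝ) - hm K L = K * (K + 1 / 2) / (K + L + 1 / 2) := by
  unfold hm
  have : (K : ℝ) + L + 1 / 2 ≠ 0 := by positivity
  field_simp
  ring

theorem c_le (K L r : ℕ) (h : r ≤ K) :
    (K.choose r : ℝ) * (L.choose r : ℝ) / gb (K + L + 1/2) r ≤ hm K L ^ r / r.factorial := by
  induction r with
  | zero => simp [gb_zero]
  | succ r ih =>
    have ih' := ih (by omega)
    rcases Nat.lt_or_ge L (r + 1) with h1 | h1
    · rw [Nat.choose_eq_zero_of_lt h1]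
      have := hm_nonneg K L
      simp only [Nat.cast_zero, mul_zero, zero_div]
      positivity
    · have hK : (r : ℝ) + 1 ≤ K := by exact_mod_cast h
      have hL : (r : ℝ) + 1 ≤ L := by exact_mod_cast h1
      have hr : (0 : ℝ) ≤ r := Nat.cast_nonneg r
      have hg := den_pos' K L r (by omega)
      have hx : 0 < (K : ℝ) + L + 1 / 2 - r := by linarith
      have e : (K.choose (r + 1) : ℝ) * (L.choose (r + 1) : ℝ) / gb (K + L + 1/2) (r + 1) =
          (K.choose r : ℝ) * (L.choose r : ℝ) / gb (K + L + 1/2) r *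
            ((K - r) * (L - r) / (K + L + 1 / 2 - r) / (r + 1)) := by
        rw [ch_succ, ch_succ, gb_succ]
        field_simp
      have h2 : (K - r) * (L - r) / (K + L + 1 / 2 - r) ≤ hm K L := by
        unfold hm
        rw [div_le_div_iff₀ hx (by positivity)]
        have h3 : ((L : ℝ) - r) * (K + L + 1 / 2) ≤ L * (K + L + 1 / 2 - r) := by nlinarith
        have h4 : 0 ≤ (L : ℝ) * (K + L + 1 / 2 - r) := by positivity
        calc ((K : ℝ) - r) * (L - r) * (K + L + 1 / 2) = (K - r) * ((L - r) * (K + L + 1 / 2)) := by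
              ring
          _ ≤ (K - r) * (L * (K + L + 1 / 2 - r)) := mul_le_mul_of_nonneg_left h3 (by linarith)
          _ ≤ K * (L * (K + L + 1 / 2 - r)) := mul_le_mul_of_nonneg_right (by linarith) h4
          _ = _ := by ring
      have h5 : 0 ≤ (K - r) * (L - r) / ((K : ℝ) + L + 1 / 2 - r) :=
        div_nonneg (mul_nonneg (by linarith) (by linarith)) hx.le
      have h6 : 0 ≤ hm K L ^ r / r.factorial := div_nonneg (pow_nonneg (hm_nonneg K L) r)
        (Nat.cast_nonneg _)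
      rw [e]
      calc _ ≤ hm K L ^ r / r.factorial * (hm K L / (r + 1)) :=
            mul_le_mul ih' (div_le_div_of_nonneg_right h2 (by positivity)) (by positivity) h6
        _ = _ := by
            rw [Nat.factorial_succ, pow_succ]
            push_cast
            field_simp

theorem d_le (K L r : ℕ) (h : r ≤ K) :
    gb (K + 1/2) r * (K.choose r : ℝ) / gb (K + L + 1/2) r ≤
      ((K : ℝ) - hm K L) ^ r / r.factorial := by
  induction r with
  | zero => simp [gb_zero]
  | succ r ih =>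
    have ih' := ih (by omega)
    have hK : (r : ℝ) + 1 ≤ K := by exact_mod_cast h
    have hL : (0 : ℝ) ≤ L := Nat.cast_nonneg L
    have hr : (0 : ℝ) ≤ r := Nat.cast_nonneg r
    have hg := den_pos' K L r (by omega)
    have hx : 0 < (K : ℝ) + L + 1 / 2 - r := by linarith
    have e : gb (K + 1/2) (r + 1) * (K.choose (r + 1) : ℝ) / gb (K + L + 1/2) (r + 1) =
        gb (K + 1/2) r * (K.choose r : ℝ) / gb (K + L + 1/2) r *
          ((K - r) * (K + 1 / 2 - r) / (K + L + 1 / 2 - r) / (r + 1)) := by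
      rw [ch_succ, gb_succ, gb_succ]
      field_simp
    have h2 : (K - r) * (K + 1 / 2 - r) / (K + L + 1 / 2 - r) ≤ (K : ℝ) - hm K L := by
      rw [sub_hm, div_le_div_iff₀ hx (by positivity)]
      have h3 : ((K : ℝ) + 1 / 2 - r) * (K + L + 1 / 2) ≤ (K + 1 / 2) * (K + L + 1 / 2 - r) := by
        nlinarith
      have h4 : 0 ≤ ((K : ℝ) + 1 / 2) * (K + L + 1 / 2 - r) := by positivity
      calc ((K : ℝ) - r) * (K + 1 / 2 - r) * (K + L + 1 / 2) =
            (K - r) * ((K + 1 / 2 - r) * (K + L + 1 / 2)) := by ring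
        _ ≤ (K - r) * ((K + 1 / 2) * (K + L + 1 / 2 - r)) :=
            mul_le_mul_of_nonneg_left h3 (by linarith)
        _ ≤ K * ((K + 1 / 2) * (K + L + 1 / 2 - r)) :=
            mul_le_mul_of_nonneg_right (by linarith) h4
        _ = _ := by ring
    have h5 : 0 ≤ (K - r) * (K + 1 / 2 - r) / ((K : ℝ) + L + 1 / 2 - r) :=
      div_nonneg (mul_nonneg (by linarith) (by linarith)) hx.le
    have h7 : 0 ≤ (K : ℝ) - hm K L := by linarith [hm_le K L]
    have h6 : 0 ≤ ((K : ℝ) - hm K L) ^ r / r.factorial := div_nonneg (pow_nonneg h7 r)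
      (Nat.cast_nonneg _)
    rw [e]
    calc _ ≤ ((K : ℝ) - hm K L) ^ r / r.factorial * (((K : ℝ) - hm K L) / (r + 1)) :=
          mul_le_mul ih' (div_le_div_of_nonneg_right h2 (by positivity)) (by positivity) h6
      _ = _ := by
          rw [Nat.factorial_succ, pow_succ]
          push_cast
          field_simp

theorem exp_le (K L : ℕ) (u : ℝ) (hu : 0 ≤ u) :
    H K L (fun j => (1 + u) ^ j) ≤ Real.exp (u * hm K L) := by
  rw [H_congr K L fun j hj => binom_ext u j K hj, H_sum]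
  have h1 : ∀ r ∈ range (K + 1), H K L (fun j => (j.choose r : ℝ) * u ^ r) ≤
      (u * hm K L) ^ r / r.factorial := by
    intro r hr
    have h2 : (fun j : ℕ => (j.choose r : ℝ) * u ^ r) = fun j : ℕ => u ^ r * (j.choose r : ℝ) := by
      funext j
      ring
    rw [h2, H_smul, H_fact, mul_pow, mul_div_assoc (u ^ r)]
    exact mul_le_mul_of_nonneg_left (c_le K L r (Nat.lt_succ_iff.1 (Finset.mem_range.1 hr)))
      (pow_nonneg hu r)
  refine (Finset.sum_le_sum h1).trans ?_
  exact Real.sum_le_exp_of_nonneg (mul_nonneg hu (hm_nonneg K L)) _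

theorem exp_le' (K L : ℕ) (u : ℝ) (hu : 0 ≤ u) :
    H K L (fun j => (1 + u) ^ (K - j)) ≤ Real.exp (u * (K - hm K L)) := by
  rw [H_congr K L fun j _ => binom_ext u (K - j) K (Nat.sub_le K j), H_sum]
  have h1 : ∀ r ∈ range (K + 1), H K L (fun j => ((K - j).choose r : ℝ) * u ^ r) ≤
      (u * (K - hm K L)) ^ r / r.factorial := by
    intro r hr
    have h2 : (fun j : ℕ => ((K - j).choose r : ℝ) * u ^ r) =
        fun j : ℕ => u ^ r * ((K - j).choose r : ℝ) := by
      funext j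
      ring
    rw [h2, H_smul, H_fail, mul_pow, mul_div_assoc (u ^ r)]
    exact mul_le_mul_of_nonneg_left (d_le K L r (Nat.lt_succ_iff.1 (Finset.mem_range.1 hr)))
      (pow_nonneg hu r)
  refine (Finset.sum_le_sum h1).trans ?_
  exact Real.sum_le_exp_of_nonneg (mul_nonneg hu (by linarith [hm_le K L])) _

theorem pow8_le (z : ℝ) : z ^ 8 ≤ 20160 * (Real.exp z + Real.exp (-z)) := by
  have h1 := Real.hasSum_cosh z
  have h2 : z ^ (2 * 4) / ((2 * 4).factorial : ℝ) ≤ Real.cosh z :=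
    le_hasSum h1 4 fun j _ => by
      have : 0 ≤ z ^ (2 * j) := by
        rw [pow_mul]
        positivity
      positivity
  rw [Real.cosh_eq] at h2
  have h3 : ((2 * 4).factorial : ℝ) = 40320 := by norm_num [Nat.factorial]
  rw [h3, div_le_iff₀ (by norm_num)] at h2
  have h4 : z ^ (2 * 4) = z ^ 8 := by norm_num
  rw [h4] at h2
  linarith

/-- JOB HYP2 -/
theorem hyp2 : P_HYP2 := by
  intro K L
  refine ⟨exp_le K L, exp_le' K L, ?_⟩
  obtain ⟨h, hh⟩ : ∃ h : ℝ, h = hm K L := ⟨_, rfl⟩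
  have hh0 : 0 ≤ h := by rw [hh]; exact hm_nonneg K L
  have hhK : h ≤ K := by rw [hh]; exact hm_le K L
  have hK : (0 : ℝ) ≤ K := Nat.cast_nonneg K
  obtain ⟨l, hl⟩ : ∃ l : ℝ, l = 1 / Real.sqrt (K + 1) := ⟨_, rfl⟩
  have hs : 0 < Real.sqrt ((K : ℝ) + 1) := Real.sqrt_pos.2 (by linarith)
  have hl0 : 0 < l := by rw [hl]; positivity
  have hl2 : l ^ 2 * (K + 1) = 1 := by
    rw [hl, div_pow, one_pow, Real.sq_sqrt (by linarith)]
    field_simp
  have hl1 : l ≤ 1 := by
    by_contra hc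
    have hc' := not_le.1 hc
    nlinarith
  have hlK : l ^ 2 * K ≤ 1 := by nlinarith [sq_nonneg l]
  have hu0 : 0 ≤ Real.exp l - 1 := by linarith [Real.add_one_le_exp l]
  have hu1 : Real.exp l - 1 - l ≤ l ^ 2 := by
    have h1 := Real.abs_exp_sub_one_sub_id_le (show |l| ≤ 1 by rw [abs_of_pos hl0]; exact hl1)
    exact (le_abs_self _).trans h1
  have hu2 : 0 ≤ Real.exp l - 1 - l := by linarith [Real.add_one_le_exp l]
  have e1 : H K L (fun j => Real.exp (l * ((j : ℝ) - h))) ≤ Real.exp 1 := by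
    have h1 : H K L (fun j => Real.exp (l * ((j : ℝ) - h))) =
        Real.exp (-(l * h)) * H K L (fun j => (1 + (Real.exp l - 1)) ^ j) := by
      rw [← H_smul]
      refine H_congr K L fun j _ => ?_
      rw [add_sub_cancel, ← Real.exp_nat_mul, ← Real.exp_add]
      congr 1
      ring
    rw [h1]
    calc _ ≤ Real.exp (-(l * h)) * Real.exp ((Real.exp l - 1) * h) := by
          rw [hh]
          exact mul_le_mul_of_nonneg_left (exp_le K L _ hu0) (Real.exp_pos _).le
      _ = Real.exp ((Real.exp l - 1 - l) * h) := by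
          rw [← Real.exp_add]
          congr 1
          ring
      _ ≤ Real.exp 1 := by
          apply Real.exp_le_exp.2
          calc _ ≤ l ^ 2 * K := mul_le_mul hu1 hhK hh0 (sq_nonneg l)
            _ ≤ 1 := hlK
  have e2 : H K L (fun j => Real.exp (-(l * ((j : ℝ) - h)))) ≤ Real.exp 1 := by
    have h1 : H K L (fun j => Real.exp (-(l * ((j : ℝ) - h)))) =
        Real.exp (-(l * (K - h))) * H K L (fun j => (1 + (Real.exp l - 1)) ^ (K - j)) := by
      rw [← H_smul]
      refine H_congr K L fun j hj => ?_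
      rw [add_sub_cancel, ← Real.exp_nat_mul, ← Real.exp_add, Nat.cast_sub hj]
      congr 1
      ring
    rw [h1]
    calc _ ≤ Real.exp (-(l * (K - h))) * Real.exp ((Real.exp l - 1) * (K - h)) := by
          rw [hh]
          exact mul_le_mul_of_nonneg_left (exp_le' K L _ hu0) (Real.exp_pos _).le
      _ = Real.exp ((Real.exp l - 1 - l) * (K - h)) := by
          rw [← Real.exp_add]
          congr 1
          ring
      _ ≤ Real.exp 1 := by
          apply Real.exp_le_exp.2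
          calc _ ≤ l ^ 2 * K := mul_le_mul hu1 (by linarith) (by linarith) (sq_nonneg l)
            _ ≤ 1 := hlK
  have h8 : l ^ 8 * ((K : ℝ) + 1) ^ 4 = 1 := by
    calc l ^ 8 * ((K : ℝ) + 1) ^ 4 = (l ^ 2 * (K + 1)) ^ 4 := by ring
      _ = 1 := by rw [hl2, one_pow]
  have hpt : ∀ j : ℕ, ((j : ℝ) - hm K L) ^ 8 ≤ (20160 * ((K : ℝ) + 1) ^ 4) *
      (Real.exp (l * ((j : ℝ) - h)) + Real.exp (-(l * ((j : ℝ) - h)))) := by
    intro j
    rw [← hh]
    have h1 := pow8_le (l * ((j : ℝ) - h))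
    have h2 : 0 ≤ ((K : ℝ) + 1) ^ 4 := by positivity
    calc ((j : ℝ) - h) ^ 8 = (l ^ 8 * ((K : ℝ) + 1) ^ 4) * ((j : ℝ) - h) ^ 8 := by
          rw [h8, one_mul]
      _ = ((K : ℝ) + 1) ^ 4 * (l * ((j : ℝ) - h)) ^ 8 := by ring
      _ ≤ ((K : ℝ) + 1) ^ 4 * (20160 * (Real.exp (l * ((j : ℝ) - h)) +
          Real.exp (-(l * ((j : ℝ) - h))))) := mul_le_mul_of_nonneg_left h1 h2
      _ = _ := by ring
  refine (H_mono K L fun j _ => hpt j).trans ?_
  rw [H_smul, H_add]
  have h9 : Real.exp 1 < 2.7182818286 := Real.exp_one_lt_d9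
  have h10 : 0 ≤ ((K : ℝ) + 1) ^ 4 := by positivity
  nlinarith

/-- JOB HYP2 -/
theorem t_HYP2 : P_HYP1 → P_HYP2 := fun _ => hyp2

end Pool.Agent.Q280.MK
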