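import Pool.Agent.Q291.MK.Stm2
import Pool.Agent.Q280.MK.HYP2

/-! # Project MK, job CONT (helper280): continuity of the recursion -/

set_option autoImplicit false

namespace Pool.Agent.Q280.MK

open Pool.Agent.Q291.MK Finset Filter Topology

section
variable {ι : Type*}

/-- Scheffé -/
theorem scheffe (a : ℕ → ι → ℝ) (b : ι → ℝ) (ha : ∀ n i, 0 ≤ a n i) (ha1 : ∀ n, HasSum (a n) 1)
    (hb : ∀ i, 0 ≤ b i) (hb1 : HasSum b 1) (h : ∀ i, Tendsto (fun n => a n i) atTop (𝓝 (b i))) :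
    Tendsto (fun n => ∑' i, |a n i - b i|) atTop (𝓝 0) := by
  have h1 : Tendsto (fun n => ∑' i, max (b i - a n i) 0) atTop (𝓝 (∑' _ : ι, (0 : ℝ))) := by
    refine tendsto_tsum_of_dominated_convergence (bound := b) hb1.summable ?_ ?_
    · intro i
      have h2 : Tendsto (fun n => b i - a n i) atTop (𝓝 (b i - b i)) := tendsto_const_nhds.sub (h i)
      have h3 := h2.max (tendsto_const_nhds (x := (0 : ℝ)))
      simpa using h3
    · refine Eventually.of_forall fun n i => ?_
      rw [Real.norm_eq_abs, abs_of_nonneg (le_max_right _ _)]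
      exact max_le (by linarith [ha n i]) (hb i)
  rw [tsum_zero] at h1
  have h4 := h1.const_mul 2
  rw [mul_zero] at h4
  refine h4.congr fun n => ?_
  have hs : Summable fun i => max (b i - a n i) 0 := by
    refine Summable.of_nonneg_of_le (fun i => le_max_right _ _) (fun i => ?_) hb1.summable
    exact max_le (by linarith [ha n i]) (hb i)
  have h5 : HasSum (fun i => a n i - b i) 0 := by
    have := (ha1 n).sub hb1
    rwa [sub_self] at this
  have h6 := (hs.hasSum.mul_left 2).add h5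
  rw [add_zero] at h6
  rw [← h6.tsum_eq]
  refine tsum_congr fun i => ?_
  rcases le_total (b i) (a n i) with h7 | h7
  · rw [max_eq_right (by linarith), abs_of_nonneg (by linarith)]
    ring
  · rw [max_eq_left (by linarith), abs_of_nonpos (by linarith)]
    ring

theorem tend_bdd (a : ℕ → ι → ℝ) (b : ι → ℝ) (ha : ∀ n i, 0 ≤ a n i)
    (ha1 : ∀ n, HasSum (a n) 1) (hb : ∀ i, 0 ≤ b i) (hb1 : HasSum b 1)
    (h : ∀ i, Tendsto (fun n => a n i) atTop (𝓝 (b i))) (φ : ι → ℝ) (C : ℝ)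
    (hC : ∀ i, |φ i| ≤ C) :
    Tendsto (fun n => ∑' i, a n i * φ i) atTop (𝓝 (∑' i, b i * φ i)) := by
  have h1 := scheffe a b ha ha1 hb hb1 h
  have h2 := h1.const_mul C
  rw [mul_zero] at h2
  rw [tendsto_iff_norm_sub_tendsto_zero]
  refine squeeze_zero (fun n => norm_nonneg _) (fun n => ?_) h2
  have hsa : Summable fun i => a n i * φ i := by
    refine Summable.of_norm_bounded (g := fun i => a n i * C) ((ha1 n).summable.mul_right C) ?_
    intro i
    rw [Real.norm_eq_abs, abs_mul, abs_of_nonneg (ha n i)]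
    exact mul_le_mul_of_nonneg_left (hC i) (ha n i)
  have hsb : Summable fun i => b i * φ i := by
    refine Summable.of_norm_bounded (g := fun i => b i * C) (hb1.summable.mul_right C) ?_
    intro i
    rw [Real.norm_eq_abs, abs_mul, abs_of_nonneg (hb i)]
    exact mul_le_mul_of_nonneg_left (hC i) (hb i)
  have hsab : Summable fun i => |a n i - b i| := ((ha1 n).summable.sub hb1.summable).abs
  rw [← hsa.tsum_sub hsb, ← tsum_mul_left]
  have hs3 : Summable fun i => ‖a n i * φ i - b i * φ i‖ := (hsa.sub hsb).norm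
  refine (norm_tsum_le_tsum_norm hs3).trans ?_
  refine hs3.tsum_le_tsum (fun i => ?_) (hsab.mul_left C)
  rw [← sub_mul, Real.norm_eq_abs, abs_mul, mul_comm]
  exact mul_le_mul_of_nonneg_right (hC i) (abs_nonneg _)

end

theorem prod_law {a : ℕ → ℝ} (ha : Law a) :
    HasSum (fun p : ℕ × ℕ => a p.1 * a p.2) 1 := by
  have h := ha.one.mul ha.one (ha.one.summable.mul_of_nonneg ha.one.summable ha.nn ha.nn)
  rwa [mul_one] at h

theorem summ2_bdd {a : ℕ → ℝ} (ha : Law a) {F : ℕ → ℕ → ℝ} {C : ℝ} (hC : ∀ K L, |F K L| ≤ C) :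
    Summable fun p : ℕ × ℕ => a p.1 * a p.2 * F p.1 p.2 := by
  refine Summable.of_norm_bounded (g := fun p : ℕ × ℕ => a p.1 * a p.2 * C)
    ((prod_law ha).summable.mul_right C) ?_
  intro p
  have h0 : 0 ≤ a p.1 * a p.2 := mul_nonneg (ha.nn _) (ha.nn _)
  rw [Real.norm_eq_abs, abs_mul, abs_of_nonneg h0]
  exact mul_le_mul_of_nonneg_left (hC _ _) h0

theorem E2_I_pos {a : ℕ → ℝ} (ha : Law a) : 0 < E2 a (fun K L => I (K + L)) := by
  obtain ⟨k, hk⟩ := ha.mass_pos
  unfold E2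
  refine (summ2_bdd ha (F := fun K L => I (K + L)) (C := 1) fun K L => ?_).tsum_pos
    (fun p => mul_nonneg (mul_nonneg (ha.nn _) (ha.nn _)) (I_pos _).le) (k, k) ?_
  · rw [abs_of_pos (I_pos _)]
    exact I_le_one _
  · exact mul_pos (mul_pos hk hk) (I_pos _)

theorem E_I_pos {a : ℕ → ℝ} (ha : Law a) : 0 < E a I := by
  obtain ⟨k, hk⟩ := ha.mass_pos
  unfold E
  have hs : Summable fun k => a k * I k := by
    refine Summable.of_nonneg_of_le (fun k => mul_nonneg (ha.nn _) (I_pos _).le) (fun k => ?_)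
      ha.one.summable
    exact mul_le_of_le_one_right (ha.nn _) (I_le_one _)
  exact hs.tsum_pos (fun p => mul_nonneg (ha.nn _) (I_pos _).le) k (mul_pos hk (I_pos _))

theorem hyp_hasSum (K L : ℕ) : HasSum (hyp K L) 1 := by
  have h1 : ∑ j ∈ range (K + 1), hyp K L j = 1 := by
    have h := H_fact K L 0
    simp only [Nat.choose_zero_right, Nat.cast_one, gb_zero, mul_one, div_one] at h
    unfold H at h
    simpa using h
  rw [← h1]
  refine hasSum_sum_of_ne_finset_zero fun j hj => ?_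
  unfold hyp
  rw [if_neg]
  rw [Finset.mem_range] at hj
  omega

theorem hyp_le_one (K L j : ℕ) : hyp K L j ≤ 1 :=
  le_hasSum (hyp_hasSum K L) j fun i _ => hyp_nonneg K L i

theorem law_T {b : ℕ → ℝ} (hb : Law b) : Law (T b) := by
  have hZ := E2_I_pos hb
  obtain ⟨f, hf⟩ : ∃ f : (ℕ × ℕ) × ℕ → ℝ, f = fun q =>
    b q.1.1 * b q.1.2 * (I (q.1.1 + q.1.2) * hyp q.1.1 q.1.2 q.2) := ⟨_, rfl⟩
  have hf0 : ∀ q, 0 ≤ f q := by
    intro q
    rw [hf]
    exact mul_nonneg (mul_nonneg (hb.nn _) (hb.nn _)) (mul_nonneg (I_pos _).le (hyp_nonneg _ _ _))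
  have hrow : ∀ p : ℕ × ℕ, HasSum (fun j => f (p, j)) (b p.1 * b p.2 * I (p.1 + p.2)) := by
    intro p
    have h1 := (hyp_hasSum p.1 p.2).mul_left (b p.1 * b p.2 * I (p.1 + p.2))
    rw [mul_one] at h1
    rw [hf]
    refine h1.congr_fun ?_ |> fun h => h
    intro j
    ring
  have hZs : HasSum (fun p : ℕ × ℕ => b p.1 * b p.2 * I (p.1 + p.2))
      (E2 b (fun K L => I (K + L))) :=
    (summ2_bdd hb (F := fun K L => I (K + L)) (C := 1) fun K L => by
      rw [abs_of_pos (I_pos _)]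
      exact I_le_one _).hasSum
  have hfs : Summable f := by
    rw [summable_prod_of_nonneg hf0]
    refine ⟨fun p => (hrow p).summable, ?_⟩
    refine hZs.summable.congr fun p => ?_
    exact (hrow p).tsum_eq.symm
  have htot : HasSum f (E2 b (fun K L => I (K + L))) := by
    have h1 := hfs.hasSum.prod_fiberwise hrow
    have h2 := hfs.hasSum
    rwa [h1.unique hZs] at h2
  have hcol : HasSum (fun j => ∑' p : ℕ × ℕ, f (p, j)) (E2 b (fun K L => I (K + L))) := by
    have h2 : HasSum (fun q : ℕ × (ℕ × ℕ) => f (q.2, q.1)) (E2 b (fun K L => I (K + L))) :=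
      (Equiv.prodComm ℕ (ℕ × ℕ)).hasSum_iff.2 htot
    exact h2.prod_fiberwise fun j => (h2.summable.prod_factor j).hasSum
  refine ⟨fun j => ?_, ?_⟩
  · unfold T Ew
    refine div_nonneg ?_ hZ.le
    unfold E2
    exact tsum_nonneg fun p => mul_nonneg (mul_nonneg (hb.nn _) (hb.nn _))
      (mul_nonneg (I_pos _).le (hyp_nonneg _ _ _))
  · have h3 := hcol.div_const (E2 b (fun K L => I (K + L)))
    rw [div_self hZ.ne'] at h3
    have h4 : T b = fun j => (∑' p : ℕ × ℕ, f (p, j)) / E2 b (fun K L => I (K + L)) := by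
      funext j
      rw [hf]
      rfl
    rw [h4]
    exact h3

theorem law_S {b : ℕ → ℝ} (hb : Law b) : Law (S b) := by
  refine ⟨fun k => Finset.sum_nonneg fun p _ => mul_nonneg (hb.nn _) (hb.nn _), ?_⟩
  have hn : Summable fun k => ‖b k‖ := hb.one.summable.norm
  have h1 := summable_norm_sum_mul_antidiagonal_of_summable_norm hn hn
  have h2 := tsum_mul_tsum_eq_tsum_sum_antidiagonal_of_summable_norm hn hn
  rw [hb.one.tsum_eq, mul_one] at h2
  have h3 := h1.of_norm.hasSum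
  rw [← h2] at h3
  exact h3

/-- JOB CONT -/
theorem cont : P_CONT := by
  intro a b ha hb h
  have hE : ∀ φ : ℕ → ℝ, (∃ C, ∀ k, |φ k| ≤ C) →
      Tendsto (fun n => E (a n) φ) atTop (𝓝 (E b φ)) := by
    rintro φ ⟨C, hC⟩
    exact tend_bdd a b (fun n => (ha n).nn) (fun n => (ha n).one) hb.nn hb.one h φ C hC
  have hE2 : ∀ F : ℕ → ℕ → ℝ, (∃ C, ∀ K L, |F K L| ≤ C) →
      Tendsto (fun n => E2 (a n) F) atTop (𝓝 (E2 b F)) := by
    rintro F ⟨C, hC⟩
    exact tend_bdd (fun n (p : ℕ × ℕ) => a n p.1 * a n p.2) (fun p : ℕ × ℕ => b p.1 * b p.2)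
      (fun n p => mul_nonneg ((ha n).nn _) ((ha n).nn _)) (fun n => prod_law (ha n))
      (fun p => mul_nonneg (hb.nn _) (hb.nn _)) (prod_law hb) (fun p => (h p.1).mul (h p.2))
      (fun p => F p.1 p.2) C fun p => hC p.1 p.2
  refine ⟨scheffe a b (fun n => (ha n).nn) (fun n => (ha n).one) hb.nn hb.one h, hE, ?_, ?_,
    law_T hb, law_S hb, ?_⟩
  · intro k
    unfold T Ew
    refine Tendsto.div (hE2 _ ⟨1, fun K L => ?_⟩) (hE2 _ ⟨1, fun K L => ?_⟩) (E2_I_pos hb).ne'
    · rw [abs_of_nonneg (mul_nonneg (I_pos _).le (hyp_nonneg _ _ _))]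
      exact mul_le_one₀ (I_le_one _) (hyp_nonneg _ _ _) (hyp_le_one _ _ _)
    · rw [abs_of_pos (I_pos _)]
      exact I_le_one _
  · intro k
    unfold S
    exact tendsto_finsetSum _ fun p _ => (h p.1).mul (h p.2)
  · unfold W
    refine Tendsto.div (hE _ ⟨1, fun k => ?_⟩) (hE _ ⟨1, fun k => ?_⟩) (E_I_pos hb).ne'
    · have h1 : 0 ≤ (k : ℝ) / (k + 3) := by positivity
      have h2 : (k : ℝ) / (k + 3) ≤ 1 := by
        rw [div_le_one (by positivity)]
        linarith
      rw [abs_of_nonneg (mul_nonneg (I_pos _).le h1)]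
      exact mul_le_one₀ (I_le_one _) h1 h2
    · rw [abs_of_pos (I_pos _)]
      exact I_le_one _

/-- JOB CONT -/
theorem t_CONT : P_HYP1 → P_CONT := fun _ => cont

end Pool.Agent.Q280.MK
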