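import Pool.Agent.Q280.MK.LINK

/-! # Project MK, job GAP (helper280): contraction of the conditional expectation -/

set_option autoImplicit false
set_option linter.unusedSectionVars false

namespace Pool.Agent.Q280.MK

open Pool.Agent.Q291.MK Finset Filter Topology MeasureTheory Quaternion

theorem conv_cont {f g : G → ℝ} (hf : Continuous f) (hg : Continuous g) :
    Continuous (conv f g) := by
  unfold conv
  have h : Continuous (Function.uncurry fun (x y : G) => f y * g (y⁻¹ * x)) :=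
    (hf.comp continuous_snd).mul (hg.comp ((continuous_inv.comp continuous_snd).mul continuous_fst))
  have h1 := continuous_parametric_integral_of_continuous (μ := haar) h isCompact_univ
  simpa only [Measure.restrict_univ] using h1

theorem conv_integrand_cont {f g : G → ℝ} (hf : Continuous f) (hg : Continuous g) (x : G) :
    Continuous fun y : G => f y * g (y⁻¹ * x) :=
  hf.mul (hg.comp (continuous_inv.mul continuous_const))

theorem conv_pos {f g : G → ℝ} (hf : Continuous f) (hg : Continuous g) (hf0 : ∀ x, 0 ≤ f x)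
    (hg0 : ∀ x, 0 ≤ g x) (x : G) (h : ∃ y, 0 < f y ∧ 0 < g (y⁻¹ * x)) : 0 < conv f g x := by
  obtain ⟨y, hy1, hy2⟩ := h
  unfold conv
  exact (conv_integrand_cont hf hg x).integral_pos_of_hasCompactSupport_nonneg_nonzero
    (HasCompactSupport.of_compactSpace _) (fun y => mul_nonneg (hf0 _) (hg0 _))
    (x := y) (mul_pos hy1 hy2).ne'

/-- the quaternion `i` -/
noncomputable def qi : ℍ[ℝ] := ⟨0, 1, 0, 0⟩

theorem qi_norm : ‖qi‖ = 1 := by
  have h3 := Quaternion.normSq_eq_norm_mul_self qi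
  rw [Quaternion.normSq_def'] at h3
  have e : qi.re ^ 2 + qi.imI ^ 2 + qi.imJ ^ 2 + qi.imK ^ 2 = 1 := by
    change (0 : ℝ) ^ 2 + 1 ^ 2 + 0 ^ 2 + 0 ^ 2 = 1
    norm_num
  rw [e] at h3
  have h4 : 0 ≤ ‖qi‖ := norm_nonneg _
  nlinarith

theorem qi_re : qi.re = 0 := rfl
theorem qi_imI : qi.imI = 1 := rfl
theorem qi_imJ : qi.imJ = 0 := rfl
theorem qi_imK : qi.imK = 0 := rfl

theorem qi_inv : qi⁻¹ = -qi := by
  apply inv_eq_of_mul_eq_one_right
  rw [mul_neg]
  ext
  · rw [Quaternion.re_neg, Quaternion.re_mul, qi_re, qi_imI, qi_imJ, qi_imK, Quaternion.re_one]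
    norm_num
  · rw [Quaternion.imI_neg, Quaternion.imI_mul, qi_re, qi_imI, qi_imJ, qi_imK, Quaternion.imI_one]
    norm_num
  · rw [Quaternion.imJ_neg, Quaternion.imJ_mul, qi_re, qi_imI, qi_imJ, qi_imK, Quaternion.imJ_one]
    norm_num
  · rw [Quaternion.imK_neg, Quaternion.imK_mul, qi_re, qi_imI, qi_imJ, qi_imK, Quaternion.imK_one]
    norm_num

theorem exists_good (x : G) : ∃ y : G, 0 < tt y ∧ 0 < tt (y⁻¹ * x) := by
  rcases (tt_nonneg x).lt_or_eq with h | h
  · refine ⟨1, ?_, ?_⟩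
    · rw [tt_one]
      exact one_pos
    · rwa [inv_one, one_mul]
  · -- `x = -1`
    have hre : (x : ℍ[ℝ]).re = -1 := by
      unfold tt at h
      linarith
    have h2 := G_normSq x
    rw [hre] at h2
    have hI : (x : ℍ[ℝ]).imI = 0 := by
      nlinarith [sq_nonneg (x : ℍ[ℝ]).imI, sq_nonneg (x : ℍ[ℝ]).imJ, sq_nonneg (x : ℍ[ℝ]).imK]
    have hm : qi ∈ Metric.sphere (0 : ℍ[ℝ]) 1 := by
      rw [mem_sphere_zero_iff_norm]
      exact qi_norm
    refine ⟨⟨qi, hm⟩, ?_, ?_⟩
    · unfold tt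
      change 0 < (1 + qi.re) / 2
      rw [qi_re]
      norm_num
    · unfold tt
      have h5 : (((⟨qi, hm⟩ : G)⁻¹ * x : G) : ℍ[ℝ]) = qi⁻¹ * (x : ℍ[ℝ]) := rfl
      rw [h5, qi_inv, neg_mul, Quaternion.re_neg, Quaternion.re_mul, qi_re, qi_imI, qi_imJ, qi_imK,
        hI]
      norm_num

section
variable {f : G → ℝ} (hf : Continuous f) (hf0 : ∀ x, 0 ≤ f x) (hf1 : ∀ x, 0 < tt x → 0 < f x)
include hf hf0 hf1

theorem g1_pos (x : G) : 0 < conv f f x := by
  obtain ⟨y, h1, h2⟩ := exists_good x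
  exact conv_pos hf hf hf0 hf0 x ⟨y, hf1 y h1, hf1 _ h2⟩

theorem f_one_pos : 0 < f 1 := hf1 1 (by rw [tt_one]; exact one_pos)

theorem g_pos (x : G) : 0 < conv f (conv f f) x :=
  conv_pos hf (conv_cont hf hf) hf0 (fun y => (g1_pos hf hf0 hf1 y).le) x
    ⟨1, f_one_pos hf hf0 hf1, g1_pos hf hf0 hf1 _⟩

theorem Z_pos' (x : G) : 0 < conv f (conv f (conv f f)) x :=
  conv_pos hf (conv_cont hf (conv_cont hf hf)) hf0 (fun y => (g_pos hf hf0 hf1 y).le) x
    ⟨1, f_one_pos hf hf0 hf1, g_pos hf hf0 hf1 _⟩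

theorem Q_bounds {φ : G → ℝ} (hφ : Continuous φ) {m M c : ℝ} (hm : ∀ x, m ≤ φ x)
    (hM : ∀ x, φ x ≤ M) (x : G)
    (hc : ∀ y, c * conv f (conv f (conv f f)) x ≤ f y * conv f (conv f f) (y⁻¹ * x)) :
    m * (1 - c) + c * ∫ y, φ y ∂haar ≤ Qop f φ x ∧
      Qop f φ x ≤ M * (1 - c) + c * ∫ y, φ y ∂haar := by
  have hZ := Z_pos' hf hf0 hf1 x
  have hg := conv_cont hf (conv_cont hf hf)
  obtain ⟨Z, hZd⟩ : ∃ Z, Z = conv f (conv f (conv f f)) x := ⟨_, rfl⟩
  rw [← hZd] at hZ hc
  obtain ⟨h, hh⟩ : ∃ h : G → ℝ, h = fun y => f y * conv f (conv f f) (y⁻¹ * x) := ⟨_, rfl⟩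
  have hhc : Continuous h := by
    rw [hh]
    exact conv_integrand_cont hf hg x
  have hZi : Z = ∫ y, h y ∂haar := by
    rw [hZd, hh]
    rfl
  have hN : conv (fun y => φ y * f y) (conv f (conv f f)) x = ∫ y, φ y * h y ∂haar := by
    unfold conv
    refine integral_congr_ae (Eventually.of_forall fun y => ?_)
    rw [hh]
    exact mul_assoc _ _ _
  have hch : ∀ y, c * Z ≤ h y := by
    intro y
    rw [hh]
    exact hc y
  have i1 : Integrable h haar := integrable_cont hhc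
  have i2 : Integrable φ haar := integrable_cont hφ
  have i3 : Integrable (fun y => φ y * h y) haar := integrable_cont (hφ.mul hhc)
  have i4 : Integrable (fun y => c * Z * φ y) haar := i2.const_mul _
  have i5 : Integrable (fun y => m * h y) haar := i1.const_mul _
  have i6 : Integrable (fun y => M * h y) haar := i1.const_mul _
  have i7 : Integrable (fun _ : G => m * (c * Z)) haar := integrable_const _
  have i8 : Integrable (fun _ : G => M * (c * Z)) haar := integrable_const _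
  have hlow : m * Z - m * (c * Z) ≤ ∫ y, (φ y * h y - c * Z * φ y) ∂haar := by
    have h1 : ∫ y, (m * h y - m * (c * Z)) ∂haar ≤ ∫ y, (φ y * h y - c * Z * φ y) ∂haar := by
      refine integral_mono (i5.sub i7) (i3.sub i4) fun y => ?_
      change m * h y - m * (c * Z) ≤ φ y * h y - c * Z * φ y
      have h2 := mul_nonneg (sub_nonneg.2 (hm y)) (sub_nonneg.2 (hch y))
      nlinarith
    rwa [integral_sub i5 i7, integral_const_mul, integral_const, probReal_univ, one_smul,
      ← hZi] at h1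
  have hupp : ∫ y, (φ y * h y - c * Z * φ y) ∂haar ≤ M * Z - M * (c * Z) := by
    have h1 : ∫ y, (φ y * h y - c * Z * φ y) ∂haar ≤ ∫ y, (M * h y - M * (c * Z)) ∂haar := by
      refine integral_mono (i3.sub i4) (i6.sub i8) fun y => ?_
      change φ y * h y - c * Z * φ y ≤ M * h y - M * (c * Z)
      have h2 := mul_nonneg (sub_nonneg.2 (hM y)) (sub_nonneg.2 (hch y))
      nlinarith
    rwa [integral_sub i6 i8, integral_const_mul, integral_const, probReal_univ, one_smul,
      ← hZi] at h1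
  rw [integral_sub i3 i4, integral_const_mul] at hlow hupp
  unfold Qop
  rw [hN, ← hZd, le_div_iff₀ hZ, div_le_iff₀ hZ]
  constructor <;> nlinarith

end

theorem conv_bounds {f g : G → ℝ} (hf : Continuous f) (hg : Continuous g) {s t : ℝ}
    (hs : 0 ≤ s) (ht : 0 ≤ t) (hf1 : ∀ x, s ≤ f x ∧ f x ≤ 1) (hg1 : ∀ x, t ≤ g x ∧ g x ≤ 1)
    (x : G) : s * t ≤ conv f g x ∧ conv f g x ≤ 1 := by
  have i1 : Integrable (fun y : G => f y * g (y⁻¹ * x)) haar :=
    integrable_cont (conv_integrand_cont hf hg x)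
  unfold conv
  constructor
  · have h1 : ∫ _ : G, s * t ∂haar ≤ ∫ y, f y * g (y⁻¹ * x) ∂haar := by
      refine integral_mono (integrable_const _) i1 fun y => ?_
      exact mul_le_mul (hf1 y).1 (hg1 _).1 ht (hs.trans (hf1 y).1)
    rwa [integral_const, probReal_univ, one_smul] at h1
  · have h1 : ∫ y, f y * g (y⁻¹ * x) ∂haar ≤ ∫ _ : G, (1 : ℝ) ∂haar := by
      refine integral_mono i1 (integrable_const _) fun y => ?_
      exact mul_le_one₀ (hf1 y).2 (ht.trans (hg1 _).1) (hg1 _).2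
    rwa [integral_const, probReal_univ, one_smul] at h1

/-- JOB GAP -/
theorem t_GAP : P_GAP := by
  intro f hf hf0 hf1 φ δ hφ hδ
  have hg := conv_cont hf (conv_cont hf hf)
  obtain ⟨x0, _, hx0⟩ := isCompact_univ.exists_isMinOn (Set.univ_nonempty (α := G)) hφ.continuousOn
  obtain ⟨x1, _, hx1⟩ := isCompact_univ.exists_isMaxOn (Set.univ_nonempty (α := G)) hφ.continuousOn
  have hm : ∀ x, φ x0 ≤ φ x := fun x => hx0 (Set.mem_univ x)
  have hM : ∀ x, φ x ≤ φ x1 := fun x => hx1 (Set.mem_univ x)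
  have hMm : φ x1 - φ x0 ≤ δ := (le_abs_self _).trans (hδ x1 x0)
  have hδ0 : 0 ≤ δ := (abs_nonneg _).trans (hδ 1 1)
  have hosc : ∀ x y, |Qop f φ x - Qop f φ y| ≤ δ := by
    intro x y
    have h0 : ∀ z y : G, 0 * conv f (conv f (conv f f)) z ≤
        f y * conv f (conv f f) (y⁻¹ * z) := by
      intro z y
      rw [zero_mul]
      exact mul_nonneg (hf0 _) (g_pos hf hf0 hf1 _).le
    have h1 := Q_bounds hf hf0 hf1 hφ hm hM x (h0 x)
    have h2 := Q_bounds hf hf0 hf1 hφ hm hM y (h0 y)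
    rw [abs_le]
    constructor <;> linarith [h1.1, h1.2, h2.1, h2.2]
  refine ⟨?_, hosc, ?_⟩
  · unfold Qop
    exact (conv_cont (hφ.mul hf) hg).div (conv_cont hf hg) fun x => (Z_pos' hf hf0 hf1 x).ne'
  · intro ε hε hfε x y
    rcases le_or_gt 1 (4 * ε) with h4 | h4
    · exact (hosc x y).trans (by nlinarith)
    · have hs : 0 ≤ 1 - ε := by linarith
      have hb1 := conv_bounds hf hf hs hs hfε hfε
      have hb2 := conv_bounds hf (conv_cont hf hf) hs (mul_nonneg hs hs) hfε hb1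
      have hb3 := conv_bounds hf hg hs (mul_nonneg hs (mul_nonneg hs hs)) hfε hb2
      have hc : ∀ z y : G, (1 - 4 * ε) * conv f (conv f (conv f f)) z ≤
          f y * conv f (conv f f) (y⁻¹ * z) := by
        intro z y
        have h5 : 1 - 4 * ε ≤ (1 - ε) * ((1 - ε) * ((1 - ε) * (1 - ε))) := by
          have h6 := one_add_mul_le_pow (show (-2 : ℝ) ≤ -ε by linarith) 4
          push_cast at h6
          calc 1 - 4 * ε = 1 + 4 * -ε := by ring
            _ ≤ (1 + -ε) ^ 4 := h6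
            _ = _ := by ring
        have h7 : (1 - ε) * ((1 - ε) * ((1 - ε) * (1 - ε))) ≤
            f y * conv f (conv f f) (y⁻¹ * z) :=
          mul_le_mul (hfε y).1 (hb2 _).1 (mul_nonneg hs (mul_nonneg hs hs)) (hf0 y)
        have h8 : (1 - 4 * ε) * conv f (conv f (conv f f)) z ≤ 1 - 4 * ε :=
          mul_le_of_le_one_right (by linarith) (hb3 z).2
        linarith
      have h1 := Q_bounds hf hf0 hf1 hφ hm hM x (hc x)
      have h2 := Q_bounds hf hf0 hf1 hφ hm hM y (hc y)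
      have h9 : 4 * ε * (φ x1 - φ x0) ≤ 4 * ε * δ :=
        mul_le_mul_of_nonneg_left hMm (by linarith)
      rw [abs_le]
      constructor <;> nlinarith [h1.1, h1.2, h2.1, h2.2]

end Pool.Agent.Q280.MK
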