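import Pool.Agent.Q280.MK.CONT

/-! # Project MK, job LINK (helper280): densities and laws -/

set_option autoImplicit false

namespace Pool.Agent.Q280.MK

open Pool.Agent.Q291.MK Finset Filter Topology MeasureTheory Quaternion

theorem G_normSq (x : G) : (x : ℍ[ℝ]).re ^ 2 + (x : ℍ[ℝ]).imI ^ 2 + (x : ℍ[ℝ]).imJ ^ 2 +
    (x : ℍ[ℝ]).imK ^ 2 = 1 := by
  have h1 : ‖(x : ℍ[ℝ])‖ = 1 := by simp
  have h2 := Quaternion.normSq_eq_norm_mul_self (x : ℍ[ℝ])
  rw [h1, one_mul, Quaternion.normSq_def'] at h2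
  exact h2

theorem re_le (x : G) : (x : ℍ[ℝ]).re ≤ 1 := by
  have h := G_normSq x
  nlinarith [sq_nonneg (x : ℍ[ℝ]).imI, sq_nonneg (x : ℍ[ℝ]).imJ, sq_nonneg (x : ℍ[ℝ]).imK]

theorem le_re (x : G) : -1 ≤ (x : ℍ[ℝ]).re := by
  have h := G_normSq x
  nlinarith [sq_nonneg (x : ℍ[ℝ]).imI, sq_nonneg (x : ℍ[ℝ]).imJ, sq_nonneg (x : ℍ[ℝ]).imK]

theorem tt_nonneg (x : G) : 0 ≤ tt x := by
  unfold tt
  linarith [le_re x]

theorem tt_le_one (x : G) : tt x ≤ 1 := by
  unfold tt
  linarith [re_le x]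

theorem re_ne {x : G} (h : x ≠ 1) : (x : ℍ[ℝ]).re ≠ 1 := by
  intro h1
  apply h
  have h2 := G_normSq x
  rw [h1] at h2
  have hI : (x : ℍ[ℝ]).imI = 0 := by
    nlinarith [sq_nonneg (x : ℍ[ℝ]).imI, sq_nonneg (x : ℍ[ℝ]).imJ, sq_nonneg (x : ℍ[ℝ]).imK]
  have hJ : (x : ℍ[ℝ]).imJ = 0 := by
    nlinarith [sq_nonneg (x : ℍ[ℝ]).imI, sq_nonneg (x : ℍ[ℝ]).imJ, sq_nonneg (x : ℍ[ℝ]).imK]
  have hK : (x : ℍ[ℝ]).imK = 0 := by
    nlinarith [sq_nonneg (x : ℍ[ℝ]).imI, sq_nonneg (x : ℍ[ℝ]).imJ, sq_nonneg (x : ℍ[ℝ]).imK]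
  apply Subtype.ext
  change (x : ℍ[ℝ]) = 1
  ext
  · rw [h1]; simp
  · rw [hI]; simp
  · rw [hJ]; simp
  · rw [hK]; simp

theorem tt_ne {x : G} (h : x ≠ 1) : tt x ≠ 1 := by
  unfold tt
  have := re_ne h
  intro h1
  apply this
  linarith

theorem tt_one : tt (1 : G) = 1 := by
  unfold tt
  have : ((1 : G) : ℍ[ℝ]) = 1 := rfl
  rw [this]
  simp

theorem continuous_re : Continuous fun x : G => (x : ℍ[ℝ]).re :=
  Quaternion.continuous_re.comp continuous_subtype_val

theorem continuous_tt : Continuous tt := by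
  unfold tt
  exact (continuous_const.add continuous_re).div_const 2

theorem integrable_cont {f : G → ℝ} (hf : Continuous f) : Integrable f haar :=
  hf.integrable_of_hasCompactSupport (HasCompactSupport.of_compactSpace f)

section
variable {a : ℕ → ℝ} (ha : Law a)
include ha

theorem fn_summ (x : G) : Summable fun k => a k * tt x ^ k := by
  refine Summable.of_nonneg_of_le (fun k => mul_nonneg (ha.nn k) (pow_nonneg (tt_nonneg x) k))
    (fun k => ?_) ha.one.summable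
  exact mul_le_of_le_one_right (ha.nn k) (pow_le_one₀ (tt_nonneg x) (tt_le_one x))

theorem fn_cont : Continuous (fn a) := by
  unfold fn E
  refine continuous_tsum (fun k => continuous_const.mul (continuous_tt.pow k)) ha.one.summable ?_
  intro k x
  rw [Real.norm_eq_abs, abs_of_nonneg (mul_nonneg (ha.nn k) (pow_nonneg (tt_nonneg x) k))]
  exact mul_le_of_le_one_right (ha.nn k) (pow_le_one₀ (tt_nonneg x) (tt_le_one x))

theorem fn_ge (x : G) : a 0 ≤ fn a x := by
  have h := (fn_summ ha x).le_tsum 0 fun k _ =>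
    mul_nonneg (ha.nn k) (pow_nonneg (tt_nonneg x) k)
  simpa [fn, E] using h

theorem fn_le (x : G) : fn a x ≤ 1 := by
  have h := (fn_summ ha x).tsum_le_tsum (fun k => show a k * tt x ^ k ≤ a k from
    mul_le_of_le_one_right (ha.nn k) (pow_le_one₀ (tt_nonneg x) (tt_le_one x))) ha.one.summable
  rwa [ha.one.tsum_eq] at h

theorem fn_one : fn a 1 = 1 := by
  unfold fn E
  simp only [tt_one, one_pow, mul_one]
  exact ha.one.tsum_eq

theorem fn_sq (x : G) : fn a x ^ 2 = fn (S a) x := by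
  have hn : Summable fun k => ‖a k * tt x ^ k‖ := (fn_summ ha x).norm
  have h2 := tsum_mul_tsum_eq_tsum_sum_antidiagonal_of_summable_norm hn hn
  unfold fn E
  rw [sq, h2]
  refine tsum_congr fun k => ?_
  unfold S
  rw [Finset.sum_mul]
  refine Finset.sum_congr rfl fun p hp => ?_
  have h3 : p.1 + p.2 = k := Finset.HasAntidiagonal.mem_antidiagonal.1 hp
  rw [← h3]
  change a p.1 * tt x ^ p.1 * (a p.2 * tt x ^ p.2) = a p.1 * a p.2 * tt x ^ (p.1 + p.2)
  rw [pow_add]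
  ring

/-- expectations under `T a` of bounded functions -/
theorem E_T {φ : ℕ → ℝ} {C : ℝ} (hC : ∀ k, |φ k| ≤ C) :
    E2 a (fun K L => I (K + L)) * E (T a) φ = E2 a (fun K L => I (K + L) * H K L φ) := by
  have hZ := E2_I_pos ha
  obtain ⟨f, hf⟩ : ∃ f : (ℕ × ℕ) × ℕ → ℝ, f = fun q =>
    a q.1.1 * a q.1.2 * (I (q.1.1 + q.1.2) * (hyp q.1.1 q.1.2 q.2 * φ q.2)) := ⟨_, rfl⟩
  obtain ⟨g, hg⟩ : ∃ g : (ℕ × ℕ) × ℕ → ℝ, g = fun q =>
    a q.1.1 * a q.1.2 * (I (q.1.1 + q.1.2) * (hyp q.1.1 q.1.2 q.2 * C)) := ⟨_, rfl⟩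
  have hC0 : 0 ≤ C := (abs_nonneg _).trans (hC 0)
  have hg0 : ∀ q, 0 ≤ g q := by
    intro q
    rw [hg]
    exact mul_nonneg (mul_nonneg (ha.nn _) (ha.nn _)) (mul_nonneg (I_pos _).le
      (mul_nonneg (hyp_nonneg _ _ _) hC0))
  have hgrow : ∀ p : ℕ × ℕ, HasSum (fun j => g (p, j)) (a p.1 * a p.2 * (I (p.1 + p.2) * C)) := by
    intro p
    have h1 := (hyp_hasSum p.1 p.2).mul_left (a p.1 * a p.2 * (I (p.1 + p.2) * C))
    rw [mul_one] at h1
    have h2 : (fun j => g (p, j)) = fun j => a p.1 * a p.2 * (I (p.1 + p.2) * C) * hyp p.1 p.2 j := by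
      funext j
      rw [hg]
      ring
    rw [h2]
    exact h1
  have hgs : Summable g := by
    rw [summable_prod_of_nonneg hg0]
    refine ⟨fun p => (hgrow p).summable, ?_⟩
    have h3 := (summ2_bdd ha (F := fun K L => I (K + L) * C) (C := C) fun K L => by
      rw [abs_of_nonneg (mul_nonneg (I_pos _).le hC0)]
      exact mul_le_of_le_one_left hC0 (I_le_one _))
    exact h3.congr fun p => (hgrow p).tsum_eq.symm
  have hfs : Summable f := by
    refine Summable.of_norm_bounded hgs fun q => ?_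
    rw [hf, hg]
    have h0 : 0 ≤ a q.1.1 * a q.1.2 := mul_nonneg (ha.nn _) (ha.nn _)
    change |a q.1.1 * a q.1.2 * (I (q.1.1 + q.1.2) * (hyp q.1.1 q.1.2 q.2 * φ q.2))| ≤
      a q.1.1 * a q.1.2 * (I (q.1.1 + q.1.2) * (hyp q.1.1 q.1.2 q.2 * C))
    rw [abs_mul (a q.1.1 * a q.1.2), abs_mul (I _), abs_mul (hyp _ _ _), abs_of_nonneg h0,
      abs_of_pos (I_pos _), abs_of_nonneg (hyp_nonneg _ _ _)]
    exact mul_le_mul_of_nonneg_left (mul_le_mul_of_nonneg_left
      (mul_le_mul_of_nonneg_left (hC _) (hyp_nonneg _ _ _)) (I_pos _).le) h0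
  have hrow : ∀ p : ℕ × ℕ, HasSum (fun j => f (p, j))
      (a p.1 * a p.2 * (I (p.1 + p.2) * H p.1 p.2 φ)) := by
    intro p
    have h1 : HasSum (fun j => hyp p.1 p.2 j * φ j) (H p.1 p.2 φ) := by
      unfold H
      refine hasSum_sum_of_ne_finset_zero fun j hj => ?_
      unfold hyp
      rw [if_neg, zero_mul]
      rw [Finset.mem_range] at hj
      omega
    have h2 := h1.mul_left (a p.1 * a p.2 * I (p.1 + p.2))
    have h3 : (fun j => f (p, j)) = fun j => a p.1 * a p.2 * I (p.1 + p.2) *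
        (hyp p.1 p.2 j * φ j) := by
      funext j
      rw [hf]
      ring
    rw [h3, ← mul_assoc]
    exact h2
  have htot : HasSum f (E2 a (fun K L => I (K + L) * H K L φ)) := by
    have h1 := hfs.hasSum.prod_fiberwise hrow
    have h2 := hfs.hasSum
    have h3 : E2 a (fun K L => I (K + L) * H K L φ) = ∑' q, f q := h1.tsum_eq
    rwa [← h3] at h2
  have hcol : HasSum (fun j => ∑' p : ℕ × ℕ, f (p, j))
      (E2 a (fun K L => I (K + L) * H K L φ)) := by
    have h2 : HasSum (fun q : ℕ × (ℕ × ℕ) => f (q.2, q.1))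
        (E2 a (fun K L => I (K + L) * H K L φ)) :=
      (Equiv.prodComm ℕ (ℕ × ℕ)).hasSum_iff.2 htot
    exact h2.prod_fiberwise fun j => (h2.summable.prod_factor j).hasSum
  rw [← hcol.tsum_eq]
  unfold E
  rw [← tsum_mul_left]
  refine tsum_congr fun j => ?_
  have h4 : T a j = (∑' p : ℕ × ℕ, a p.1 * a p.2 * (I (p.1 + p.2) * hyp p.1 p.2 j)) /
      E2 a (fun K L => I (K + L)) := rfl
  rw [h4, ← mul_assoc, mul_div_cancel₀ _ hZ.ne', ← tsum_mul_right]
  refine tsum_congr fun p => ?_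
  rw [hf]
  ring

end

theorem H_zero_right (n : ℕ) (φ : ℕ → ℝ) : H n 0 φ = φ 0 := by
  unfold H
  rw [Finset.sum_eq_single 0]
  · unfold hyp
    rw [if_pos (Nat.zero_le n)]
    have h := gb_pos ((n : ℝ) + 1 / 2) n (by linarith)
    have h2 : ((n : ℝ) + ((0 : ℕ) : ℝ) + 1 / 2) = n + 1 / 2 := by push_cast; ring
    rw [h2, Nat.sub_zero, Nat.choose_self, Nat.cast_one, one_mul, div_self h.ne', one_mul]
  · intro j _ hj
    unfold hyp
    rw [Nat.choose_eq_zero_of_lt (Nat.pos_of_ne_zero hj)]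
    simp
  · intro h
    exact absurd (Finset.mem_range.2 (Nat.succ_pos n)) h

theorem int_tt (hG : P_GRP) (n : ℕ) : ∫ y, tt y ^ n ∂haar = I n := by
  have h := hG n 0 1
  simp only [pow_zero, mul_one, Nat.add_zero] at h
  rw [h, H_zero_right, pow_zero, mul_one]

theorem int_re (hG : P_GRP) (n : ℕ) :
    ∫ x, ((x : G) : ℍ[ℝ]).re * tt x ^ n ∂haar = I n * ((n : ℝ) / (n + 3)) := by
  have h1 : ∀ x : G, ((x : G) : ℍ[ℝ]).re * tt x ^ n = 2 * tt x ^ (n + 1) - tt x ^ n := by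
    intro x
    have : ((x : G) : ℍ[ℝ]).re = 2 * tt x - 1 := by
      unfold tt
      ring
    rw [this]
    ring
  simp only [h1]
  have i1 : Integrable (fun x : G => 2 * tt x ^ (n + 1)) haar :=
    (integrable_cont (continuous_tt.pow (n + 1))).const_mul 2
  have i2 : Integrable (fun x : G => tt x ^ n) haar := integrable_cont (continuous_tt.pow n)
  rw [integral_sub i1 i2, integral_const_mul, int_tt hG, int_tt hG, I_succ]
  have h3 : (n : ℝ) + 3 ≠ 0 := by positivity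
  have h4 : (2 : ℝ) * n + 6 ≠ 0 := by positivity
  rw [show (2 : ℝ) * n + 6 = 2 * (n + 3) by ring]
  field_simp
  ring

theorem conv_fn (hG : P_GRP) {a : ℕ → ℝ} (ha : Law a) (x : G) :
    conv (fn a) (fn a) x = E2 a (fun K L => I (K + L)) * fn (T a) x := by
  have h1 : E2 a (fun K L => I (K + L)) * fn (T a) x =
      E2 a (fun K L => I (K + L) * H K L (fun j => tt x ^ j)) :=
    E_T ha (φ := fun j => tt x ^ j) (C := 1) fun k => by
      rw [abs_of_nonneg (pow_nonneg (tt_nonneg x) k)]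
      exact pow_le_one₀ (tt_nonneg x) (tt_le_one x)
  rw [h1]
  have hct : ∀ p : ℕ × ℕ, Continuous fun y : G => a p.1 * a p.2 *
      (tt y ^ p.1 * tt (y⁻¹ * x) ^ p.2) := fun p =>
    continuous_const.mul ((continuous_tt.pow _).mul ((continuous_tt.comp
      (continuous_inv.mul continuous_const)).pow _))
  have hF : ∀ y : G, fn a y * fn a (y⁻¹ * x) =
      ∑' p : ℕ × ℕ, a p.1 * a p.2 * (tt y ^ p.1 * tt (y⁻¹ * x) ^ p.2) := by
    intro y
    unfold fn E
    rw [tsum_mul_tsum_of_summable_norm (fn_summ ha y).norm (fn_summ ha (y⁻¹ * x)).norm]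
    refine tsum_congr fun p => ?_
    ring
  have hb : ∀ (p : ℕ × ℕ) (y : G), ‖a p.1 * a p.2 * (tt y ^ p.1 * tt (y⁻¹ * x) ^ p.2)‖ ≤
      a p.1 * a p.2 := by
    intro p y
    have h0 : 0 ≤ a p.1 * a p.2 := mul_nonneg (ha.nn _) (ha.nn _)
    have h2 : 0 ≤ tt y ^ p.1 * tt (y⁻¹ * x) ^ p.2 :=
      mul_nonneg (pow_nonneg (tt_nonneg _) _) (pow_nonneg (tt_nonneg _) _)
    rw [Real.norm_eq_abs, abs_of_nonneg (mul_nonneg h0 h2)]
    exact mul_le_of_le_one_right h0 (mul_le_one₀ (pow_le_one₀ (tt_nonneg _) (tt_le_one _))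
      (pow_nonneg (tt_nonneg _) _) (pow_le_one₀ (tt_nonneg _) (tt_le_one _)))
  have hs := hasSum_integral_of_summable_integral_norm (μ := haar)
    (F := fun (p : ℕ × ℕ) (y : G) => a p.1 * a p.2 * (tt y ^ p.1 * tt (y⁻¹ * x) ^ p.2))
    (fun p => integrable_cont (hct p)) (by
      refine Summable.of_nonneg_of_le (fun p => integral_nonneg fun y => norm_nonneg _)
        (fun p => ?_) (prod_law ha).summable
      have h3 := integral_mono (μ := haar) ((integrable_cont (hct p)).norm)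
        (integrable_const (a p.1 * a p.2)) (hb p)
      rwa [integral_const, probReal_univ, one_smul] at h3)
  unfold conv
  simp only [hF]
  rw [← hs.tsum_eq]
  unfold E2
  refine tsum_congr fun p => ?_
  rw [integral_const_mul, hG]

theorem int_fn {a : ℕ → ℝ} (ha : Law a) (u : G → ℝ) (hu : Continuous u) (C : ℝ)
    (hC : ∀ x, |u x| ≤ C) :
    ∫ x, u x * fn a x ∂haar = ∑' k, a k * ∫ x, u x * tt x ^ k ∂haar := by
  have hb : ∀ (k : ℕ) (y : G), ‖a k * (u y * tt y ^ k)‖ ≤ a k * C := by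
    intro k y
    rw [Real.norm_eq_abs, abs_mul, abs_of_nonneg (ha.nn k)]
    refine mul_le_mul_of_nonneg_left ?_ (ha.nn k)
    rw [abs_mul, abs_of_nonneg (pow_nonneg (tt_nonneg y) k)]
    exact (mul_le_of_le_one_right (abs_nonneg _) (pow_le_one₀ (tt_nonneg _) (tt_le_one _))).trans
      (hC y)
  have hct : ∀ k, Continuous fun y : G => a k * (u y * tt y ^ k) := fun k =>
    continuous_const.mul (hu.mul (continuous_tt.pow _))
  have hs := hasSum_integral_of_summable_integral_norm (μ := haar)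
    (F := fun (k : ℕ) (y : G) => a k * (u y * tt y ^ k))
    (fun k => integrable_cont (hct k)) (by
      refine Summable.of_nonneg_of_le (fun p => integral_nonneg fun y => norm_nonneg _)
        (fun p => ?_) (ha.one.summable.mul_right C)
      have h3 := integral_mono (μ := haar) ((integrable_cont (hct p)).norm)
        (integrable_const (a p * C)) (hb p)
      rwa [integral_const, probReal_univ, one_smul] at h3)
  have hF : ∀ y : G, u y * fn a y = ∑' k, a k * (u y * tt y ^ k) := by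
    intro y
    unfold fn E
    rw [← tsum_mul_left]
    refine tsum_congr fun k => ?_
    ring
  simp only [hF]
  rw [← hs.tsum_eq]
  refine tsum_congr fun k => ?_
  rw [integral_const_mul]

theorem wil_fn (hG : P_GRP) {a : ℕ → ℝ} (ha : Law a) : wil (fn a) = W a := by
  have h1 := int_fn ha (fun _ => 1) continuous_const 1 (fun _ => by simp)
  simp only [one_mul, int_tt hG] at h1
  have h2 := int_fn ha (fun x => (x : ℍ[ℝ]).re) continuous_re 1 (fun x =>
    abs_le.2 ⟨le_re x, re_le x⟩)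
  simp only [int_re hG] at h2
  unfold wil W E
  rw [h1, h2]

theorem fn_deriv {a : ℕ → ℝ} (ha : Law a) (hs : Summable (fun k => a k * (k : ℝ) ^ 2)) :
    Tendsto (fun x : G => (1 - fn a x) / (1 - (x : ℍ[ℝ]).re)) (𝓝[≠] 1) (𝓝 (mean a / 2)) := by
  have hs1 : Summable fun k => a k * (k : ℝ) := by
    refine Summable.of_nonneg_of_le (fun k => mul_nonneg (ha.nn k) (Nat.cast_nonneg k))
      (fun k => ?_) hs
    refine mul_le_mul_of_nonneg_left ?_ (ha.nn k)
    rcases Nat.eq_zero_or_pos k with h | h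
    · rw [h]; simp
    · have : (1 : ℝ) ≤ k := by exact_mod_cast h
      nlinarith
  have htt : Tendsto tt (𝓝[≠] (1 : G)) (𝓝 1) := by
    have h := (continuous_tt.tendsto (1 : G)).mono_left (nhdsWithin_le_nhds (s := {1}ᶜ))
    rwa [tt_one] at h
  have h1 : Tendsto (fun x : G => ∑' k, a k * ∑ i ∈ range k, tt x ^ i) (𝓝[≠] 1)
      (𝓝 (∑' k, a k * (k : ℝ))) := by
    refine tendsto_tsum_of_dominated_convergence (bound := fun k => a k * (k : ℝ)) hs1 ?_ ?_
    · intro k
      refine tendsto_const_nhds.mul ?_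
      have h2 : Tendsto (fun x : G => ∑ i ∈ range k, tt x ^ i) (𝓝[≠] 1)
          (𝓝 (∑ i ∈ range k, (1 : ℝ) ^ i)) := tendsto_finsetSum _ fun i _ => htt.pow i
      simpa using h2
    · refine Eventually.of_forall fun x k => ?_
      have h3 : 0 ≤ ∑ i ∈ range k, tt x ^ i :=
        Finset.sum_nonneg fun i _ => pow_nonneg (tt_nonneg x) i
      rw [Real.norm_eq_abs, abs_of_nonneg (mul_nonneg (ha.nn k) h3)]
      refine mul_le_mul_of_nonneg_left ?_ (ha.nn k)
      calc ∑ i ∈ range k, tt x ^ i ≤ ∑ i ∈ range k, (1 : ℝ) :=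
            Finset.sum_le_sum fun i _ => pow_le_one₀ (tt_nonneg x) (tt_le_one x)
        _ = k := by simp
  have h4 := h1.div_const 2
  refine h4.congr' ?_
  filter_upwards [self_mem_nhdsWithin] with x hx
  have hx1 : x ≠ 1 := hx
  have ht := tt_ne hx1
  have h5 : 1 - (x : ℍ[ℝ]).re = 2 * (1 - tt x) := by
    unfold tt
    ring
  have h6 : 1 - fn a x = (1 - tt x) * ∑' k, a k * ∑ i ∈ range k, tt x ^ i := by
    have h7 : (1 : ℝ) = ∑' k, a k := ha.one.tsum_eq.symm
    conv_lhs => rw [h7]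
    unfold fn E
    rw [← (ha.one.summable).tsum_sub (fn_summ ha x), ← tsum_mul_left]
    refine tsum_congr fun k => ?_
    have h8 := mul_neg_geom_sum (tt x) k
    calc a k - a k * tt x ^ k = a k * (1 - tt x ^ k) := by ring
      _ = _ := by rw [← h8]; ring
  have h9 : 1 - tt x ≠ 0 := sub_ne_zero.2 (Ne.symm ht)
  rw [h5, h6]
  field_simp

/-- JOB LINK -/
theorem t_LINK : P_GRP → P_LINK := fun hG _ ha =>
  ⟨conv_fn hG ha, fn_sq ha, wil_fn hG ha, E2_I_pos ha, fn_cont ha,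
    fun x => ⟨fn_ge ha x, fn_le ha x⟩, fn_one ha, fn_deriv ha⟩

end Pool.Agent.Q280.MK
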