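import Pool.Agent.Q291.MK.Stm

/-! # Project MK, job RHO (helper280): the function `I` near `2 μ` -/

set_option autoImplicit false

namespace Pool.Agent.Q280.MK

open Pool.Agent.Q291.MK Finset

theorem A_mono : Monotone fun n : ℕ => I n ^ 2 * ((n : ℝ) + 3 / 2) ^ 3 := by
  refine monotone_nat_of_le_succ fun n => ?_
  rw [I_succ]
  have hI := I_pos n
  have hn : (0 : ℝ) ≤ n := Nat.cast_nonneg n
  have e : ((2 : ℝ) * n + 3) / (2 * n + 6) = (n + 3 / 2) / (n + 3) := by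
    rw [div_eq_div_iff (by positivity) (by positivity)]
    ring
  rw [e]
  push_cast
  have h1 : ((n : ℝ) + 3 / 2) ^ 3 ≤ ((n + 3 / 2) / (n + 3)) ^ 2 * ((n : ℝ) + 1 + 3 / 2) ^ 3 := by
    rw [div_pow, div_mul_eq_mul_div, le_div_iff₀ (by positivity)]
    have h2 : ((n : ℝ) + 3) ^ 2 * (n + 3 / 2) ≤ (n + 1 + 3 / 2) ^ 3 := by nlinarith
    calc ((n : ℝ) + 3 / 2) ^ 3 * (n + 3) ^ 2 = (n + 3 / 2) ^ 2 * ((n + 3) ^ 2 * (n + 3 / 2)) := by
          ring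
      _ ≤ _ := mul_le_mul_of_nonneg_left h2 (by positivity)
  calc I n ^ 2 * ((n : ℝ) + 3 / 2) ^ 3 ≤
        I n ^ 2 * (((n + 3 / 2) / (n + 3)) ^ 2 * ((n : ℝ) + 1 + 3 / 2) ^ 3) :=
        mul_le_mul_of_nonneg_left h1 (by positivity)
    _ = _ := by ring

theorem B_anti : Antitone fun n : ℕ => I n ^ 2 * ((n : ℝ) + 2) ^ 3 := by
  refine antitone_nat_of_succ_le fun n => ?_
  rw [I_succ]
  have hI := I_pos n
  have hn : (0 : ℝ) ≤ n := Nat.cast_nonneg n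
  have e : ((2 : ℝ) * n + 3) / (2 * n + 6) = (n + 3 / 2) / (n + 3) := by
    rw [div_eq_div_iff (by positivity) (by positivity)]
    ring
  rw [e]
  push_cast
  have h1 : ((n + 3 / 2) / (n + 3)) ^ 2 * ((n : ℝ) + 1 + 2) ^ 3 ≤ ((n : ℝ) + 2) ^ 3 := by
    rw [div_pow, div_mul_eq_mul_div, div_le_iff₀ (by positivity)]
    have h2 : ((n : ℝ) + 3 / 2) ^ 2 * (n + 3) ≤ (n + 2) ^ 3 := by nlinarith
    calc ((n : ℝ) + 3 / 2) ^ 2 * (n + 1 + 2) ^ 3 =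
          ((n + 3 / 2) ^ 2 * (n + 3)) * (n + 3) ^ 2 := by ring
      _ ≤ _ := mul_le_mul_of_nonneg_right h2 (by positivity)
  calc (I n * ((n + 3 / 2) / (n + 3))) ^ 2 * ((n : ℝ) + 1 + 2) ^ 3 =
        I n ^ 2 * (((n + 3 / 2) / (n + 3)) ^ 2 * ((n : ℝ) + 1 + 2) ^ 3) := by ring
    _ ≤ _ := mul_le_mul_of_nonneg_left h1 (by positivity)

theorem taylor {y : ℝ} (hy : 1 / 2 ≤ y) :
    |1 / y ^ 3 - (1 - 3 / 2 * (y ^ 2 - 1) + 15 / 8 * (y ^ 2 - 1) ^ 2)| ≤ 12 * |y ^ 2 - 1| ^ 3 := by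
  have hy0 : 0 < y := by linarith
  have e : 1 / y ^ 3 - (1 - 3 / 2 * (y ^ 2 - 1) + 15 / 8 * (y ^ 2 - 1) ^ 2) =
      -((y - 1) ^ 3 * ((15 * y ^ 4 + 45 * y ^ 3 + 48 * y ^ 2 + 24 * y + 8) / (8 * y ^ 3))) := by
    field_simp
    ring
  have hP : 15 * y ^ 4 + 45 * y ^ 3 + 48 * y ^ 2 + 24 * y + 8 ≤ 12 * (y + 1) ^ 3 * (8 * y ^ 3) := by
    obtain ⟨t, rfl⟩ : ∃ t, y = 1 / 2 + t := ⟨y - 1 / 2, by ring⟩
    have ht : 0 ≤ t := by linarith
    have h1 : 12 * (1 / 2 + t + 1) ^ 3 * (8 * (1 / 2 + t) ^ 3) - (15 * (1 / 2 + t) ^ 4 +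
        45 * (1 / 2 + t) ^ 3 + 48 * (1 / 2 + t) ^ 2 + 24 * (1 / 2 + t) + 8) =
        31 / 16 + 843 / 4 * t + 888 * t ^ 2 + 1557 * t ^ 3 + 1353 * t ^ 4 + 576 * t ^ 5 +
          96 * t ^ 6 := by ring
    have h2 : 0 ≤ 31 / 16 + 843 / 4 * t + 888 * t ^ 2 + 1557 * t ^ 3 + 1353 * t ^ 4 +
        576 * t ^ 5 + 96 * t ^ 6 := by positivity
    linarith
  have h3 : (15 * y ^ 4 + 45 * y ^ 3 + 48 * y ^ 2 + 24 * y + 8) / (8 * y ^ 3) ≤
      12 * (y + 1) ^ 3 := by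
    rw [div_le_iff₀ (by positivity)]
    exact hP
  have h4 : 0 ≤ (15 * y ^ 4 + 45 * y ^ 3 + 48 * y ^ 2 + 24 * y + 8) / (8 * y ^ 3) := by positivity
  rw [e, abs_neg, abs_mul, abs_of_nonneg h4, abs_pow]
  calc |y - 1| ^ 3 * ((15 * y ^ 4 + 45 * y ^ 3 + 48 * y ^ 2 + 24 * y + 8) / (8 * y ^ 3)) ≤
        |y - 1| ^ 3 * (12 * (y + 1) ^ 3) := mul_le_mul_of_nonneg_left h3 (by positivity)
    _ = 12 * (|y - 1| * (y + 1)) ^ 3 := by ring
    _ = 12 * |y ^ 2 - 1| ^ 3 := by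
        rw [show y ^ 2 - 1 = (y - 1) * (y + 1) by ring, abs_mul, abs_of_pos (show 0 < y + 1 by
          linarith)]

/-- the comparison with the target -/
theorem approx {μ θ d n y : ℝ} (hμ : 10 ≤ μ) (hθ : -1 ≤ θ) (hθ' : θ ≤ 0) (hd : 3 / 2 ≤ d)
    (hd' : d ≤ 2) (hn : 3 / 4 * μ ≤ n) (hy : 0 < y)
    (hyq : y ^ 2 = (n + d) / (2 * μ - θ + d)) :
    |1 / y ^ 3 - (1 + (-(3 / 4) * θ / μ) - 3 / 4 * ((n - 2 * μ) / μ) +
      15 / 32 * ((n - 2 * μ) / μ) ^ 2)| ≤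
      100 * (|n - 2 * μ| ^ 3 / μ ^ 3 + |n - 2 * μ| / μ ^ 2 + 1 / μ ^ 2) := by
  obtain ⟨X, hX⟩ : ∃ X, X = n - 2 * μ := ⟨_, rfl⟩
  rw [← hX]
  have hμ0 : 0 < μ := by linarith
  have hM : 0 < 2 * μ - θ + d := by linarith
  have hM2 : 2 * μ ≤ 2 * μ - θ + d := by linarith
  obtain ⟨e, he⟩ : ∃ e, e = y ^ 2 - 1 := ⟨_, rfl⟩
  have he' : e = (X + θ) / (2 * μ - θ + d) := by
    rw [he, hyq, hX]
    field_simp
    ring
  have hy2 : 1 / 2 ≤ y := by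
    have h1 : 1 / 4 ≤ y ^ 2 := by
      rw [hyq, le_div_iff₀ hM]
      linarith
    by_contra hc
    have hc' := not_le.1 hc
    nlinarith
  have hT := taylor hy2
  rw [← he] at hT
  obtain ⟨u, hu⟩ : ∃ u, u = |X| := ⟨_, rfl⟩
  have hu0 : 0 ≤ u := by rw [hu]; exact abs_nonneg X
  have hXθ : |X + θ| ≤ u + 1 := by
    rw [hu]
    refine (abs_add_le _ _).trans ?_
    have : |θ| ≤ 1 := abs_le.2 ⟨hθ, by linarith⟩
    linarith
  have he1 : |e| ≤ (u + 1) / (2 * μ) := by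
    rw [he', abs_div, abs_of_pos hM]
    exact div_le_div₀ (by linarith) hXθ (by linarith) hM2
  have he0 : |e - (X + θ) / (2 * μ)| ≤ 3 * (u + 1) / (4 * μ ^ 2) := by
    have h1 : e - (X + θ) / (2 * μ) = (X + θ) * (θ - d) / (2 * μ * (2 * μ - θ + d)) := by
      rw [he']
      field_simp
      ring
    rw [h1, abs_div, abs_mul, abs_of_pos (show 0 < 2 * μ * (2 * μ - θ + d) by positivity)]
    have h2 : |θ - d| ≤ 3 := abs_le.2 ⟨by linarith, by linarith⟩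
    refine div_le_div₀ (by positivity) ?_ (by positivity) ?_
    · calc |X + θ| * |θ - d| ≤ (u + 1) * 3 := mul_le_mul hXθ h2 (abs_nonneg _) (by linarith)
        _ = _ := by ring
    · calc 4 * μ ^ 2 = 2 * μ * (2 * μ) := by ring
        _ ≤ _ := mul_le_mul_of_nonneg_left hM2 (by positivity)
  have hXm : |X / (2 * μ)| = u / (2 * μ) := by
    rw [abs_div, abs_of_pos (show 0 < 2 * μ by linarith), hu]
  have h2 : |e - X / (2 * μ)| ≤ 3 * (u + 1) / (4 * μ ^ 2) + 1 / (2 * μ) := by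
    have h3 : e - X / (2 * μ) = (e - (X + θ) / (2 * μ)) + θ / (2 * μ) := by ring
    rw [h3]
    refine (abs_add_le _ _).trans (add_le_add he0 ?_)
    rw [abs_div, abs_of_pos (show 0 < 2 * μ by linarith)]
    exact div_le_div_of_nonneg_right (abs_le.2 ⟨hθ, by linarith⟩) (by linarith)
  have h3 : |e + X / (2 * μ)| ≤ (u + 1) / μ := by
    refine (abs_add_le _ _).trans ?_
    rw [hXm]
    calc |e| + u / (2 * μ) ≤ (u + 1) / (2 * μ) + u / (2 * μ) := by linarith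
      _ ≤ (u + 1) / (2 * μ) + (u + 1) / (2 * μ) := by
          have : u / (2 * μ) ≤ (u + 1) / (2 * μ) :=
            div_le_div_of_nonneg_right (by linarith) (by linarith)
          linarith
      _ = _ := by field_simp; ring
  have h4 : |e ^ 2 - (X / (2 * μ)) ^ 2| ≤ (3 * (u + 1) / (4 * μ ^ 2) + 1 / (2 * μ)) *
      ((u + 1) / μ) := by
    rw [show e ^ 2 - (X / (2 * μ)) ^ 2 = (e - X / (2 * μ)) * (e + X / (2 * μ)) by ring, abs_mul]
    exact mul_le_mul h2 h3 (abs_nonneg _) (by positivity)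
  have h5 : 1 / y ^ 3 - (1 + (-(3 / 4) * θ / μ) - 3 / 4 * (X / μ) + 15 / 32 * (X / μ) ^ 2) =
      (1 / y ^ 3 - (1 - 3 / 2 * e + 15 / 8 * e ^ 2)) - 3 / 2 * (e - (X + θ) / (2 * μ)) +
        15 / 8 * (e ^ 2 - (X / (2 * μ)) ^ 2) := by
    field_simp
    ring
  have h6 : |e| ^ 3 ≤ ((u + 1) / (2 * μ)) ^ 3 := pow_le_pow_left₀ (abs_nonneg _) he1 3
  have h7 : |1 / y ^ 3 - (1 + (-(3 / 4) * θ / μ) - 3 / 4 * (X / μ) + 15 / 32 * (X / μ) ^ 2)| ≤
      12 * ((u + 1) / (2 * μ)) ^ 3 + 3 / 2 * (3 * (u + 1) / (4 * μ ^ 2)) +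
        15 / 8 * ((3 * (u + 1) / (4 * μ ^ 2) + 1 / (2 * μ)) * ((u + 1) / μ)) := by
    rw [h5]
    refine (abs_add_le _ _).trans (add_le_add ((abs_sub _ _).trans (add_le_add ?_ ?_)) ?_)
    · linarith
    · rw [abs_mul, abs_of_pos (show (0 : ℝ) < 3 / 2 by norm_num)]
      linarith
    · rw [abs_mul, abs_of_pos (show (0 : ℝ) < 15 / 8 by norm_num)]
      linarith
  refine h7.trans ?_
  have h8 : 100 * (u ^ 3 / μ ^ 3 + u / μ ^ 2 + 1 / μ ^ 2) =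
      (100 * u ^ 3 + 100 * μ * u + 100 * μ) / μ ^ 3 := by
    field_simp
  have h9 : 12 * ((u + 1) / (2 * μ)) ^ 3 + 3 / 2 * (3 * (u + 1) / (4 * μ ^ 2)) +
        15 / 8 * ((3 * (u + 1) / (4 * μ ^ 2) + 1 / (2 * μ)) * ((u + 1) / μ)) =
      (3 / 2 * (u + 1) ^ 3 + 9 / 8 * μ * (u + 1) + 45 / 32 * (u + 1) ^ 2 +
        15 / 16 * μ * (u + 1)) / μ ^ 3 := by
    field_simp
    ring
  rw [h9, ← hu, h8]
  refine div_le_div_of_nonneg_right ?_ (by positivity)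
  have h14 : 0 ≤ (u + 1) * (u - 1) ^ 2 := by positivity
  have h13 : 0 ≤ u ^ 3 := by positivity
  have h10 : (u + 1) ^ 3 ≤ 4 * u ^ 3 + 4 := by
    have : 4 * u ^ 3 + 4 - (u + 1) ^ 3 = 3 * ((u + 1) * (u - 1) ^ 2) := by ring
    linarith
  have h11 : (u + 1) ^ 2 ≤ 2 * (u ^ 3 + u) + 2 := by
    have : 2 * (u ^ 3 + u) + 2 - (u + 1) ^ 2 = (u + 1) * (u - 1) ^ 2 + u ^ 3 + u := by ring
    linarith
  have h12 : u ≤ μ * u := le_mul_of_one_le_left hu0 (by linarith)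
  have h15 : μ * (u + 1) = μ * u + μ := by ring
  have h16 : 100 * μ * u = 100 * (μ * u) := by ring
  have h17 : 9 / 8 * μ * (u + 1) = 9 / 8 * (μ * u + μ) := by ring
  have h18 : 15 / 16 * μ * (u + 1) = 15 / 16 * (μ * u + μ) := by ring
  rw [h16, h17, h18]
  linarith

theorem pow3_sandwich {y : ℝ} {q : ℝ} (hq : y ^ 2 = q) : (1 / y ^ 3) ^ 2 =
    1 / q ^ 3 := by
  rw [← hq, div_pow, one_pow]
  congr 1
  ring

/-- JOB RHO -/
theorem t_RHO : P_RHO := by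
  refine ⟨100, by norm_num, fun μ hμ => ?_⟩
  have hμ0 : 0 < μ := by linarith
  obtain ⟨m, hm⟩ : ∃ m : ℕ, m = ⌈2 * μ⌉₊ := ⟨_, rfl⟩
  have hm1 : 2 * μ ≤ m := by rw [hm]; exact Nat.le_ceil _
  have hm2 : (m : ℝ) < 2 * μ + 1 := by rw [hm]; exact Nat.ceil_lt_add_one (by linarith)
  obtain ⟨θ, hθd⟩ : ∃ θ : ℝ, θ = 2 * μ - m := ⟨_, rfl⟩
  have hθ : -1 ≤ θ := by linarith
  have hθ' : θ ≤ 0 := by linarith
  have hI0 := I_pos m
  have hq : ∀ n : ℕ, m ≤ n → (((m : ℝ) + 3 / 2) / (n + 3 / 2)) ^ 3 ≤ (I n / I m) ^ 2 ∧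
      (I n / I m) ^ 2 ≤ (((m : ℝ) + 2) / (n + 2)) ^ 3 := by
    intro n hn
    have h1 := A_mono hn
    have h2 := B_anti hn
    simp only at h1 h2
    constructor
    · rw [div_pow, div_pow, div_le_div_iff₀ (by positivity) (by positivity)]
      linarith
    · rw [div_pow, div_pow, div_le_div_iff₀ (by positivity) (by positivity)]
      linarith
  have hq' : ∀ n : ℕ, n ≤ m → (I n / I m) ^ 2 ≤ (((m : ℝ) + 3 / 2) / (n + 3 / 2)) ^ 3 ∧
      (((m : ℝ) + 2) / (n + 2)) ^ 3 ≤ (I n / I m) ^ 2 := by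
    intro n hn
    have h1 := A_mono hn
    have h2 := B_anti hn
    simp only at h1 h2
    constructor
    · rw [div_pow, div_pow, div_le_div_iff₀ (by positivity) (by positivity)]
      linarith
    · rw [div_pow, div_pow, div_le_div_iff₀ (by positivity) (by positivity)]
      linarith
  refine ⟨I m, -(3 / 4) * θ / μ, hI0, ?_, fun n => ?_, fun n hn => ⟨?_, ?_⟩⟩
  · rw [abs_div, abs_of_pos hμ0]
    refine div_le_div_of_nonneg_right ?_ hμ0.le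
    rw [abs_le]
    constructor <;> linarith
  · have h1 := (hq' 0 (Nat.zero_le m)).1
    have h2 : I n / I m ≤ I 0 / I m :=
      div_le_div_of_nonneg_right (I_anti (Nat.zero_le n)) hI0.le
    refine h2.trans ?_
    have h3 : (((m : ℝ) + 3 / 2) / ((0 : ℕ) + 3 / 2)) ^ 3 ≤ (100 * μ ^ 2) ^ 2 := by
      have h4 : ((m : ℝ) + 3 / 2) / ((0 : ℕ) + 3 / 2) ≤ 3 / 2 * μ := by
        rw [div_le_iff₀ (by positivity)]
        push_cast
        linarith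
      have h5 : 0 ≤ ((m : ℝ) + 3 / 2) / ((0 : ℕ) + 3 / 2) := by positivity
      calc _ ≤ (3 / 2 * μ) ^ 3 := pow_le_pow_left₀ h5 h4 3
        _ = 27 / 8 * μ ^ 3 := by ring
        _ ≤ 27 / 8 * (μ ^ 3 * μ) := by
            have : μ ^ 3 ≤ μ ^ 3 * μ := le_mul_of_one_le_right (by positivity) (by linarith)
            linarith
        _ ≤ 10000 * (μ ^ 3 * μ) := by
            have : 0 ≤ μ ^ 3 * μ := by positivity
            linarith
        _ = _ := by ring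
    exact (pow_le_pow_iff_left₀ (div_pos (I_pos 0) hI0).le (by positivity) two_ne_zero).1
      (h1.trans h3)
  · rcases Nat.lt_or_ge n m with h | h
    · have h1 := (hq' n h.le).1
      have h2 : (((m : ℝ) + 3 / 2) / (n + 3 / 2)) ^ 3 ≤ (9 / 2) ^ 2 := by
        have h3 : ((m : ℝ) + 3 / 2) / (n + 3 / 2) ≤ 8 / 3 := by
          rw [div_le_iff₀ (by positivity)]
          linarith
        calc _ ≤ (8 / 3 : ℝ) ^ 3 := pow_le_pow_left₀ (by positivity) h3 3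
          _ ≤ _ := by norm_num
      exact (pow_le_pow_iff_left₀ (div_pos (I_pos n) hI0).le (by positivity) two_ne_zero).1
        (h1.trans h2)
    · have h1 : I n / I m ≤ 1 := by
        rw [div_le_one hI0]
        exact I_anti h
      linarith
  · -- the two square roots
    have key : ∀ d : ℝ, 3 / 2 ≤ d → d ≤ 2 → ∃ y : ℝ, 0 < y ∧
        (1 / y ^ 3) ^ 2 = (((m : ℝ) + d) / (n + d)) ^ 3 ∧
        |1 / y ^ 3 - (1 + (-(3 / 4) * θ / μ) - 3 / 4 * (((n : ℝ) - 2 * μ) / μ) +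
          15 / 32 * (((n : ℝ) - 2 * μ) / μ) ^ 2)| ≤
        100 * (|(n : ℝ) - 2 * μ| ^ 3 / μ ^ 3 + |(n : ℝ) - 2 * μ| / μ ^ 2 + 1 / μ ^ 2) := by
      intro d hd hd'
      have hn0 : 0 < (n : ℝ) + d := by
        have : (0 : ℝ) ≤ n := Nat.cast_nonneg n
        linarith
      have hm0 : 0 < (m : ℝ) + d := by linarith
      have hyq : Real.sqrt (((n : ℝ) + d) / (m + d)) ^ 2 = ((n : ℝ) + d) / (m + d) :=
        Real.sq_sqrt (by positivity)
      have hy : 0 < Real.sqrt (((n : ℝ) + d) / (m + d)) := Real.sqrt_pos.2 (by positivity)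
      refine ⟨Real.sqrt (((n : ℝ) + d) / (m + d)), hy, ?_, ?_⟩
      · rw [pow3_sandwich hyq, div_pow, one_div_div, div_pow]
      · refine approx hμ hθ hθ' hd hd' hn hy ?_
        rw [hyq, hθd]
        congr 1
        ring
    obtain ⟨y1, hy1, hs1, hb1⟩ := key (3 / 2) le_rfl (by norm_num)
    obtain ⟨y2, hy2, hs2, hb2⟩ := key 2 (by norm_num) le_rfl
    have hr : 0 ≤ I n / I m := (div_pos (I_pos n) hI0).le
    have hp1 : 0 ≤ 1 / y1 ^ 3 := by positivity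
    have hp2 : 0 ≤ 1 / y2 ^ 3 := by positivity
    rw [abs_le] at hb1 hb2 ⊢
    rcases Nat.lt_or_ge n m with h | h
    · have h1 := (hq' n h.le).1
      have h2 := (hq' n h.le).2
      rw [← hs1] at h1
      rw [← hs2] at h2
      have h3 := (pow_le_pow_iff_left₀ hr hp1 two_ne_zero).1 h1
      have h4 := (pow_le_pow_iff_left₀ hp2 hr two_ne_zero).1 h2
      constructor <;> linarith [hb1.1, hb1.2, hb2.1, hb2.2]
    · have h1 := (hq n h).1
      have h2 := (hq n h).2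
      rw [← hs1] at h1
      rw [← hs2] at h2
      have h3 := (pow_le_pow_iff_left₀ hp1 hr two_ne_zero).1 h1
      have h4 := (pow_le_pow_iff_left₀ hr hp2 two_ne_zero).1 h2
      constructor <;> linarith [hb1.1, hb1.2, hb2.1, hb2.2]

end Pool.Agent.Q280.MK
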