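import Pool.Agent.Q291.MK.Stm

/-! # Project MK, job HYP1 (helper280): exact moments of the hypergeometric law -/

set_option autoImplicit false

namespace Pool.Agent.Q280.MK

open Pool.Agent.Q291.MK Finset

theorem gb_zero (x : ℝ) : gb x 0 = 1 := rfl

theorem gb_succ (x : ℝ) (k : ℕ) : gb x (k + 1) = gb x k * (x - k) / (k + 1) := rfl

theorem gb_pascal (y : ℝ) (k : ℕ) : gb (y + 1) (k + 1) = gb y (k + 1) + gb y k := by
  induction k with
  | zero =>
    rw [gb_succ, gb_succ, gb_zero, gb_zero]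
    push_cast
    ring
  | succ k ih =>
    have h1 : (k : ℝ) + 1 ≠ 0 := by positivity
    have h2 : (k : ℝ) + 1 + 1 ≠ 0 := by positivity
    rw [gb_succ (y + 1) (k + 1), ih, gb_succ y (k + 1), gb_succ y k]
    push_cast
    field_simp
    ring

/-- Vandermonde -/
theorem vand (y : ℝ) (L : ℕ) : ∀ k : ℕ,
    ∑ j ∈ range (k + 1), (L.choose j : ℝ) * gb y (k - j) = gb (L + y) k := by
  induction L with
  | zero =>
    intro k
    rw [Finset.sum_eq_single 0]
    · simp
    · intro j _ hj
      obtain ⟨i, rfl⟩ := Nat.exists_eq_succ_of_ne_zero hj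
      simp
    · intro h
      exact absurd (Finset.mem_range.2 (Nat.succ_pos k)) h
  | succ L ih =>
    intro k
    cases k with
    | zero => simp [gb_zero]
    | succ k =>
      have h1 := ih k
      have h2 := ih (k + 1)
      have e : ((L + 1 : ℕ) : ℝ) + y = (L + y) + 1 := by push_cast; ring
      rw [e, gb_pascal, ← h1, ← h2]
      rw [Finset.sum_range_succ' _ (k + 1), Finset.sum_range_succ' _ (k + 1)]
      simp only [Nat.choose_zero_right, Nat.add_sub_add_right]
      have h3 : ∀ j, (((L + 1).choose (j + 1) : ℕ) : ℝ) * gb y (k - j) =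
          (L.choose j : ℝ) * gb y (k - j) + (L.choose (j + 1) : ℝ) * gb y (k - j) := by
        intro j
        rw [Nat.choose_succ_succ]
        push_cast
        ring
      simp only [h3]
      rw [Finset.sum_add_distrib]
      ring

/-- absorption -/
theorem absorb (x : ℝ) (r s : ℕ) :
    ((r + s).choose r : ℝ) * gb x (r + s) = gb x r * gb (x - r) s := by
  induction s with
  | zero => simp [gb_zero]
  | succ s ih =>
    have h1 : ((s : ℝ) + 1) * ((r + (s + 1)).choose r : ℝ) = (r + s + 1) * ((r + s).choose r : ℝ) := by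
      have h2 := Nat.add_one_mul_choose_eq (r + s) s
      rw [← Nat.choose_symm_add (a := r) (b := s), show r + s + 1 = r + (s + 1) from rfl,
        ← Nat.choose_symm_add (a := r) (b := s + 1)] at h2
      have h3 : (((r + (s + 1)) * (r + s).choose r : ℕ) : ℝ) =
          (((r + (s + 1)).choose r * (s + 1) : ℕ) : ℝ) := by rw [h2]
      push_cast at h3
      linarith
    have hs : (s : ℝ) + 1 ≠ 0 := by positivity
    have hrs : (r : ℝ) + s + 1 ≠ 0 := by positivity
    rw [show r + (s + 1) = (r + s) + 1 from rfl] at h1 ⊢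
    rw [gb_succ x (r + s), gb_succ (x - r) s]
    push_cast
    have h4 : ((r + s + 1).choose r : ℝ) = (r + s + 1) * ((r + s).choose r : ℝ) / (s + 1) := by
      rw [eq_div_iff hs, ← h1]
      ring
    rw [h4]
    calc (r + s + 1) * ((r + s).choose r : ℝ) / (s + 1) * (gb x (r + s) * (x - (r + s)) / (r + s + 1))
        = (((r + s).choose r : ℝ) * gb x (r + s)) * (x - (r + s)) / (s + 1) := by
          field_simp
      _ = gb x r * gb (x - r) s * (x - (r + s)) / (s + 1) := by rw [ih]
      _ = _ := by ring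

theorem absorb' (x : ℝ) {r k : ℕ} (h : r ≤ k) :
    (k.choose r : ℝ) * gb x k = gb x r * gb (x - r) (k - r) := by
  obtain ⟨s, rfl⟩ := Nat.exists_eq_add_of_le h
  rw [Nat.add_sub_cancel_left]
  exact absorb x r s

theorem gb_pos (x : ℝ) (r : ℕ) (h : (r : ℝ) < x + 1) : 0 < gb x r := by
  induction r with
  | zero => rw [gb_zero]; exact one_pos
  | succ r ih =>
    push_cast at h
    rw [gb_succ]
    have h1 : 0 < gb x r := ih (by linarith)
    have h2 : 0 < x - r := by linarith
    positivity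

theorem den_pos (K L : ℕ) : 0 < gb ((K : ℝ) + L + 1 / 2) K := by
  apply gb_pos
  have : (0 : ℝ) ≤ L := Nat.cast_nonneg L
  linarith

theorem den_pos' (K L r : ℕ) (h : r ≤ K) : 0 < gb ((K : ℝ) + L + 1 / 2) r := by
  apply gb_pos
  have h1 : (0 : ℝ) ≤ L := Nat.cast_nonneg L
  have h2 : (r : ℝ) ≤ K := by exact_mod_cast h
  linarith

theorem hyp_nonneg (K L j : ℕ) : 0 ≤ hyp K L j := by
  unfold hyp
  split_ifs with h
  · have h1 : 0 < gb ((K : ℝ) + 1 / 2) (K - j) := by
      apply gb_pos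
      have : ((K - j : ℕ) : ℝ) ≤ K := by exact_mod_cast Nat.sub_le K j
      linarith
    have h2 := den_pos K L
    positivity
  · exact le_rfl

theorem H_eq (K L : ℕ) (φ : ℕ → ℝ) : H K L φ =
    (∑ j ∈ range (K + 1), (L.choose j : ℝ) * gb (K + 1 / 2) (K - j) * φ j) /
      gb (K + L + 1 / 2) K := by
  unfold H
  rw [Finset.sum_div]
  refine Finset.sum_congr rfl fun j hj => ?_
  unfold hyp
  rw [if_pos (Nat.lt_succ_iff.1 (Finset.mem_range.1 hj))]
  ring

theorem H_add (K L : ℕ) (φ ψ : ℕ → ℝ) : H K L (fun j => φ j + ψ j) = H K L φ + H K L ψ := by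
  unfold H
  rw [← Finset.sum_add_distrib]
  exact Finset.sum_congr rfl fun j _ => mul_add _ _ _

theorem H_smul (K L : ℕ) (c : ℝ) (φ : ℕ → ℝ) : H K L (fun j => c * φ j) = c * H K L φ := by
  unfold H
  rw [Finset.mul_sum]
  exact Finset.sum_congr rfl fun j _ => by ring

theorem H_fact (K L r : ℕ) : H K L (fun j => (j.choose r : ℝ)) =
    (K.choose r : ℝ) * (L.choose r : ℝ) / gb (K + L + 1/2) r := by
  rw [H_eq]
  rcases Nat.lt_or_ge K r with h | h
  · rw [Finset.sum_eq_zero, Nat.choose_eq_zero_of_lt h]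
    · simp
    · intro j hj
      rw [Nat.choose_eq_zero_of_lt (lt_of_le_of_lt (Nat.lt_succ_iff.1 (Finset.mem_range.1 hj)) h)]
      simp
  · rcases Nat.lt_or_ge L r with hL | hL
    · rw [Finset.sum_eq_zero, Nat.choose_eq_zero_of_lt hL]
      · simp
      · intro j hj
        rcases Nat.lt_or_ge j r with h1 | h1
        · rw [Nat.choose_eq_zero_of_lt h1]
          simp
        · rw [Nat.choose_eq_zero_of_lt (lt_of_lt_of_le hL h1)]
          simp
    · have hsum : ∑ j ∈ range (K + 1), (L.choose j : ℝ) * gb (K + 1 / 2) (K - j) * (j.choose r : ℝ) =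
          (L.choose r : ℝ) * gb ((K : ℝ) + L + 1 / 2 - r) (K - r) := by
        have h1 : K + 1 = r + (K - r + 1) := by omega
        rw [h1, Finset.sum_range_add, Finset.sum_eq_zero, zero_add]
        · have h2 : ∀ i, (L.choose (r + i) : ℝ) * gb (K + 1 / 2) (K - (r + i)) *
              ((r + i).choose r : ℝ) = (L.choose r : ℝ) *
              (((L - r).choose i : ℝ) * gb (K + 1 / 2) (K - r - i)) := by
            intro i
            have h3 : L.choose (r + i) * (r + i).choose r = L.choose r * (L - r).choose i := by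
              rcases Nat.lt_or_ge L (r + i) with h4 | h4
              · rw [Nat.choose_eq_zero_of_lt h4, Nat.choose_eq_zero_of_lt (show L - r < i by omega)]
                simp
              · rw [Nat.choose_mul (Nat.le_add_right r i), Nat.add_sub_cancel_left]
            have h5 : ((L.choose (r + i) : ℕ) : ℝ) * ((r + i).choose r : ℕ) =
                (L.choose r : ℕ) * ((L - r).choose i : ℕ) := by exact_mod_cast h3
            rw [Nat.sub_sub]
            calc _ = ((L.choose (r + i) : ℕ) : ℝ) * ((r + i).choose r : ℕ) *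
                  gb (K + 1 / 2) (K - (r + i)) := by ring
              _ = _ := by rw [h5]; ring
          rw [Finset.sum_congr rfl fun i _ => h2 i, ← Finset.mul_sum, vand]
          congr 2
          rw [Nat.cast_sub hL]
          ring
        · intro j hj
          rw [Nat.choose_eq_zero_of_lt (Finset.mem_range.1 hj)]
          simp
      rw [hsum, div_eq_div_iff (den_pos K L).ne' (den_pos' K L r h).ne']
      have h6 := absorb' ((K : ℝ) + L + 1 / 2) h
      calc _ = (L.choose r : ℝ) * (gb ((K : ℝ) + L + 1 / 2) r *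
            gb ((K : ℝ) + L + 1 / 2 - r) (K - r)) := by ring
        _ = _ := by rw [← h6]; ring

theorem H_fail (K L r : ℕ) : H K L (fun j => ((K - j).choose r : ℝ)) =
    gb (K + 1/2) r * (K.choose r : ℝ) / gb (K + L + 1/2) r := by
  rw [H_eq]
  rcases Nat.lt_or_ge K r with h | h
  · rw [Finset.sum_eq_zero, Nat.choose_eq_zero_of_lt h]
    · simp
    · intro j hj
      rw [Nat.choose_eq_zero_of_lt (lt_of_le_of_lt (Nat.sub_le K j) h)]
      simp
  · have hsum : ∑ j ∈ range (K + 1),
        (L.choose j : ℝ) * gb (K + 1 / 2) (K - j) * ((K - j).choose r : ℝ) =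
          gb (K + 1 / 2) r * gb ((K : ℝ) + L + 1 / 2 - r) (K - r) := by
      have h1 : K + 1 = (K - r + 1) + r := by omega
      rw [h1, Finset.sum_range_add]
      have h7 : ∑ x ∈ range r, (L.choose (K - r + 1 + x) : ℝ) *
          gb (K + 1 / 2) (K - (K - r + 1 + x)) * ((K - (K - r + 1 + x)).choose r : ℝ) = 0 := by
        refine Finset.sum_eq_zero fun j hj => ?_
        rw [Nat.choose_eq_zero_of_lt (show K - (K - r + 1 + j) < r by
          have := Finset.mem_range.1 hj
          omega)]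
        simp
      rw [h7, add_zero]
      have h2 : ∀ j ∈ range (K - r + 1), (L.choose j : ℝ) * gb (K + 1 / 2) (K - j) *
          ((K - j).choose r : ℝ) = gb (K + 1 / 2) r *
            ((L.choose j : ℝ) * gb ((K : ℝ) + 1 / 2 - r) (K - r - j)) := by
        intro j hj
        have h3 := Finset.mem_range.1 hj
        have h4 := absorb' ((K : ℝ) + 1 / 2) (show r ≤ K - j by omega)
        rw [show K - r - j = K - j - r by omega]
        calc _ = (L.choose j : ℝ) * (((K - j).choose r : ℝ) * gb (K + 1 / 2) (K - j)) := by ring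
          _ = _ := by rw [h4]; ring
      rw [Finset.sum_congr rfl h2, ← Finset.mul_sum, vand]
      congr 2
      ring
    rw [hsum, div_eq_div_iff (den_pos K L).ne' (den_pos' K L r h).ne']
    have h6 := absorb' ((K : ℝ) + L + 1 / 2) h
    calc _ = gb ((K : ℝ) + 1 / 2) r * (gb ((K : ℝ) + L + 1 / 2) r *
          gb ((K : ℝ) + L + 1 / 2 - r) (K - r)) := by ring
      _ = _ := by rw [← h6]; ring

theorem ch3 (n : ℕ) : (n.choose 3 : ℝ) = n * (n - 1) * (n - 2) / 6 := by
  have h1 : (n.choose 3 : ℝ) * 3 = (n.choose 2 : ℝ) * (n - 2) := by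
    rcases Nat.lt_or_ge n 2 with h | h
    · rw [Nat.choose_eq_zero_of_lt h, Nat.choose_eq_zero_of_lt (show n < 3 by omega)]
      simp
    · have h2 := Nat.choose_succ_right_eq n 2
      have h3 : ((n.choose (2 + 1) * (2 + 1) : ℕ) : ℝ) = ((n.choose 2 * (n - 2) : ℕ) : ℝ) := by
        rw [h2]
      rw [Nat.cast_mul, Nat.cast_mul, Nat.cast_sub h] at h3
      push_cast at h3
      linarith
  rw [Nat.cast_choose_two] at h1
  linarith

theorem half_ne (n : ℕ) (k : ℕ) (h : Odd k) : (n : ℝ) - k / 2 ≠ 0 := by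
  intro h1
  have h2 : ((2 * n : ℕ) : ℝ) = (k : ℕ) := by push_cast; linarith
  have h3 : 2 * n = k := by exact_mod_cast h2
  rw [← h3] at h
  exact (Nat.not_odd_iff_even.2 (even_two_mul n)) h

theorem alg2 {k l : ℝ} (h0 : k + l + 1 / 2 ≠ 0) (h1 : k + l - 1 / 2 ≠ 0) :
    2 * (k * (k - 1) / 2 * (l * (l - 1) / 2) / ((k + l + 1 / 2) * (k + l + 1 / 2 - 1) / 2)) +
      (1 - 2 * (k * l / (k + l + 1 / 2))) * (k * l / (k + l + 1 / 2)) +
      (k * l / (k + l + 1 / 2)) ^ 2 * 1 =
    k * l / (k + l + 1 / 2) * (k * l / (k + l + 1 / 2) + 1 / 2) / (k + l - 1 / 2) := by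
  obtain ⟨s, hs⟩ : ∃ s : ℝ, s = k + l - 1 / 2 := ⟨_, rfl⟩
  rw [show k + l + 1 / 2 - 1 = s by rw [hs]; ring, show k + l + 1 / 2 = s + 1 by rw [hs]; ring,
    ← hs]
  rw [show k + l + 1 / 2 = s + 1 by rw [hs]; ring] at h0
  rw [← hs] at h1
  have hk : k = s - l + 1 / 2 := by rw [hs]; ring
  rw [hk]
  field_simp
  ring

theorem alg3 {k l : ℝ} (h0 : k + l + 1 / 2 ≠ 0) (h1 : k + l - 1 / 2 ≠ 0) (h2 : k + l - 3 / 2 ≠ 0) :
    6 * (k * (k - 1) * (k - 2) / 6 * (l * (l - 1) * (l - 2) / 6) /
        ((k + l + 1 / 2) * (k + l + 1 / 2 - 1) / 2 * (k + l + 1 / 2 - 2) / 3)) +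
      (6 - 6 * (k * l / (k + l + 1 / 2))) *
        (k * (k - 1) / 2 * (l * (l - 1) / 2) / ((k + l + 1 / 2) * (k + l + 1 / 2 - 1) / 2)) +
      (1 - 3 * (k * l / (k + l + 1 / 2)) + 3 * (k * l / (k + l + 1 / 2)) ^ 2) *
        (k * l / (k + l + 1 / 2)) +
      -(k * l / (k + l + 1 / 2)) ^ 3 * 1 =
    k * l / (k + l + 1 / 2) * (k * l / (k + l + 1 / 2) + 1 / 2) / (k + l - 1 / 2) *
      (1 / 4 - (k - l) ^ 2) / ((k + l + 1 / 2) * (k + l - 3 / 2)) := by
  obtain ⟨s, hs⟩ : ∃ s : ℝ, s = k + l - 1 / 2 := ⟨_, rfl⟩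
  rw [show k + l + 1 / 2 - 1 = s by rw [hs]; ring,
    show k + l + 1 / 2 - 2 = s - 1 by rw [hs]; ring, show k + l - 3 / 2 = s - 1 by rw [hs]; ring,
    show k + l + 1 / 2 = s + 1 by rw [hs]; ring, ← hs]
  rw [show k + l + 1 / 2 = s + 1 by rw [hs]; ring] at h0
  rw [show k + l - 3 / 2 = s - 1 by rw [hs]; ring] at h2
  rw [← hs] at h1
  have hk : k = s - l + 1 / 2 := by rw [hs]; ring
  rw [hk]
  field_simp
  ring

/-- JOB HYP1 -/
theorem t_HYP1 : P_HYP1 := by
  intro K L
  have h1 : H K L (fun _ => 1) = 1 := by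
    have h := H_fact K L 0
    simpa [gb_zero] using h
  have e1 : H K L (fun j => (j : ℝ)) = K * L / (K + L + 1 / 2) := by
    have h := H_fact K L 1
    rw [gb_succ, gb_zero] at h
    simpa using h
  have e2 : H K L (fun j => (j.choose 2 : ℝ)) =
      (K * (K - 1) / 2) * (L * (L - 1) / 2) / ((K + L + 1 / 2) * (K + L + 1 / 2 - 1) / 2) := by
    have h := H_fact K L 2
    rw [gb_succ, gb_succ, gb_zero, Nat.cast_choose_two, Nat.cast_choose_two] at h
    rw [h]
    norm_num
  have e3 : H K L (fun j => (j.choose 3 : ℝ)) =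
      (K * (K - 1) * (K - 2) / 6) * (L * (L - 1) * (L - 2) / 6) /
        ((K + L + 1 / 2) * (K + L + 1 / 2 - 1) / 2 * (K + L + 1 / 2 - 2) / 3) := by
    have h := H_fact K L 3
    rw [gb_succ, gb_succ, gb_succ, gb_zero, ch3, ch3] at h
    rw [h]
    norm_num
  have hx0 : (K : ℝ) + L + 1 / 2 ≠ 0 := by positivity
  have hx1 : (K : ℝ) + L - 1 / 2 ≠ 0 := by
    have := half_ne (K + L) 1 (by decide)
    push_cast at this
    exact this
  have hx2 : (K : ℝ) + L - 3 / 2 ≠ 0 := by
    have := half_ne (K + L) 3 (by decide)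
    push_cast at this
    exact this
  refine ⟨hyp_nonneg K L, fun j hj => ?_, fun j hj => ?_, h1, H_fact K L, H_fail K L, ?_, ?_, ?_⟩
  · unfold hyp
    rw [if_neg (by omega)]
  · unfold hyp
    rw [Nat.choose_eq_zero_of_lt hj]
    simp
  · rw [e1]
    rfl
  · have h2 : (fun j : ℕ => ((j : ℝ) - hm K L) ^ 2) = fun j : ℕ =>
        (2 * (j.choose 2 : ℝ) + (1 - 2 * hm K L) * (j : ℝ)) + hm K L ^ 2 * 1 := by
      funext j
      rw [Nat.cast_choose_two]
      ring
    rw [h2, H_add, H_add, H_smul, H_smul, H_smul, h1, e1, e2]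
    unfold hv hm
    exact alg2 hx0 hx1
  · have h2 : (fun j : ℕ => ((j : ℝ) - hm K L) ^ 3) = fun j : ℕ =>
        ((6 * (j.choose 3 : ℝ) + (6 - 6 * hm K L) * (j.choose 2 : ℝ)) +
          (1 - 3 * hm K L + 3 * hm K L ^ 2) * (j : ℝ)) + (- hm K L ^ 3) * 1 := by
      funext j
      rw [ch3, Nat.cast_choose_two]
      ring
    rw [h2, H_add, H_add, H_add, H_smul, H_smul, H_smul, H_smul, h1, e1, e2, e3]
    unfold h3 hv hm
    exact alg3 hx0 hx1 hx2

end Pool.Agent.Q280.MK
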