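import Pool.Agent.Q280.MK.SgK

/-!
# Linear response of `T`
-/

namespace Pool.Agent.Q280.MK

open Finset Pool.Agent.Q291.MK

theorem t_NT (hADJ : P_ADJ) (hNTN : P_NTN) (hNTF : P_NTF) (hNTB : P_NTB) (hNTM : P_NTM)
    (hNTV : P_NTV) : P_NT := by
  intro C3 C8 C12 h3 h8 h12
  obtain ⟨e1, he1, H1⟩ := hNTN C3 C8 C12 h3 h8 h12
  obtain ⟨e2, he2, H2⟩ := hNTF C3 C8 C12 h3 h8 h12
  obtain ⟨e3, he3, H3⟩ := hNTB C3 C8 C12 h3 h8 h12
  refine ⟨min e1 (min e2 e3), lt_min he1 (lt_min he2 he3), fun e he hle => ?_⟩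
  have hle1 : e ≤ e1 := hle.trans (min_le_left _ _)
  have hle2 : e ≤ e2 := hle.trans ((min_le_right _ _).trans (min_le_left _ _))
  have hle3 : e ≤ e3 := hle.trans ((min_le_right _ _).trans (min_le_right _ _))
  obtain ⟨M1, hM1, H1⟩ := H1 e he hle1
  obtain ⟨M2, hM2, H2⟩ := H2 e he hle2
  obtain ⟨D3, M3, hD3, hM3, H3⟩ := H3 e he hle3
  obtain ⟨D4, M4, hD4, hM4, H4⟩ := hNTM C3 C8 C12 e h3 h8 h12 he
  obtain ⟨D5, M5, hD5, hM5, H5⟩ := hNTV C3 C8 C12 e h3 h8 h12 he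
  refine ⟨D3 + D4 + D5, M1 + M2 + M3 + M4 + M5, by positivity, by linarith, ?_⟩
  intro a hR h c ρ hN
  have hR' : ∀ M : ℝ, M ≤ M1 + M2 + M3 + M4 + M5 → Rg C3 C8 C12 M a := fun M hM =>
    ⟨hR.cl, hR.clT, hM.trans hR.big, hR.near⟩
  have G1 := H1 a (hR' M1 (by linarith))
  have G2 := H2 a (hR' M2 (by linarith))
  have G3 := H3 a (hR' M3 (by linarith))
  have G4 := H4 a (hR' M4 (by linarith))
  have G5 := H5 a (hR' M5 (by linarith))
  have hμ : 0 < mean a := by have := hR.big; linarith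
  have hμT : 0 < mean (T a) := by
    have h1 := hR.near
    have h2 := hR.big
    rw [abs_le] at h1
    linarith
  set μ := mean a with hμdef
  have hsq : 0 < √μ := Real.sqrt_pos.mpr hμ
  have hA : AM a := hR.cl.toCls.toAM
  have hAT : AM (T a) := hR.clT.toCls.toAM
  have hSg := hN.sg
  obtain ⟨hSgT, -, hadj⟩ := hADJ a h hA hSg
  have hid := hadj _ PB.id
  have hφ2 := hadj _ (pbSq (mean (T a)))
  -- `ρ` is nonnegative
  have hρ : 0 ≤ ρ := by
    have h1 := nrScale (A := 1) hN (PB.const 0) one_pos (fun J => by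
      have := wt_nn (e := 64 * e) (m := μ) (by positivity) hμ J
      have h0 : dl (dl (fun _ => (0:ℝ))) J = 0 := by unfold dl; ring
      rw [h0, abs_zero]; linarith)
    have h2 := abs_nonneg (E h (fun _ => (0:ℝ)) - c * E a (dl (fun _ => (0:ℝ))))
    linarith
  have hwt : ∀ L : ℕ, wt e μ L ≤ wt (64 * e) μ L := fun L => wt_mono (by linarith) hμ L
  -- the square
  have hEdl : E a (dl (fun k => ((k:ℝ) - μ) ^ 2)) = 1 := by
    have h1 : dl (fun k => ((k:ℝ) - μ) ^ 2) = fun k : ℕ => (2 * (k:ℝ)) - (2 * μ - 1) :=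
      funext fun k => by rw [dl_sq]; ring
    rw [h1, hA.E_sub (pbCM 2 PB.id) (PB.const _), E_const_mul, hA.toLaw.E_const]
    show 2 * mean a - _ = 1
    rw [← hμdef]; ring
  have hdvdef : dv a h = E h (fun k => ((k:ℝ) - μ) ^ 2) := rfl
  refine ⟨E (dT a h) (fun k => (k:ℝ)), ⟨hSgT, rfl, ?_⟩, ?_, ?_⟩
  · -- general test functions
    intro φ hφ
    set t := E (T a) (dl φ) with ht
    have hψ : Tst e (mean (T a)) (fun k => φ k - t * (k:ℝ)) := by
      refine ⟨hφ.pb.sub (pbCM t PB.id), fun J => ?_⟩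
      rw [dldl_sub, dldl_cmul, dldl_id, mul_zero, sub_zero]
      exact hφ.bd J
    have hψ0 : E (T a) (dl (fun k => φ k - t * (k:ℝ))) = 0 := by
      have h1 : dl (fun k => φ k - t * (k:ℝ)) = fun k => dl φ k - t := funext fun k => by
        rw [dl_sub, dl_cmul, dl_id, mul_one]
      rw [h1, hAT.E_sub (pbDl hφ.pb) (PB.const t), hAT.toLaw.E_const, ht, sub_self]
    have hEψ : E (dT a h) (fun k => φ k - t * (k:ℝ)) =
        E (dT a h) φ - E (dT a h) (fun k => (k:ℝ)) * t := by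
      rw [sgSub hSgT hφ.pb (pbCM t PB.id), E_const_mul]; ring
    rw [← hEψ]
    obtain ⟨hTT, -, hadj1, -⟩ := hadj _ hψ.pb
    rw [hadj1]
    have hbd : ∀ L, |dl (dl (TT a (fun k => φ k - t * (k:ℝ)))) L| ≤
        101 / 800 * wt (64 * e) μ L := by
      intro L
      rcases le_or_gt (|(L:ℝ) - μ|) (μ / 10000) with hL | hL
      · exact G1 _ hψ hψ0 L hL
      · exact G2 _ hψ hψ0 L hL
    have h1 := nrScale hN hTT (by norm_num) hbd
    have h2 := G3 _ hψ hψ0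
    have h3 : |c * E a (dl (TT a (fun k => φ k - t * (k:ℝ))))| ≤ |c| * D3 := by
      rw [abs_mul]
      exact mul_le_mul_of_nonneg_left h2 (abs_nonneg _)
    have h4 : 0 ≤ (D4 + D5) * |c| := by positivity
    have h5 := abs_add_le (E h (TT a (fun k => φ k - t * (k:ℝ))) -
      c * E a (dl (TT a (fun k => φ k - t * (k:ℝ)))))
      (c * E a (dl (TT a (fun k => φ k - t * (k:ℝ)))))
    rw [sub_add_cancel] at h5
    nlinarith
  · -- the mean
    obtain ⟨hTT, -, hadj1, -⟩ := hid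
    rw [hadj1]
    set ψ : ℕ → ℝ := TT a (fun k => (k:ℝ)) with hψ
    have hPB : PB (fun k => ψ k + (5 / 8 / μ) * ((k:ℝ) - μ) ^ 2) := hTT.add (pbCM _ (pbSq μ))
    have hbd : ∀ L, |dl (dl (fun k => ψ k + (5 / 8 / μ) * ((k:ℝ) - μ) ^ 2)) L| ≤
        D4 / (μ * √μ) * wt (64 * e) μ L := by
      intro L
      rw [dldl_add, dldl_cmul, dldl_sq]
      have h1 := G4.1 L
      have h2 : 5 / 8 / μ * 2 = 5 / 4 / μ := by ring
      rw [h2]
      refine h1.trans ?_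
      gcongr
      exact hwt L
    have h1 := nrScale hN hPB (by positivity) hbd
    have h2 : dl (fun k => ψ k + (5 / 8 / μ) * ((k:ℝ) - μ) ^ 2) =
        fun k => dl ψ k + (5 / 8 / μ) * dl (fun k => ((k:ℝ) - μ) ^ 2) k := funext fun k => by
      rw [dl_add, dl_cmul]
    rw [h2, sgAdd hSg hTT (pbCM _ (pbSq μ)), E_const_mul, hA.E_add (pbDl hTT)
      (pbCM _ (pbDl (pbSq μ))), E_const_mul, hEdl, ← hdvdef] at h1
    have h4 := G4.2
    have h5 : |c * (E a (dl ψ) - (1 / 2 - 5 / 8 * (1 - vr a / μ) / μ))| ≤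
        |c| * (D4 / (μ * √μ)) := by
      rw [abs_mul]
      exact mul_le_mul_of_nonneg_left h4 (abs_nonneg _)
    have h6 := abs_add_le (E h ψ + 5 / 8 / μ * dv a h - c * (E a (dl ψ) + 5 / 8 / μ * 1))
      (c * (E a (dl ψ) - (1 / 2 - 5 / 8 * (1 - vr a / μ) / μ)))
    have h7 : E h ψ + 5 / 8 / μ * dv a h - c * (E a (dl ψ) + 5 / 8 / μ * 1) +
        c * (E a (dl ψ) - (1 / 2 - 5 / 8 * (1 - vr a / μ) / μ)) =
        E h ψ - (c / 2 - 5 / 8 * ((dv a h - vr a / μ * c) / μ)) := by ring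
    rw [h7] at h6
    have h8 : D4 / (μ * √μ) * (|c| + ρ) ≤ (D3 + D4 + D5) / (μ * √μ) * (|c| + ρ) := by
      have : 0 ≤ |c| + ρ := by positivity
      gcongr
      linarith
    calc _ ≤ ρ * (D4 / (μ * √μ)) + |c| * (D4 / (μ * √μ)) := by linarith
      _ = D4 / (μ * √μ) * (|c| + ρ) := by ring
      _ ≤ _ := h8
      _ = _ := by ring
  · -- the variance
    obtain ⟨hTT, -, hadj1, -⟩ := hφ2
    show |E (dT a h) (fun k => ((k:ℝ) - mean (T a)) ^ 2) - _| ≤ _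
    rw [hadj1]
    set ψ : ℕ → ℝ := TT a (fun k => ((k:ℝ) - mean (T a)) ^ 2) with hψ
    have hPB : PB (fun k => ψ k - (1 / 8) * ((k:ℝ) - μ) ^ 2) := hTT.sub (pbCM _ (pbSq μ))
    have hbd : ∀ L, |dl (dl (fun k => ψ k - (1 / 8) * ((k:ℝ) - μ) ^ 2)) L| ≤
        D5 / √μ * wt (64 * e) μ L := by
      intro L
      rw [dldl_sub, dldl_cmul, dldl_sq]
      have h1 := G5.1 L
      have h2 : (1:ℝ) / 8 * 2 = 1 / 4 := by norm_num
      rw [h2]
      refine h1.trans ?_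
      gcongr
      exact hwt L
    have h1 := nrScale hN hPB (by positivity) hbd
    have h2 : dl (fun k => ψ k - (1 / 8) * ((k:ℝ) - μ) ^ 2) =
        fun k => dl ψ k - (1 / 8) * dl (fun k => ((k:ℝ) - μ) ^ 2) k := funext fun k => by
      rw [dl_sub, dl_cmul]
    rw [h2, sgSub hSg hTT (pbCM _ (pbSq μ)), E_const_mul, hA.E_sub (pbDl hTT)
      (pbCM _ (pbDl (pbSq μ))), E_const_mul, hEdl, ← hdvdef] at h1
    have h4 := G5.2
    have h5 : |c * (E a (dl ψ) - 1 / 4)| ≤ |c| * (D5 / √μ) := by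
      rw [abs_mul]
      exact mul_le_mul_of_nonneg_left h4 (abs_nonneg _)
    have h6 := abs_add_le (E h ψ - 1 / 8 * dv a h - c * (E a (dl ψ) - 1 / 8 * 1))
      (c * (E a (dl ψ) - 1 / 4))
    have h7 : E h ψ - 1 / 8 * dv a h - c * (E a (dl ψ) - 1 / 8 * 1) +
        c * (E a (dl ψ) - 1 / 4) = E h ψ - (dv a h / 8 + c / 8) := by ring
    rw [h7] at h6
    have h8 : D5 / √μ * (|c| + ρ) ≤ (D3 + D4 + D5) / √μ * (|c| + ρ) := by
      have : 0 ≤ |c| + ρ := by positivity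
      gcongr
      linarith
    calc _ ≤ ρ * (D5 / √μ) + |c| * (D5 / √μ) := by linarith
      _ = D5 / √μ * (|c| + ρ) := by ring
      _ ≤ _ := h8
      _ = _ := by ring

end Pool.Agent.Q280.MK
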