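import Pool.Agent.Q280.MK.PW

/-!
# Response of `T`: the observable `k`
-/

namespace Pool.Agent.Q280.MK

open Finset Pool.Agent.Q291.MK
open Pool.Agent.Q284.MK (hm_upper hm_lower pbK pbL vr_nonneg pb_hm gg iv gg_nonneg gg_le pb_gg
  pb_iv XX pb_XX four_hm iv_nonneg ew_XXiv vr_T)
open Pool.Agent.Q61.MK (X U PB2_U U_nonneg X_le_U Y_le_U)

/-! ### The functions -/

noncomputable def fa (m' : ℝ) (K L : ℕ) : ℝ := kk K L - 3/2 * ((hm K L - m') * jv K L)

noncomputable def fb (m' : ℝ) (K L : ℕ) : ℝ :=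
  -5 * (kk K L / ((K:ℝ) + L + 4)) + 15/4 * ((hm K L - m') / (((K:ℝ) + L + 3) * ((K:ℝ) + L + 4)))

lemma H_one (K L : ℕ) : H K L (fun _ => 1) = 1 := (bHYP1 K L).2.2.2.1

lemma H_zero (K L : ℕ) : H K L (fun _ => 0) = 0 := by
  unfold H; simp

lemma H_id (K L : ℕ) : H K L (fun k => (k:ℝ)) = hm K L := (bHYP1 K L).2.2.2.2.2.2.1

lemma dl_id' : dl (fun k => (k:ℝ)) = fun _ => 1 := funext dl_id
lemma dl_one : dl (fun _ => (1:ℝ)) = fun _ => 0 := by funext k; unfold dl; ring

lemma dgt_id (hD : P_DIF) (t : ℝ) (K L : ℕ) :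
    dl (fun L => gt (fun k => (k:ℝ)) t K L) L = I (K + L) * fa t K L := by
  have h := ((hD K L (fun k => (k:ℝ))).2.2 t).1
  have e : (fun L => gt (fun k => (k:ℝ)) t K L) =
    fun L => I (K + L) * (H K L (fun k => (k:ℝ)) - t) := rfl
  rw [e, h, dl_id', H_one, H_id, I1]
  unfold fa
  rw [← kap_kk]
  unfold jv
  ring

lemma ddgt_id (hD : P_DIF) (t : ℝ) (K L : ℕ) :
    dl (dl (fun L => gt (fun k => (k:ℝ)) t K L)) L = I (K + L) * fb t K L := by
  have h := ((hD K L (fun k => (k:ℝ))).2.2 t).2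
  have e : (fun L => gt (fun k => (k:ℝ)) t K L) =
    fun L => I (K + L) * (H K L (fun k => (k:ℝ)) - t) := rfl
  rw [e, h, dl_id', dl_one, H_one, H_zero, H_id, I2, I1]
  unfold fb
  rw [← kap_kk]
  have h3 : ((K:ℝ) + L + 3) ≠ 0 := by positivity
  have h4 : ((K:ℝ) + L + 4) ≠ 0 := by positivity
  have h5 : ((K:ℝ) + L + 5/2) ≠ 0 := by positivity
  field_simp
  ring

lemma pb_n4 : PB2 (fun K L => 1 / ((K:ℝ) + L + 4)) := PB2.bdd 1 fun K L => by
  have hK : (0:ℝ) ≤ K := Nat.cast_nonneg K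
  have hL : (0:ℝ) ≤ L := Nat.cast_nonneg L
  rw [abs_of_pos (by positivity), div_le_one (by positivity)]
  linarith

lemma pb_fa (m' : ℝ) : PB2 (fa m') :=
  pb_kk.sub ((PB2.const (3/2)).mul ((pb_hm.sub (PB2.const m')).mul pb_jv))

lemma pb_fb (m' : ℝ) : PB2 (fb m') := by
  have h := ((PB2.const (-5)).mul (pb_kk.mul pb_n4)).add ((PB2.const (15/4)).mul
    ((pb_hm.sub (PB2.const m')).mul (pb_jv.mul pb_n4)))
  have e : (fun K L : ℕ => (-5:ℝ) * (kk K L * (1 / ((K:ℝ) + L + 4))) +
      15/4 * ((hm K L - m') * (jv K L * (1 / ((K:ℝ) + L + 4))))) = fb m' := by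
    funext K L
    unfold fb jv
    have h3 : ((K:ℝ) + L + 3) ≠ 0 := by positivity
    have h4 : ((K:ℝ) + L + 4) ≠ 0 := by positivity
    field_simp
  rw [e] at h; exact h

/-- the pointwise estimate for the second difference -/
lemma fb_near {μ m' : ℝ} {K L : ℕ} (hμ : 10 ≤ μ) (hm' : |m' - μ / 2| ≤ 1)
    (h : 3 / 4 * μ ≤ (K:ℝ) + L) :
    |μ * fb m' K L - (-5/8)| ≤ 40 * (uu μ K L / μ + uu μ K L ^ 2 / μ ^ 2) := by
  have hK : (0:ℝ) ≤ K := Nat.cast_nonneg K
  have hL : (0:ℝ) ≤ L := Nat.cast_nonneg L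
  have hμ0 : 0 < μ := by linarith
  have hu := uu_one μ K L
  have h1 := n4_near hμ h
  have h2 := kk_near hμ h
  have h3 := w_le (K := K) (L := L) hm'
  have hk0 := kk_nonneg K L
  have hk1 := kk_le K L
  set s := uu μ K L / μ with hs
  set p := μ / ((K:ℝ) + L + 4) with hp
  set w := hm K L - m' with hw
  have e : μ * fb m' K L - (-5/8) = -5 * (kk K L * (p - 1/2)) + (-5/2) * (kk K L - 1/4) +
      15/4 * (w * p * jv K L) := by
    unfold fb jv
    rw [hp, ← hw]
    field_simp
    ring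
  have hs0 : 0 ≤ s := by positivity
  have t1 : |kk K L * (p - 1/2)| ≤ 3 * s := by
    rw [abs_mul, abs_of_nonneg hk0]
    calc kk K L * |p - 1/2| ≤ 1 * (3 * s) := mul_le_mul hk1 h1 (abs_nonneg _) (by norm_num)
      _ = 3 * s := by ring
  have hp0 : 0 < p := by positivity
  have hp1 : p ≤ 4/3 := by
    rw [hp, div_le_iff₀ (by positivity)]; linarith
  have hj : jv K L ≤ 4/3 / μ := by
    unfold jv
    rw [div_le_div_iff₀ (by positivity) hμ0]; linarith
  have hj0 := (jv_pos K L).le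
  have t2 : |w * p * jv K L| ≤ 4 * s := by
    rw [abs_mul, abs_mul, abs_of_pos hp0, abs_of_pos (jv_pos K L)]
    calc |w| * p * jv K L ≤ (2 * uu μ K L) * (4/3) * (4/3 / μ) := by
          gcongr
      _ = 32/9 * s := by rw [hs]; ring
      _ ≤ 4 * s := by linarith
  rw [e]
  have q : 0 ≤ uu μ K L ^ 2 / μ ^ 2 := by positivity
  refine (abs_add_le _ _).trans ?_
  have a1 := abs_add_le (-5 * (kk K L * (p - 1/2))) ((-5/2) * (kk K L - 1/4))
  have a2 : |-5 * (kk K L * (p - 1/2))| ≤ 15 * s := by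
    rw [abs_mul]
    have : |(-5 : ℝ)| = 5 := by norm_num
    rw [this]; linarith
  have a3 : |(-5/2) * (kk K L - 1/4)| ≤ 5 * s := by
    rw [abs_mul]
    have : |(-5/2 : ℝ)| = 5/2 := by norm_num
    rw [this]; linarith
  have a4 : |15/4 * (w * p * jv K L)| ≤ 15 * s := by
    rw [abs_mul]
    have : |(15/4 : ℝ)| = 15/4 := by norm_num
    rw [this]; linarith
  linarith

lemma fb_bad {μ m' : ℝ} {K L : ℕ} (hμ : 10 ≤ μ) (hm' : |m' - μ / 2| ≤ 1)
    (h : (K:ℝ) + L < 3 / 4 * μ) : |μ * fb m' K L| ≤ 40 * μ ^ 2 := by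
  have hK : (0:ℝ) ≤ K := Nat.cast_nonneg K
  have hL : (0:ℝ) ≤ L := Nat.cast_nonneg L
  have hμ0 : 0 < μ := by linarith
  have hu := bad_uu hμ h
  have h3 := w_le (K := K) (L := L) hm'
  have hk0 := kk_nonneg K L
  have hk1 := kk_le K L
  have t1 : |kk K L / ((K:ℝ) + L + 4)| ≤ 1 := by
    rw [abs_of_nonneg (by positivity), div_le_one (by positivity)]
    linarith
  have t2 : |(hm K L - m') / (((K:ℝ) + L + 3) * ((K:ℝ) + L + 4))| ≤ 6 * μ := by
    rw [abs_div, abs_of_pos (show 0 < ((K:ℝ) + L + 3) * ((K:ℝ) + L + 4) by positivity),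
      div_le_iff₀ (by positivity)]
    have : (1:ℝ) ≤ ((K:ℝ) + L + 3) * ((K:ℝ) + L + 4) := by nlinarith [mul_nonneg hK hL]
    nlinarith
  have t3 : |fb m' K L| ≤ 30 * μ := by
    unfold fb
    refine (abs_add_le _ _).trans ?_
    rw [abs_mul, abs_mul]
    have e1 : |(-5 : ℝ)| = 5 := by norm_num
    have e2 : |(15/4 : ℝ)| = 15/4 := by norm_num
    rw [e1, e2]
    linarith
  rw [abs_mul, abs_of_pos hμ0]
  nlinarith

/-! ### Expectation of the first difference -/

lemma EdlTT {a : ℕ → ℝ} (hA : AM a) {φ : ℕ → ℝ} (h : PB2 (fun K L => H K L φ))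
    (f : ℕ → ℕ → ℝ) (hf : PB2 f)
    (hG : ∀ K L, dl (fun L => gt φ (E (T a) φ) K L) L = I (K + L) * f K L) :
    E a (dl (TT a φ)) = 2 * Ew a f := by
  have h1 : dl (TT a φ) = fun L => (2 / E2 a (fun K L => I (K + L))) *
      E a (fun K => I (K + L) * f K L) := by
    funext L
    rw [dl_TT hA h _ hG L]
    ring
  rw [h1, E_const_mul, E_iter hA (PB2.I.mul hf)]
  unfold Ew
  ring

lemma Ew_kk {a : ℕ → ℝ} (hA : AM a) : Ew a kk = Ew a ks := by
  have h1 : Ew a (fun K L => kk K L + kk L K) = Ew a (fun K L => 2 * ks K L) := by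
    congr 1; funext K L; exact kk_sym K L
  rw [hA.Ew_add pb_kk (pb2_swap pb_kk), Ew_const_mul, Ew_swap kk] at h1
  have h2 : Ew a (fun K L => kk K L) = Ew a kk := rfl
  rw [h2] at h1
  linarith

theorem t_NTM (hDIF : P_DIF) : P_NTM := by
  intro C3 C8 C12 e hC3 hC8 hC12 he
  obtain ⟨D1, M1, hD1, hM1, H1⟩ := genA C3 C8 40 e hC8 (by norm_num) he
  obtain ⟨D, hD, H2⟩ := momT C8 hC8
  obtain ⟨D8, hD8, H3⟩ := bEXP C8 hC8
  obtain ⟨D', M', hD', hM', H3⟩ := H3 C3 hC3
  set DD := D' + 5 * (2 + D') + (1 + 2 * D8) / 4 + D' with hDD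
  set D2 := 2 * (2 * D + D + 3 * D + (4 * D + D') + 2 * (DD + 11 * D)) with hD2
  have hDD0 : 0 < DD := by positivity
  have hD20 : 0 < D2 := by positivity
  refine ⟨D1 + D2, M1 + M' + D, by positivity, by linarith, ?_⟩
  intro a hR
  have hbig := hR.big
  have hcls : Cls C3 C8 a := hR.cl.toCls
  have ham : AM a := hcls.toAM
  have G1 := H1 a hcls (by linarith)
  obtain ⟨hEu, -, -, hEb⟩ := H2 C3 a hcls (by linarith) (by linarith)
  obtain ⟨x1, x2, -, -, x5, -, -, x8, -, x10, -, -⟩ := H3 a hcls (by linarith)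
  have hm' := hR.near
  obtain ⟨hT1, -, -⟩ := vr_T bHYP1 bTLAW ham
  obtain ⟨hpH, hEH⟩ := (bTLAW a ham).2 (fun k => (k:ℝ)) PB.id
  have hpH' : PB2 (fun K L => H K L (fun k => (k:ℝ))) := hpH
  have hV0 := vr_nonneg ham
  have hVle := hcls.vr_le
  set μ := mean a with hμ
  set m' := mean (T a) with hm'def
  have hEid : E (T a) (fun k => (k:ℝ)) = m' := rfl
  have hμ10 : 10 ≤ μ := by linarith
  have hμ0 : 0 < μ := by linarith
  have hr1 : 1 ≤ √μ := by
    rw [Real.one_le_sqrt]
    linarith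
  have hrr : √μ ^ 2 = μ := Real.sq_sqrt hμ0.le
  constructor
  · -- second differences
    intro L
    have h1 := G1 (fun K L => μ * fb m' K L) (-5/8) ((PB2.const μ).mul (pb_fb m'))
      (by norm_num [abs_of_neg]) (fun K L h => fb_near hμ10 hm' h)
      (fun K L h => fb_bad hμ10 hm' h) L
    have h2 := dldl_TT ham hpH' (fun K L => I (K + L) * fb m' K L)
      (fun K L => by rw [hEid]; exact ddgt_id hDIF m' K L) L
    rw [h2]
    have h3 : E a (fun K => I (K + L) * (μ * fb m' K L)) =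
        μ * E a (fun K => I (K + L) * fb m' K L) := by
      rw [← E_const_mul]
      congr 1; funext K; ring
    rw [h3] at h1
    have hZ := ham.Z_pos
    set Z := E2 a (fun K L => I (K + L))
    set N := E a (fun K => I (K + L) * fb m' K L)
    have h4 : 2 * (μ * N) / Z - 2 * (-5/8) = μ * (2 * N / Z + 5/4/μ) := by
      field_simp; ring
    rw [h4, abs_mul, abs_of_pos hμ0] at h1
    have hwt := wt_nn he.le hμ0 L
    have h5 : (D1 + D2) / (μ * √μ) * wt e μ L = (D1 + D2) / √μ * wt e μ L / μ := by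
      field_simp
    rw [h5, le_div_iff₀ hμ0]
    have h6 : D1 / √μ * wt e μ L ≤ (D1 + D2) / √μ * wt e μ L := by
      gcongr; linarith
    linarith
  · -- first difference
    have hE : E a (dl (TT a (fun k => (k:ℝ)))) = 2 * Ew a (fa m') :=
      EdlTT ham hpH' (fa m') (pb_fa m') (fun K L => by rw [hEid]; exact dgt_id hDIF m' K L)
    rw [hE]
    have hw0 : Ew a (fun K L => hm K L - m') = 0 := by
      rw [ham.Ew_sub pb_hm (PB2.const m'), ham.Ew_const, hT1]
      exact sub_self _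
    set r := √μ with hr
    have hr0 : 0 < r := by linarith
    have hr3 : r ^ 3 = μ * r := by
      calc r ^ 3 = r ^ 2 * r := by ring
        _ = _ := by rw [hrr]
    have hrμ : r ≤ μ := by rw [← hrr]; nlinarith
    have hμr : μ * r ≤ μ ^ 2 := by nlinarith
    have hμr0 : 0 < μ * r := by positivity
    -- scale comparisons
    have sc1 : ∀ c : ℝ, 0 ≤ c → c / μ ^ 2 ≤ c / (μ * r) := fun c hc =>
      div_le_div_of_nonneg_left hc hμr0 hμr
    have sc2 : ∀ c : ℝ, 0 ≤ c → c / μ ^ 3 ≤ c / (μ * r) := fun c hc => by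
      apply div_le_div_of_nonneg_left hc hμr0
      have : μ ^ 3 = μ * μ ^ 2 := by ring
      rw [this]; nlinarith [sq_nonneg μ]
    have hu1 := hEu 1 (by norm_num)
    have hu3 := hEu 3 (by norm_num)
    rw [pow_one] at hu1
    rw [hr3] at hu3
    -- e1
    have e1 : |Ew a jv - 1 / (2 * μ)| ≤ 3 * D / (μ * r) := by
      have p1 : PB2 (fun K L => jv K L - 1 / (2 * μ)) := pb_jv.sub (PB2.const _)
      have p2 : PB2 (fun K L => 2 / μ ^ 2 * uu μ K L ^ 1) := (PB2.const _).mul ((pb_uu μ).pow 1)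
      have h1 := hEb (fun K L => jv K L - 1 / (2 * μ)) (fun K L => 2 / μ ^ 2 * uu μ K L ^ 1) 1
        p1 p2 (by norm_num) (fun K L => by have := uu_one μ K L; positivity)
        (fun K L h => (jv_near hμ10 h).trans (le_of_eq (by ring)))
        (fun K L _ => by
          have h1 := jv_pos K L
          have h2 := jv_le K L
          have h3 : 0 < 1 / (2 * μ) := by positivity
          have h4 : 1 / (2 * μ) ≤ 1 := by rw [div_le_one (by positivity)]; linarith
          rw [abs_le]; constructor <;> linarith)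
      have h0 : Ew a (fun K L => jv K L - 1 / (2 * μ)) = Ew a jv - 1 / (2 * μ) := by
        rw [ham.Ew_sub pb_jv (PB2.const _), ham.Ew_const]
      rw [h0, Ew_const_mul] at h1
      refine h1.trans ?_
      have h2 : 2 / μ ^ 2 * Ew a (fun K L => uu μ K L ^ 1) ≤ 2 / μ ^ 2 * (D * r) :=
        mul_le_mul_of_nonneg_left hu1 (by positivity)
      have h3 : 2 / μ ^ 2 * (D * r) = 2 * D / (μ * r) := by
        rw [← hrr]; field_simp
      have h4 := sc2 (D * 1) (by linarith)
      have h5 : 3 * D / (μ * r) = 2 * D / (μ * r) + D * 1 / (μ * r) := by ring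
      linarith
    -- e2
    have e2 : |Ew a jw| ≤ 3 * D / (μ * r) := by
      have h1 := hEb jw (fun _ _ => 2 / μ ^ 2) 1 pb_jw (PB2.const _) (by norm_num)
        (fun K L => by positivity)
        (fun K L h => by
          rw [abs_of_pos (jw_pos K L)]
          unfold jw
          rw [div_le_div_iff₀ (by positivity) (by positivity)]
          nlinarith)
        (fun K L _ => by rw [abs_of_pos (jw_pos K L)]; exact jw_le K L)
      rw [ham.Ew_const] at h1
      refine h1.trans ?_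
      have h3 := sc1 2 (by norm_num)
      have h4 := sc2 (D * 1) (by linarith)
      have h5 : 2 / (μ * r) + D * 1 / (μ * r) ≤ 3 * D / (μ * r) := by
        rw [← add_div]
        apply div_le_div_of_nonneg_right _ hμr0.le
        linarith
      linarith
    -- e3
    have e3 : |Ew a (fun K L => gg K L * jv K L) - 1 / (2 * μ) * Ew a gg| ≤ 4 * D / (μ * r) := by
      have p1 : PB2 (fun K L => gg K L * jv K L - 1 / (2 * μ) * gg K L) :=
        (pb_gg.mul pb_jv).sub ((PB2.const _).mul pb_gg)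
      have p2 : PB2 (fun K L => 3 / μ ^ 3 * uu μ K L ^ 3) := (PB2.const _).mul ((pb_uu μ).pow 3)
      have h1 := hEb (fun K L => gg K L * jv K L - 1 / (2 * μ) * gg K L)
        (fun K L => 3 / μ ^ 3 * uu μ K L ^ 3) μ
        p1 p2 hμ0.le (fun K L => by have := uu_one μ K L; positivity)
        (fun K L h => by
          have h2 := gg_good hμ10 h
          have h3 := jv_near hμ10 h
          have hu := uu_one μ K L
          have e : gg K L * jv K L - 1 / (2 * μ) * gg K L = gg K L * (jv K L - 1 / (2 * μ)) := by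
            ring
          rw [e, abs_mul, abs_of_nonneg (gg_nonneg K L)]
          calc gg K L * |jv K L - 1 / (2 * μ)| ≤
              (4 / 3 * uu μ K L ^ 2 / μ) * (2 * uu μ K L / μ ^ 2) :=
                mul_le_mul h2 h3 (abs_nonneg _) (by positivity)
            _ = 8 / 3 * (uu μ K L ^ 3 / μ ^ 3) := by ring
            _ ≤ 3 * (uu μ K L ^ 3 / μ ^ 3) := by
              have : 0 ≤ uu μ K L ^ 3 / μ ^ 3 := by positivity
              linarith
            _ = _ := by ring)
        (fun K L h => by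
          have h1 := jv_pos K L
          have h2 := jv_le K L
          have h3 : 0 < 1 / (2 * μ) := by positivity
          have h4 : 1 / (2 * μ) ≤ 1 := by rw [div_le_one (by positivity)]; linarith
          have h5 := gg_le K L
          have h6 := gg_nonneg K L
          have e : gg K L * jv K L - 1 / (2 * μ) * gg K L = gg K L * (jv K L - 1 / (2 * μ)) := by
            ring
          rw [e, abs_mul, abs_of_nonneg h6]
          have h7 : |jv K L - 1 / (2 * μ)| ≤ 1 := by rw [abs_le]; constructor <;> linarith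
          calc gg K L * |jv K L - 1 / (2 * μ)| ≤ gg K L * 1 := mul_le_mul_of_nonneg_left h7 h6
            _ ≤ μ := by linarith)
      have h0 : Ew a (fun K L => gg K L * jv K L - 1 / (2 * μ) * gg K L) =
          Ew a (fun K L => gg K L * jv K L) - 1 / (2 * μ) * Ew a gg := by
        rw [ham.Ew_sub (pb_gg.mul pb_jv) ((PB2.const _).mul pb_gg), Ew_const_mul]
      rw [h0, Ew_const_mul] at h1
      refine h1.trans ?_
      have h2 : 3 / μ ^ 3 * Ew a (fun K L => uu μ K L ^ 3) ≤ 3 / μ ^ 3 * (D * (μ * r)) :=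
        mul_le_mul_of_nonneg_left hu3 (by positivity)
      have h3 : 3 / μ ^ 3 * (D * (μ * r)) = 3 * D / (μ * r) := by
        have : μ ^ 3 = μ * r ^ 2 * μ := by rw [hrr]; ring
        rw [this]; field_simp
      have h4 : D * μ / μ ^ 3 = D / μ ^ 2 := by field_simp
      have h5 := sc1 D (by linarith)
      have h6 : 4 * D / (μ * r) = 3 * D / (μ * r) + D / (μ * r) := by ring
      linarith
    -- e4
    have e4 : |Ew a gg - vr a / μ| ≤ D' / μ := x5
    -- remainder of the second part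
    set w : ℕ → ℕ → ℝ := fun K L => hm K L - m' with hw
    have pw : PB2 w := pb_hm.sub (PB2.const m')
    have pX : PB2 (fun K L => (K:ℝ) + L - 2 * μ) := (pbK.add pbL).sub (PB2.const _)
    set R : ℕ → ℕ → ℝ := fun K L =>
      w K L * (((K:ℝ) + L - 2 * μ) + 3) ^ 2 * jv K L * (1 / (4 * μ ^ 2)) with hRdef
    have pR : PB2 R := (((pw.mul ((pX.add (PB2.const 3)).pow 2))).mul pb_jv).mul (PB2.const _)
    have e5 : |Ew a R| ≤ 11 * D / (μ * r) := by
      have p2 : PB2 (fun K L => 6 / μ ^ 3 * uu μ K L ^ 3) := (PB2.const _).mul ((pb_uu μ).pow 3)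
      have hX3 : ∀ K L : ℕ, |((K:ℝ) + L - 2 * μ) + 3| ≤ 3 * uu μ K L := fun K L => by
        have h1 := X_uu (μ := μ) (K := K) (L := L)
        have hu := uu_one μ K L
        refine (abs_add_le _ _).trans ?_
        rw [abs_of_pos (by norm_num : (0:ℝ) < 3)]
        linarith
      have h1 := hEb R (fun K L => 6 / μ ^ 3 * uu μ K L ^ 3) (5 * μ) pR p2 (by positivity)
        (fun K L => by have := uu_one μ K L; positivity)
        (fun K L h => by
          have h2 := w_le (K := K) (L := L) hm'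
          have h3 := hX3 K L
          have hu := uu_one μ K L
          have h4 : (((K:ℝ) + L - 2 * μ) + 3) ^ 2 ≤ (3 * uu μ K L) ^ 2 := by
            rw [← sq_abs]; exact pow_le_pow_left₀ (abs_nonneg _) h3 2
          have hj : jv K L ≤ 4/3 / μ := by
            unfold jv
            rw [div_le_div_iff₀ (by positivity) hμ0]; linarith
          have hj0 := jv_pos K L
          rw [hRdef]; simp only
          rw [abs_mul, abs_mul, abs_mul, abs_of_pos hj0,
            abs_of_nonneg (sq_nonneg (((K:ℝ) + L - 2 * μ) + 3)),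
            abs_of_pos (show 0 < 1 / (4 * μ ^ 2) by positivity)]
          calc |w K L| * (((K:ℝ) + L - 2 * μ) + 3) ^ 2 * jv K L * (1 / (4 * μ ^ 2)) ≤
              (2 * uu μ K L) * (3 * uu μ K L) ^ 2 * (4/3 / μ) * (1 / (4 * μ ^ 2)) := by
                gcongr
            _ = 6 / μ ^ 3 * uu μ K L ^ 3 := by field_simp; ring)
        (fun K L h => by
          have h2 := w_le (K := K) (L := L) hm'
          have hu := bad_uu hμ10 h
          have hu1 := uu_one μ K L
          have hj := jv_le K L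
          have hj0 := jv_pos K L
          have hK : (0:ℝ) ≤ K := Nat.cast_nonneg K
          have hL : (0:ℝ) ≤ L := Nat.cast_nonneg L
          have h4 : (((K:ℝ) + L - 2 * μ) + 3) ^ 2 ≤ (2 * μ) ^ 2 := by
            rw [← sq_abs]
            apply pow_le_pow_left₀ (abs_nonneg _)
            rw [abs_le]; constructor <;> linarith
          rw [hRdef]; simp only
          rw [abs_mul, abs_mul, abs_mul, abs_of_pos hj0,
            abs_of_nonneg (sq_nonneg (((K:ℝ) + L - 2 * μ) + 3)),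
            abs_of_pos (show 0 < 1 / (4 * μ ^ 2) by positivity)]
          calc |w K L| * (((K:ℝ) + L - 2 * μ) + 3) ^ 2 * jv K L * (1 / (4 * μ ^ 2)) ≤
              (2 * (3 * μ)) * (2 * μ) ^ 2 * (1 / 3) * (1 / (4 * μ ^ 2)) := by
                gcongr
                exact h2.trans (by linarith)
            _ = 2 * μ := by field_simp; ring
            _ ≤ 5 * μ := by linarith)
      rw [Ew_const_mul] at h1
      refine h1.trans ?_
      have h2 : 6 / μ ^ 3 * Ew a (fun K L => uu μ K L ^ 3) ≤ 6 / μ ^ 3 * (D * (μ * r)) :=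
        mul_le_mul_of_nonneg_left hu3 (by positivity)
      have h3 : 6 / μ ^ 3 * (D * (μ * r)) = 6 * D / (μ * r) := by
        have : μ ^ 3 = μ * r ^ 2 * μ := by rw [hrr]; ring
        rw [this]; field_simp
      have h4 : D * (5 * μ) / μ ^ 3 = (5 * D) / μ ^ 2 := by field_simp
      have h5 := sc1 (5 * D) (by linarith)
      have h6 : 11 * D / (μ * r) = 6 * D / (μ * r) + 5 * D / (μ * r) := by ring
      linarith
    -- Ew (w jv)
    have pwX : PB2 (fun K L => w K L * ((K:ℝ) + L - 2 * μ)) := pw.mul pX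
    have e6 : Ew a (fun K L => w K L * jv K L) =
        -(1 / (4 * μ ^ 2)) * Ew a (fun K L => w K L * ((K:ℝ) + L - 2 * μ)) + Ew a R := by
      have h1 : (fun K L : ℕ => w K L * jv K L) = fun K L : ℕ =>
          ((1 / (2 * μ) - 3 / (4 * μ ^ 2)) * w K L + -(1 / (4 * μ ^ 2)) *
            (w K L * ((K:ℝ) + L - 2 * μ))) + R K L := by
        funext K L
        rw [hRdef]; simp only
        unfold jv
        have h3 : ((K:ℝ) + L + 3) ≠ 0 := by positivity
        field_simp
        ring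
      rw [h1, ham.Ew_add (((PB2.const _).mul pw).add ((PB2.const _).mul pwX)) pR,
        ham.Ew_add ((PB2.const _).mul pw) ((PB2.const _).mul pwX), Ew_const_mul, Ew_const_mul]
      have h2 : Ew a w = 0 := hw0
      rw [h2]; ring
    -- Ew (w X)
    have e7 : |4 * Ew a (fun K L => w K L * ((K:ℝ) + L - 2 * μ)) - 2 * vr a| ≤ DD := by
      set c0 := 2 * μ - 1/2 - 4 * m' with hc0
      have h1 : (fun K L : ℕ => 4 * (w K L * ((K:ℝ) + L - 2 * μ))) = fun K L : ℕ =>
          ((((K:ℝ) + L - 2 * μ) ^ 2 + c0 * ((K:ℝ) + L - 2 * μ)) +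
            1/4 * (XX μ K L * iv K L)) - ((K:ℝ) + L - 2 * μ) * gg K L := by
        funext K L
        have h2 := four_hm μ K L
        have h3 : XX μ K L = (K:ℝ) + L - 2 * μ := rfl
        have h4 : 4 * w K L = ((K:ℝ) + L - 2 * μ) + c0 + 1/4 * iv K L - gg K L := by
          rw [hw]; simp only
          rw [h3] at h2
          rw [hc0]; linarith
        have h5 : 4 * (w K L * ((K:ℝ) + L - 2 * μ)) = (4 * w K L) * ((K:ℝ) + L - 2 * μ) := by
          ring
        rw [h5, h4, h3]; ring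
      have pXX := pb_XX μ
      rw [← Ew_const_mul, h1, ham.Ew_sub (((pX.pow 2).add ((PB2.const c0).mul pX)).add
        ((PB2.const (1/4)).mul (pXX.mul pb_iv))) (pX.mul pb_gg),
        ham.Ew_add ((pX.pow 2).add ((PB2.const c0).mul pX))
        ((PB2.const (1/4)).mul (pXX.mul pb_iv)), ham.Ew_add (pX.pow 2) ((PB2.const c0).mul pX),
        Ew_const_mul, Ew_const_mul]
      have y1 : |Ew a (fun K L => (K:ℝ) + L - 2 * μ)| ≤ 2 + D' := by
        have h2 := abs_le.1 x1
        have h3 : vr a / μ ≤ 1 := by rw [div_le_one hμ0]; exact hVle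
        have h4 : 0 ≤ vr a / μ := by positivity
        have h5 : D' / μ ≤ D' := div_le_self hD'.le (by linarith)
        rw [abs_le]; constructor <;> linarith
      have y2 : |c0| ≤ 5 := by
        have := abs_le.1 hm'
        rw [hc0, abs_le]; constructor <;> linarith
      have y3 : |c0 * Ew a (fun K L => (K:ℝ) + L - 2 * μ)| ≤ 5 * (2 + D') := by
        rw [abs_mul]; exact mul_le_mul y2 y1 (abs_nonneg _) (by norm_num)
      have y4 : |Ew a (fun K L => XX μ K L * iv K L)| ≤ 1 + 2 * D8 := by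
        refine (ew_XXiv ham hμ0.le).trans ?_
        have h2 : Ew a iv ≤ D8 / μ := x10
        have h3 : 2 * μ * Ew a iv ≤ 2 * μ * (D8 / μ) :=
          mul_le_mul_of_nonneg_left h2 (by positivity)
        have h4 : 2 * μ * (D8 / μ) = 2 * D8 := by field_simp
        linarith
      have y5 : |Ew a (fun K L => ((K:ℝ) + L - 2 * μ) * gg K L)| ≤ D' := x8
      have z1 := abs_le.1 x2
      have z3 := abs_le.1 y3
      have z4 := abs_le.1 y4
      have z5 := abs_le.1 y5
      rw [hDD, abs_le]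
      constructor <;> linarith
    -- assembling
    have hfa : Ew a (fa m') = (1/4 - 5/8 * Ew a jv - 1/16 * Ew a jw +
        1/4 * Ew a (fun K L => gg K L * jv K L)) - 3/2 * Ew a (fun K L => w K L * jv K L) := by
      have h1 : Ew a (fa m') = Ew a kk - 3/2 * Ew a (fun K L => w K L * jv K L) := by
        rw [← Ew_const_mul, ← ham.Ew_sub pb_kk ((PB2.const (3/2)).mul (pw.mul pb_jv))]
        rfl
      have h2 : Ew a ks = 1/4 - 5/8 * Ew a jv - 1/16 * Ew a jw +
          1/4 * Ew a (fun K L => gg K L * jv K L) := by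
        have h3 : ks = fun K L => ((1/4 - 5/8 * jv K L) - 1/16 * jw K L) +
            1/4 * (gg K L * jv K L) := by funext K L; exact ks_eq K L
        rw [h3, ham.Ew_add (((PB2.const (1/4)).sub ((PB2.const (5/8)).mul pb_jv)).sub
          ((PB2.const (1/16)).mul pb_jw)) ((PB2.const (1/4)).mul (pb_gg.mul pb_jv)),
          ham.Ew_sub ((PB2.const (1/4)).sub ((PB2.const (5/8)).mul pb_jv))
          ((PB2.const (1/16)).mul pb_jw), ham.Ew_sub (PB2.const (1/4))
          ((PB2.const (5/8)).mul pb_jv), ham.Ew_const, Ew_const_mul, Ew_const_mul, Ew_const_mul]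
      rw [h1, Ew_kk ham, h2]
    set E1 := Ew a jv
    set E2' := Ew a jw
    set E3 := Ew a (fun K L => gg K L * jv K L)
    set E4 := Ew a gg
    set E5 := Ew a R
    set E6 := Ew a (fun K L => w K L * ((K:ℝ) + L - 2 * μ))
    rw [hfa, e6]
    have hid : 2 * ((1/4 - 5/8 * E1 - 1/16 * E2' + 1/4 * E3) -
        3/2 * (-(1 / (4 * μ ^ 2)) * E6 + E5)) - (1/2 - 5/8 * (1 - vr a / μ) / μ) =
        2 * (-(5/8) * (E1 - 1 / (2 * μ)) - 1/16 * E2' + 1/4 * (E3 - 1 / (2 * μ) * E4) +
          1/4 * (1 / (2 * μ) * (E4 - vr a / μ)) + 3/32 * (1 / μ ^ 2) * (4 * E6 - 2 * vr a) -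
          3/2 * E5) := by
      field_simp
      ring
    rw [hid, abs_mul, abs_of_pos (by norm_num : (0:ℝ) < 2)]
    have f4 : |1 / (2 * μ) * (E4 - vr a / μ)| ≤ D' / (μ * r) := by
      rw [abs_mul, abs_of_pos (show 0 < 1 / (2 * μ) by positivity)]
      calc 1 / (2 * μ) * |E4 - vr a / μ| ≤ 1 / (2 * μ) * (D' / μ) :=
            mul_le_mul_of_nonneg_left e4 (by positivity)
        _ = D' / μ ^ 2 / 2 := by field_simp
        _ ≤ D' / μ ^ 2 := by
          have : 0 ≤ D' / μ ^ 2 := by positivity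
          linarith
        _ ≤ _ := sc1 D' hD'.le
    have f6 : |1 / μ ^ 2 * (4 * E6 - 2 * vr a)| ≤ DD / (μ * r) := by
      rw [abs_mul, abs_of_pos (show 0 < 1 / μ ^ 2 by positivity)]
      calc 1 / μ ^ 2 * |4 * E6 - 2 * vr a| ≤ 1 / μ ^ 2 * DD :=
            mul_le_mul_of_nonneg_left e7 (by positivity)
        _ = DD / μ ^ 2 := by ring
        _ ≤ _ := sc1 DD hDD0.le
    have k1 := abs_le.1 e1
    have k2 := abs_le.1 e2
    have k3 := abs_le.1 e3
    have k4 := abs_le.1 f4
    have k5 := abs_le.1 e5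
    have k6 := abs_le.1 f6
    have hk6 : 3/32 * (1 / μ ^ 2) * (4 * E6 - 2 * vr a) =
      3/32 * (1 / μ ^ 2 * (4 * E6 - 2 * vr a)) := by ring
    rw [hk6]
    have hsum : |-(5/8) * (E1 - 1 / (2 * μ)) - 1/16 * E2' + 1/4 * (E3 - 1 / (2 * μ) * E4) +
          1/4 * (1 / (2 * μ) * (E4 - vr a / μ)) + 3/32 * (1 / μ ^ 2 * (4 * E6 - 2 * vr a)) -
          3/2 * E5| ≤ 5/8 * (3 * D / (μ * r)) + 1/16 * (3 * D / (μ * r)) +
          1/4 * (4 * D / (μ * r)) + 1/4 * (D' / (μ * r)) + 3/32 * (DD / (μ * r)) +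
          3/2 * (11 * D / (μ * r)) := by
      rw [abs_le]
      constructor <;> linarith
    have hi0 : 0 < 1 / (μ * r) := by positivity
    have hfin : 2 * (5/8 * (3 * D / (μ * r)) + 1/16 * (3 * D / (μ * r)) +
          1/4 * (4 * D / (μ * r)) + 1/4 * (D' / (μ * r)) + 3/32 * (DD / (μ * r)) +
          3/2 * (11 * D / (μ * r))) ≤ (D1 + D2) / (μ * r) := by
      have h1 : 2 * (5/8 * (3 * D / (μ * r)) + 1/16 * (3 * D / (μ * r)) +
          1/4 * (4 * D / (μ * r)) + 1/4 * (D' / (μ * r)) + 3/32 * (DD / (μ * r)) +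
          3/2 * (11 * D / (μ * r))) = (2 * (15/8 * D + 3/16 * D + D + 1/4 * D' +
          3/32 * DD + 33/2 * D)) / (μ * r) := by ring
      rw [h1]
      apply div_le_div_of_nonneg_right _ hμr0.le
      rw [hD2]
      linarith
    linarith

end Pool.Agent.Q280.MK
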