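import Pool.Agent.Q280.MK.NTM

/-!
# Response of `T`: the observable `(k - mean)^2`
-/

namespace Pool.Agent.Q280.MK

open Finset Pool.Agent.Q291.MK
open Pool.Agent.Q284.MK (hm_upper hm_lower pbK pbL vr_nonneg pb_hm gg iv gg_nonneg gg_le pb_gg
  pb_iv XX pb_XX four_hm iv_nonneg ew_XXiv vr_T hv_near H_lin2)
open Pool.Agent.Q61.MK (X U PB2_U U_nonneg X_le_U Y_le_U)

noncomputable def la (K L : ℕ) : ℝ := hm K L - hm (K - 1) L
noncomputable def kp (K L : ℕ) : ℝ := ((K:ℝ) + L + 1/2) / ((K:ℝ) + L + 4) * kap (K - 1) L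
noncomputable def qq (m' : ℝ) (K L : ℕ) : ℝ := 2 * (hm (K - 1) L - m') + 1
noncomputable def sv (m' V' : ℝ) (K L : ℕ) : ℝ := hv K L + (hm K L - m') ^ 2 - V'

noncomputable def fc (m' V' : ℝ) (K L : ℕ) : ℝ :=
  kk K L * qq m' K L - 3/2 * (sv m' V' K L * jv K L)

noncomputable def fd (m' V' : ℝ) (K L : ℕ) : ℝ :=
  2 * (kk K L * kp K L) - 5 * (kk K L / ((K:ℝ) + L + 4) * qq m' K L) +
    15/4 * (sv m' V' K L / (((K:ℝ) + L + 3) * ((K:ℝ) + L + 4)))

lemma H_two (K L : ℕ) : H K L (fun _ => 2) = 2 := by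
  have h : H K L (fun _ => 2) = 2 * H K L (fun _ => 1) := by
    unfold H
    rw [Finset.mul_sum]
    exact Finset.sum_congr rfl fun j _ => by ring
  rw [h, H_one, mul_one]

lemma H_qq (K L : ℕ) (m' : ℝ) : H K L (fun k => 2 * ((k:ℝ) - m') + 1) = 2 * (hm K L - m') + 1 := by
  have h : H K L (fun k => 2 * ((k:ℝ) - m') + 1) =
      2 * H K L (fun k => (k:ℝ)) + (1 - 2 * m') * H K L (fun _ => 1) := by
    unfold H
    rw [Finset.mul_sum, Finset.mul_sum, ← Finset.sum_add_distrib]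
    exact Finset.sum_congr rfl fun j _ => by ring
  rw [h, H_one, H_id]; ring

lemma dl_sq' (m' : ℝ) : dl (fun k => ((k:ℝ) - m') ^ 2) = fun k : ℕ => 2 * ((k:ℝ) - m') + 1 :=
  funext (dl_sq m')
lemma dldl_sq' (m' : ℝ) : dl (fun k : ℕ => 2 * ((k:ℝ) - m') + 1) = fun _ => 2 := by
  funext k; unfold dl; push_cast; ring

lemma kap_add1 (K L : ℕ) : ((K:ℝ) + L + 3/2) * ((K:ℝ) + L + 5/2) /
    (((K:ℝ) + L + 3) * ((K:ℝ) + L + 4)) * kap K (L + 1) =
    kk K L * (((K:ℝ) + L + 1/2) / ((K:ℝ) + L + 4)) := by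
  unfold kap kk
  push_cast
  have h3 : ((K:ℝ) + L + 3) ≠ 0 := by positivity
  have h4 : ((K:ℝ) + L + 4) ≠ 0 := by positivity
  have h1 : ((K:ℝ) + L + 1/2) ≠ 0 := by positivity
  have h5 : ((K:ℝ) + L + 3/2) ≠ 0 := by positivity
  have h6 : ((K:ℝ) + L + 5/2) ≠ 0 := by positivity
  have h7 : ((K:ℝ) + (L + 1) + 1/2) ≠ 0 := by positivity
  have h8 : ((K:ℝ) + (L + 1) + 3/2) ≠ 0 := by positivity
  have e1 : ((K:ℝ) + (L + 1) + 1/2) = (K:ℝ) + L + 3/2 := by ring
  have e2 : ((K:ℝ) + (L + 1) + 3/2) = (K:ℝ) + L + 5/2 := by ring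
  rw [e1, e2]
  field_simp

lemma dgt_sq (hD : P_DIF) (m' t : ℝ) (K L : ℕ) :
    dl (fun L => gt (fun k => ((k:ℝ) - m') ^ 2) t K L) L = I (K + L) * fc m' t K L := by
  have h := ((hD K L (fun k => ((k:ℝ) - m') ^ 2)).2.2 t).1
  have e : (fun L => gt (fun k => ((k:ℝ) - m') ^ 2) t K L) =
    fun L => I (K + L) * (H K L (fun k => ((k:ℝ) - m') ^ 2) - t) := rfl
  rw [e, h, dl_sq', H_qq, H_lin2 bHYP1, I1]
  unfold fc qq sv
  rw [← kap_kk]
  unfold jv
  ring

lemma ddgt_sq (hD : P_DIF) (m' t : ℝ) (K L : ℕ) :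
    dl (dl (fun L => gt (fun k => ((k:ℝ) - m') ^ 2) t K L)) L = I (K + L) * fd m' t K L := by
  have h := ((hD K L (fun k => ((k:ℝ) - m') ^ 2)).2.2 t).2
  have e : (fun L => gt (fun k => ((k:ℝ) - m') ^ 2) t K L) =
    fun L => I (K + L) * (H K L (fun k => ((k:ℝ) - m') ^ 2) - t) := rfl
  rw [e, h, dl_sq', dldl_sq', H_two, H_qq, H_lin2 bHYP1, I2, I1]
  have e1 : I (K + L) * (((K:ℝ) + L + 3/2) * ((K:ℝ) + L + 5/2) /
      (((K:ℝ) + L + 3) * ((K:ℝ) + L + 4))) * (kap K (L + 1) * kap (K - 1) L * 2 -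
      2 * kap K L / ((K:ℝ) + L + 5/2) * (2 * (hm (K - 1) L - m') + 1)) =
      I (K + L) * (2 * ((((K:ℝ) + L + 3/2) * ((K:ℝ) + L + 5/2) /
      (((K:ℝ) + L + 3) * ((K:ℝ) + L + 4))) * kap K (L + 1)) * kap (K - 1) L -
      2 * (((K:ℝ) + L + 3/2) / ((K:ℝ) + L + 3) * kap K L) / ((K:ℝ) + L + 4) *
        (2 * (hm (K - 1) L - m') + 1)) := by
    have h3 : ((K:ℝ) + L + 3) ≠ 0 := by positivity
    have h4 : ((K:ℝ) + L + 4) ≠ 0 := by positivity
    have h5 : ((K:ℝ) + L + 5/2) ≠ 0 := by positivity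
    field_simp
  rw [e1, kap_add1, kap_kk]
  have e2 : 3 * (I (K + L) * (((K:ℝ) + L + 3/2) / ((K:ℝ) + L + 3)) / ((K:ℝ) + L + 4)) *
      kap K L = 3 * (I (K + L) / ((K:ℝ) + L + 4)) *
      (((K:ℝ) + L + 3/2) / ((K:ℝ) + L + 3) * kap K L) := by ring
  rw [e2, kap_kk]
  unfold fd kp qq sv
  ring

/-! ### Bounds -/

lemma hmN_nonneg (K L : ℕ) : 0 ≤ hm K L := by unfold hm; positivity
lemma hmN_le (K L : ℕ) : hm K L ≤ L := by
  have hK : (0:ℝ) ≤ K := Nat.cast_nonneg K
  have hL : (0:ℝ) ≤ L := Nat.cast_nonneg L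
  unfold hm
  rw [div_le_iff₀ (by positivity)]
  nlinarith [mul_nonneg hL hL]

lemma la_succ (k L : ℕ) : la (k + 1) L =
    (L:ℝ) * (L + 1/2) / (((k:ℝ) + L + 3/2) * ((k:ℝ) + L + 1/2)) := by
  unfold la hm
  rw [Nat.add_sub_cancel]
  push_cast
  have h1 : ((k:ℝ) + 1 + L + 1/2) ≠ 0 := by positivity
  have h2 : ((k:ℝ) + L + 1/2) ≠ 0 := by positivity
  have h3 : ((k:ℝ) + L + 3/2) ≠ 0 := by positivity
  field_simp
  ring

lemma la_zero (L : ℕ) : la 0 L = 0 := by unfold la hm; simp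

lemma la_nonneg (K L : ℕ) : 0 ≤ la K L := by
  cases K with
  | zero => rw [la_zero]
  | succ k => rw [la_succ]; positivity

lemma la_le (K L : ℕ) : la K L ≤ 1 := by
  cases K with
  | zero => rw [la_zero]; norm_num
  | succ k =>
    have hk : (0:ℝ) ≤ k := Nat.cast_nonneg k
    have hL : (0:ℝ) ≤ L := Nat.cast_nonneg L
    rw [la_succ, div_le_one (by positivity)]
    nlinarith [mul_nonneg hk hL, mul_nonneg hk hk]

lemma pb_hm1 : PB2 (fun K L => hm (K - 1) L) := pbL.of_le fun K L => by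
  rw [abs_of_nonneg (hmN_nonneg _ _)]; exact hmN_le _ _
lemma pb_la : PB2 la := pb_hm.sub pb_hm1
lemma pb_qq (m' : ℝ) : PB2 (qq m') :=
  ((PB2.const 2).mul (pb_hm1.sub (PB2.const m'))).add (PB2.const 1)

lemma kap_nonneg (K L : ℕ) : 0 ≤ kap K L := by unfold kap; positivity
lemma kap_le (K L : ℕ) : kap K L ≤ 1 := by
  have hK : (0:ℝ) ≤ K := Nat.cast_nonneg K
  have hL : (0:ℝ) ≤ L := Nat.cast_nonneg L
  unfold kap
  rw [div_le_one (by positivity)]
  nlinarith [mul_nonneg hK hL, mul_nonneg hL hL]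
lemma kp_nonneg (K L : ℕ) : 0 ≤ kp K L := by
  have := kap_nonneg (K - 1) L
  unfold kp; positivity
lemma kp_le (K L : ℕ) : kp K L ≤ 1 := by
  have h1 := kap_nonneg (K - 1) L
  have h2 := kap_le (K - 1) L
  have h3 : ((K:ℝ) + L + 1/2) / ((K:ℝ) + L + 4) ≤ 1 := by
    rw [div_le_one (by positivity)]; linarith
  unfold kp
  have h4 : 0 ≤ ((K:ℝ) + L + 1/2) / ((K:ℝ) + L + 4) := by positivity
  nlinarith
lemma pb_kp : PB2 kp := PB2.bdd 1 fun K L => by
  rw [abs_of_nonneg (kp_nonneg K L)]; exact kp_le K L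

lemma pb_hv : PB2 hv := by
  have h : PB2 (fun K L => 2 * ((K:ℝ) + L) + 1) :=
    ((PB2.const 2).mul (pbK.add pbL)).add (PB2.const 1)
  refine h.of_le fun K L => ?_
  have h1 := hv_near K L
  have h2 := gg_le K L
  have h3 := abs_le.1 h1
  have hK : (0:ℝ) ≤ K := Nat.cast_nonneg K
  have hL : (0:ℝ) ≤ L := Nat.cast_nonneg L
  rw [abs_le]; constructor <;> linarith

lemma pb_sv (m' V' : ℝ) : PB2 (sv m' V') :=
  (pb_hv.add ((pb_hm.sub (PB2.const m')).pow 2)).sub (PB2.const V')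

lemma pb_fc (m' V' : ℝ) : PB2 (fc m' V') :=
  (pb_kk.mul (pb_qq m')).sub ((PB2.const (3/2)).mul ((pb_sv m' V').mul pb_jv))

lemma pb_fd (m' V' : ℝ) : PB2 (fd m' V') := by
  have h := (((PB2.const 2).mul (pb_kk.mul pb_kp)).sub ((PB2.const 5).mul
    ((pb_kk.mul pb_n4).mul (pb_qq m')))).add ((PB2.const (15/4)).mul
    ((pb_sv m' V').mul (pb_jv.mul pb_n4)))
  have e : (fun K L : ℕ => 2 * (kk K L * kp K L) -
      5 * (kk K L * (1 / ((K:ℝ) + L + 4)) * qq m' K L) +
      15/4 * (sv m' V' K L * (jv K L * (1 / ((K:ℝ) + L + 4))))) = fd m' V' := by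
    funext K L
    unfold fd jv
    have h3 : ((K:ℝ) + L + 3) ≠ 0 := by positivity
    have h4 : ((K:ℝ) + L + 4) ≠ 0 := by positivity
    field_simp
  rw [e] at h; exact h

section pw
variable {μ m' V' : ℝ} {K L : ℕ}

lemma uu_zero (hμ : 10 ≤ μ) : 1 ≤ uu μ 0 L / μ := by
  have hμ0 : 0 < μ := by linarith
  rw [le_div_iff₀ hμ0]
  unfold uu U
  have h1 := neg_le_abs (((0:ℕ):ℝ) - μ)
  have h2 := abs_nonneg ((L:ℝ) - μ)
  push_cast at h1 ⊢
  linarith

lemma la_near (hμ : 10 ≤ μ) (h : 3 / 4 * μ ≤ (K:ℝ) + L) :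
    |la K L - 1 / 4| ≤ 7 * (uu μ K L / μ) := by
  have hμ0 : 0 < μ := by linarith
  cases K with
  | zero =>
    have h1 := uu_zero (L := L) hμ
    rw [la_zero]
    norm_num
    linarith
  | succ k =>
    have h1 := Y_uu (μ := μ) (K := k + 1) (L := L)
    have hu := uu_one μ (k + 1) L
    have hk : (0:ℝ) ≤ k := Nat.cast_nonneg k
    have hL : (0:ℝ) ≤ L := Nat.cast_nonneg L
    rw [la_succ]
    push_cast at h h1
    set u := uu μ (k + 1) L with hudef
    have e : (L:ℝ) * (L + 1/2) / (((k:ℝ) + L + 3/2) * ((k:ℝ) + L + 1/2)) - 1 / 4 =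
        (-(((k:ℝ) + 1 - L) * (3 * L + (k + 1))) + (2 * L + 1/4)) /
          (4 * (((k:ℝ) + L + 3/2) * ((k:ℝ) + L + 1/2))) := by
      field_simp; ring
    rw [e, abs_div, abs_of_pos (show 0 < 4 * (((k:ℝ) + L + 3/2) * ((k:ℝ) + L + 1/2)) by
      positivity), div_le_iff₀ (by positivity)]
    have h2 : |((k:ℝ) + 1 - L) * (3 * L + (k + 1))| ≤ (u - 1) * (3 * (k + L + 1)) := by
      rw [abs_mul, abs_of_nonneg (show 0 ≤ 3 * (L:ℝ) + (k + 1) by positivity)]
      exact mul_le_mul h1 (by linarith) (by positivity) (by linarith)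
    have h4 : |-(((k:ℝ) + 1 - L) * (3 * L + (k + 1))) + (2 * L + 1/4)| ≤
        3 * u * ((k:ℝ) + L + 3/2) := by
      refine (abs_add_le _ _).trans ?_
      rw [abs_neg, abs_of_nonneg (show 0 ≤ 2 * (L:ℝ) + 1/4 by positivity)]
      nlinarith [mul_nonneg (by linarith : 0 ≤ u - 1) (add_nonneg hk hL)]
    refine h4.trans ?_
    have h5 : (1:ℝ) ≤ 2 * ((k:ℝ) + L + 1/2) / μ := by
      rw [le_div_iff₀ hμ0]; linarith
    have h6 : 0 ≤ 3 * u * ((k:ℝ) + L + 3/2) := by positivity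
    have h7 : 3 * u * ((k:ℝ) + L + 3/2) * 1 ≤
        3 * u * ((k:ℝ) + L + 3/2) * (2 * ((k:ℝ) + L + 1/2) / μ) :=
      mul_le_mul_of_nonneg_left h5 h6
    have h8 : 3 * u * ((k:ℝ) + L + 3/2) * (2 * ((k:ℝ) + L + 1/2) / μ) =
      3/2 * (u / μ) * (4 * (((k:ℝ) + L + 3/2) * ((k:ℝ) + L + 1/2))) := by ring
    have h9 : 0 ≤ (u / μ) * (4 * (((k:ℝ) + L + 3/2) * ((k:ℝ) + L + 1/2))) := by positivity
    nlinarith

lemma kp_near (hμ : 10 ≤ μ) (h : 3 / 4 * μ ≤ (K:ℝ) + L) :
    |kp K L - 1 / 4| ≤ 7 * (uu μ K L / μ) := by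
  have hμ0 : 0 < μ := by linarith
  cases K with
  | zero =>
    have h1 := uu_zero (L := L) hμ
    have h2 : kp 0 L = 0 := by unfold kp kap; simp
    rw [h2]
    norm_num
    linarith
  | succ k =>
    have h1 := Y_uu (μ := μ) (K := k + 1) (L := L)
    have hu := uu_one μ (k + 1) L
    have hk : (0:ℝ) ≤ k := Nat.cast_nonneg k
    have hL : (0:ℝ) ≤ L := Nat.cast_nonneg L
    unfold kp kap
    rw [Nat.add_sub_cancel]
    push_cast at h h1 ⊢
    set u := uu μ (k + 1) L with hudef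
    have e : ((k:ℝ) + 1 + L + 1/2) / ((k:ℝ) + 1 + L + 4) *
        ((k:ℝ) * (k + 1/2) / (((k:ℝ) + L + 1/2) * ((k:ℝ) + L + 3/2))) - 1 / 4 =
        ((((k:ℝ) + 1 - L) * (3 * k + L) + (-(13/2) * k - 13/2 * L - 5/2))) /
          (4 * (((k:ℝ) + 1 + L + 4) * ((k:ℝ) + L + 1/2))) := by
      have e0 : (k:ℝ) + 1 + L + 1/2 = k + L + 3/2 := by ring
      rw [e0]
      field_simp; ring
    rw [e, abs_div, abs_of_pos (show 0 < 4 * (((k:ℝ) + 1 + L + 4) * ((k:ℝ) + L + 1/2)) by
      positivity), div_le_iff₀ (by positivity)]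
    have h2 : |((k:ℝ) + 1 - L) * (3 * k + L)| ≤ (u - 1) * (3 * (k + L)) := by
      rw [abs_mul, abs_of_nonneg (show 0 ≤ 3 * (k:ℝ) + L by positivity)]
      exact mul_le_mul h1 (by linarith) (by positivity) (by linarith)
    have h4 : |((k:ℝ) + 1 - L) * (3 * k + L) + (-(13/2) * k - 13/2 * L - 5/2)| ≤
        14 * u * ((k:ℝ) + 1 + L + 4) := by
      refine (abs_add_le _ _).trans ?_
      have h3 : |-(13/2) * (k:ℝ) - 13/2 * L - 5/2| ≤ 13/2 * k + 13/2 * L + 5/2 := by
        rw [abs_le]; constructor <;> linarith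
      nlinarith [mul_nonneg (by linarith : 0 ≤ u - 1) (add_nonneg hk hL)]
    refine h4.trans ?_
    have h5 : (1:ℝ) ≤ 2 * ((k:ℝ) + L + 1/2) / μ := by
      rw [le_div_iff₀ hμ0]; linarith
    have h6 : 0 ≤ 14 * u * ((k:ℝ) + 1 + L + 4) := by positivity
    have h7 : 14 * u * ((k:ℝ) + 1 + L + 4) * 1 ≤
        14 * u * ((k:ℝ) + 1 + L + 4) * (2 * ((k:ℝ) + L + 1/2) / μ) :=
      mul_le_mul_of_nonneg_left h5 h6
    have h8 : 14 * u * ((k:ℝ) + 1 + L + 4) * (2 * ((k:ℝ) + L + 1/2) / μ) =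
      7 * (u / μ) * (4 * (((k:ℝ) + 1 + L + 4) * ((k:ℝ) + L + 1/2))) := by ring
    linarith

lemma qq_le (hm' : |m' - μ / 2| ≤ 1) : |qq m' K L| ≤ 9 * uu μ K L := by
  have hu := uu_one μ K L
  have h1 := w_le (K := K - 1) (L := L) hm'
  have h2 : uu μ (K - 1) L ≤ uu μ K L + 1 := by
    unfold uu U
    cases K with
    | zero => simp
    | succ k =>
      rw [Nat.add_sub_cancel]
      push_cast
      have h3 : |(k:ℝ) - μ| ≤ |(k:ℝ) + 1 - μ| + 1 := by
        have : (k:ℝ) - μ = ((k:ℝ) + 1 - μ) + (-1) := by ring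
        rw [this]
        refine (abs_add_le _ _).trans ?_
        norm_num
      linarith
  unfold qq
  refine (abs_add_le _ _).trans ?_
  rw [abs_mul, abs_of_pos (by norm_num : (0:ℝ) < 2), abs_one]
  linarith

lemma sv_good (hμ : 10 ≤ μ) (hm' : |m' - μ / 2| ≤ 1) (hV0 : 0 ≤ V') (hV : V' ≤ μ)
    (h : 3 / 4 * μ ≤ (K:ℝ) + L) : |sv m' V' K L| ≤ 2 * μ + 6 * uu μ K L ^ 2 := by
  have hμ0 : 0 < μ := by linarith
  have hu := uu_one μ K L
  have h1 := hv_near K L
  have h2 := gg_good hμ h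
  have h3 := w_le (K := K) (L := L) hm'
  have h4 := X_uu (μ := μ) (K := K) (L := L)
  have h5 := abs_le.1 h1
  have h6 := abs_le.1 h4
  have h7 : (hm K L - m') ^ 2 ≤ (2 * uu μ K L) ^ 2 := by
    rw [← sq_abs]; exact pow_le_pow_left₀ (abs_nonneg _) h3 2
  have h8 : 0 ≤ (hm K L - m') ^ 2 := sq_nonneg _
  have h9 : 4 / 3 * uu μ K L ^ 2 / μ ≤ uu μ K L ^ 2 := by
    rw [div_le_iff₀ hμ0]
    have : 0 ≤ uu μ K L ^ 2 := by positivity
    nlinarith
  have h10 : uu μ K L ≤ uu μ K L ^ 2 := by nlinarith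
  have hK : (0:ℝ) ≤ K := Nat.cast_nonneg K
  have hL : (0:ℝ) ≤ L := Nat.cast_nonneg L
  unfold sv
  rw [abs_le]
  constructor <;> nlinarith

lemma sv_bad (hμ : 10 ≤ μ) (hm' : |m' - μ / 2| ≤ 1) (hV0 : 0 ≤ V') (hV : V' ≤ μ)
    (h : (K:ℝ) + L < 3 / 4 * μ) : |sv m' V' K L| ≤ 40 * μ ^ 2 := by
  have hμ0 : 0 < μ := by linarith
  have hu := bad_uu hμ h
  have hu1 := uu_one μ K L
  have h1 := hv_near K L
  have h2 := gg_le K L
  have h3 := w_le (K := K) (L := L) hm'
  have h5 := abs_le.1 h1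
  have h7 : (hm K L - m') ^ 2 ≤ (6 * μ) ^ 2 := by
    rw [← sq_abs]; exact pow_le_pow_left₀ (abs_nonneg _) (h3.trans (by linarith)) 2
  have h8 : 0 ≤ (hm K L - m') ^ 2 := sq_nonneg _
  have hK : (0:ℝ) ≤ K := Nat.cast_nonneg K
  have hL : (0:ℝ) ≤ L := Nat.cast_nonneg L
  unfold sv
  rw [abs_le]
  constructor <;> nlinarith

lemma fd_near (hμ : 10 ≤ μ) (hm' : |m' - μ / 2| ≤ 1) (hV0 : 0 ≤ V') (hV : V' ≤ μ)
    (h : 3 / 4 * μ ≤ (K:ℝ) + L) :
    |fd m' V' K L - 1/8| ≤ 100 * (uu μ K L / μ + uu μ K L ^ 2 / μ ^ 2) := by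
  have hμ0 : 0 < μ := by linarith
  have hu := uu_one μ K L
  have hK : (0:ℝ) ≤ K := Nat.cast_nonneg K
  have hL : (0:ℝ) ≤ L := Nat.cast_nonneg L
  have h1 := kk_near hμ h
  have h2 := kp_near hμ h
  have h3 := qq_le (K := K) (L := L) hm'
  have h4 := sv_good hμ hm' hV0 hV h
  have hk0 := kk_nonneg K L
  have hk1 := kk_le K L
  have hp0 := kp_nonneg K L
  have hp1 := kp_le K L
  set s := uu μ K L / μ with hs
  have hs0 : 0 ≤ s := by positivity
  have e : fd m' V' K L - 1/8 = 2 * ((kk K L - 1/4) * kp K L) + 1/2 * (kp K L - 1/4) -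
      5 * (kk K L / ((K:ℝ) + L + 4) * qq m' K L) +
      15/4 * (sv m' V' K L / (((K:ℝ) + L + 3) * ((K:ℝ) + L + 4))) := by
    unfold fd; ring
  have t1 : |(kk K L - 1/4) * kp K L| ≤ 2 * s := by
    rw [abs_mul, abs_of_nonneg hp0]
    calc |kk K L - 1/4| * kp K L ≤ (2 * s) * 1 := mul_le_mul h1 hp1 hp0 (by positivity)
      _ = 2 * s := mul_one _
  have t3 : |kk K L / ((K:ℝ) + L + 4) * qq m' K L| ≤ 12 * s := by
    rw [abs_mul, abs_of_nonneg (show 0 ≤ kk K L / ((K:ℝ) + L + 4) by positivity)]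
    have h5 : kk K L / ((K:ℝ) + L + 4) ≤ 4/3 / μ := by
      rw [div_le_div_iff₀ (by positivity) hμ0]; nlinarith
    calc kk K L / ((K:ℝ) + L + 4) * |qq m' K L| ≤ (4/3 / μ) * (9 * uu μ K L) :=
          mul_le_mul h5 h3 (abs_nonneg _) (by positivity)
      _ = 12 * s := by rw [hs]; ring
  have t4 : |sv m' V' K L / (((K:ℝ) + L + 3) * ((K:ℝ) + L + 4))| ≤
      4 * s + 12 * (uu μ K L ^ 2 / μ ^ 2) := by
    rw [abs_div, abs_of_pos (show 0 < ((K:ℝ) + L + 3) * ((K:ℝ) + L + 4) by positivity),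
      div_le_iff₀ (by positivity)]
    have h5 : 9/16 * μ ^ 2 ≤ ((K:ℝ) + L + 3) * ((K:ℝ) + L + 4) := by nlinarith
    have h6 : 0 ≤ 4 * s + 12 * (uu μ K L ^ 2 / μ ^ 2) := by positivity
    have h7 := mul_le_mul_of_nonneg_left h5 h6
    refine le_trans (h4.trans ?_) h7
    have h8 : (4 * s + 12 * (uu μ K L ^ 2 / μ ^ 2)) * (9/16 * μ ^ 2) =
        9/4 * uu μ K L * μ + 27/4 * uu μ K L ^ 2 := by
      rw [hs]; field_simp; ring
    rw [h8]
    nlinarith [sq_nonneg (uu μ K L)]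
  rw [e]
  have b1 := abs_le.1 t1
  have b2 := abs_le.1 h2
  have b3 := abs_le.1 t3
  have b4 := abs_le.1 t4
  have q : 0 ≤ uu μ K L ^ 2 / μ ^ 2 := by positivity
  rw [abs_le]
  constructor <;> linarith

lemma fd_bad (hμ : 10 ≤ μ) (hm' : |m' - μ / 2| ≤ 1) (hV0 : 0 ≤ V') (hV : V' ≤ μ)
    (h : (K:ℝ) + L < 3 / 4 * μ) : |fd m' V' K L| ≤ 200 * μ ^ 2 := by
  have hμ0 : 0 < μ := by linarith
  have hu := bad_uu hμ h
  have hu1 := uu_one μ K L
  have hK : (0:ℝ) ≤ K := Nat.cast_nonneg K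
  have hL : (0:ℝ) ≤ L := Nat.cast_nonneg L
  have h3 := qq_le (K := K) (L := L) hm'
  have h4 := sv_bad hμ hm' hV0 hV h
  have hk0 := kk_nonneg K L
  have hk1 := kk_le K L
  have hp0 := kp_nonneg K L
  have hp1 := kp_le K L
  have t1 : |kk K L * kp K L| ≤ 1 := by
    rw [abs_of_nonneg (by positivity)]; nlinarith
  have t3 : |kk K L / ((K:ℝ) + L + 4) * qq m' K L| ≤ 27 * μ := by
    rw [abs_mul, abs_of_nonneg (show 0 ≤ kk K L / ((K:ℝ) + L + 4) by positivity)]
    have h5 : kk K L / ((K:ℝ) + L + 4) ≤ 1 := by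
      rw [div_le_one (by positivity)]; linarith
    calc kk K L / ((K:ℝ) + L + 4) * |qq m' K L| ≤ 1 * (9 * uu μ K L) :=
          mul_le_mul h5 h3 (abs_nonneg _) (by norm_num)
      _ ≤ 27 * μ := by linarith
  have t4 : |sv m' V' K L / (((K:ℝ) + L + 3) * ((K:ℝ) + L + 4))| ≤ 40 * μ ^ 2 := by
    rw [abs_div, abs_of_pos (show 0 < ((K:ℝ) + L + 3) * ((K:ℝ) + L + 4) by positivity),
      div_le_iff₀ (by positivity)]
    have : (1:ℝ) ≤ ((K:ℝ) + L + 3) * ((K:ℝ) + L + 4) := by nlinarith [mul_nonneg hK hL]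
    nlinarith
  have b1 := abs_le.1 t1
  have b3 := abs_le.1 t3
  have b4 := abs_le.1 t4
  unfold fd
  rw [abs_le]
  constructor <;> nlinarith

end pw

theorem t_NTV (hDIF : P_DIF) (_hHTW : P_HTW) : P_NTV := by
  intro C3 C8 C12 e hC3 hC8 hC12 he
  obtain ⟨D1, M1, hD1, hM1, H1⟩ := genA C3 C8 200 e hC8 (by norm_num) he
  obtain ⟨D, hD, H2⟩ := momT C8 hC8
  set D2 := 500 * D with hD2
  refine ⟨D1 + D2, M1 + D, by positivity, by linarith, ?_⟩
  intro a hR
  have hbig := hR.big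
  have hcls : Cls C3 C8 a := hR.cl.toCls
  have ham : AM a := hcls.toAM
  have hamT : AM (T a) := hR.clT.toCls.toAM
  have G1 := H1 a hcls (by linarith)
  obtain ⟨hEu, -, -, hEb⟩ := H2 C3 a hcls (by linarith) (by linarith)
  have hm' := hR.near
  obtain ⟨hT1, -, hT3⟩ := vr_T bHYP1 bTLAW ham
  have hV0 := vr_nonneg hamT
  have hVle := hR.clT.toCls.vr_le
  set μ := mean a with hμ
  set m' := mean (T a) with hm'def
  set V' := vr (T a) with hV'def
  obtain ⟨hpH, hEH⟩ := (bTLAW a ham).2 (fun k => ((k:ℝ) - m') ^ 2) (pbSq m')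
  have hpH' : PB2 (fun K L => H K L (fun k => ((k:ℝ) - m') ^ 2)) := hpH
  have hEid : E (T a) (fun k => ((k:ℝ) - m') ^ 2) = V' := rfl
  have hμ10 : 10 ≤ μ := by linarith
  have hμ0 : 0 < μ := by linarith
  have hVμ : V' ≤ μ := by
    have := abs_le.1 hm'
    linarith
  have hr1 : 1 ≤ √μ := by
    rw [Real.one_le_sqrt]
    linarith
  have hrr : √μ ^ 2 = μ := Real.sq_sqrt hμ0.le
  have hr0 : 0 < √μ := by linarith
  constructor
  · intro L
    have h1 := G1 (fd m' V') (1/8) (pb_fd m' V')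
      (by norm_num) (fun K L h => (fd_near hμ10 hm' hV0 hVμ h).trans (by
        have := uu_one μ K L
        have : 0 ≤ uu μ K L / μ + uu μ K L ^ 2 / μ ^ 2 := by positivity
        linarith))
      (fun K L h => fd_bad hμ10 hm' hV0 hVμ h) L
    have h2 := dldl_TT ham hpH' (fun K L => I (K + L) * fd m' V' K L)
      (fun K L => by rw [hEid]; exact ddgt_sq hDIF m' V' K L) L
    rw [h2]
    have h3 : (2:ℝ) * (1/8) = 1/4 := by norm_num
    rw [h3] at h1
    refine h1.trans ?_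
    have hwt := wt_nn he.le hμ0 L
    gcongr
    linarith
  · have hE : E a (dl (TT a (fun k => ((k:ℝ) - m') ^ 2))) = 2 * Ew a (fc m' V') :=
      EdlTT ham hpH' (fc m' V') (pb_fc m' V')
        (fun K L => by rw [hEid]; exact dgt_sq hDIF m' V' K L)
    rw [hE]
    set w : ℕ → ℕ → ℝ := fun K L => hm K L - m' with hw
    have pw : PB2 w := pb_hm.sub (PB2.const m')
    have hw0 : Ew a w = 0 := by
      rw [hw, ham.Ew_sub pb_hm (PB2.const m'), ham.Ew_const, hT1]
      exact sub_self _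
    have psv := pb_sv m' V'
    have hsv0 : Ew a (sv m' V') = 0 := by
      have h1 : Ew a (sv m' V') = Ew a (fun K L => hv K L + (hm K L - m') ^ 2) - V' := by
        rw [← ham.Ew_const V']
        rw [← ham.Ew_sub (pb_hv.add ((pb_hm.sub (PB2.const m')).pow 2)) (PB2.const _)]
        rw [ham.Ew_const]
        rfl
      rw [h1, ham.Ew_add pb_hv ((pb_hm.sub (PB2.const m')).pow 2), hT3]
      ring
    set r := √μ with hr
    have hrμ : r ≤ μ := by rw [← hrr]; nlinarith
    have hu1 := hEu 1 (by norm_num)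
    have hu3 := hEu 3 (by norm_num)
    rw [pow_one] at hu1
    have hr3 : r ^ 3 = μ * r := by
      calc r ^ 3 = r ^ 2 * r := by ring
        _ = _ := by rw [hrr]
    rw [hr3] at hu3
    have sc1 : 1 / μ ≤ 1 / r := one_div_le_one_div_of_le hr0 hrμ
    have sc2 : 1 / μ ^ 2 ≤ 1 / r := by
      apply one_div_le_one_div_of_le hr0
      nlinarith
    have sc3 : 1 / μ ^ 3 ≤ 1 / r := by
      apply one_div_le_one_div_of_le hr0
      have : μ ^ 3 = μ * μ ^ 2 := by ring
      rw [this]; nlinarith [sq_nonneg μ]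
    -- general tool
    have tool : ∀ (f : ℕ → ℕ → ℝ) (A B : ℝ), PB2 f → 0 ≤ A → 0 ≤ B →
        (∀ K L : ℕ, 3 / 4 * μ ≤ (K:ℝ) + L →
          |f K L| ≤ A * (uu μ K L / μ + uu μ K L ^ 3 / μ ^ 2)) →
        (∀ K L : ℕ, (K:ℝ) + L < 3 / 4 * μ → |f K L| ≤ B * μ ^ 2) →
        |Ew a f| ≤ (2 * A + B) * D / r := by
      intro f A B pf hA hB hg hb
      have p1 : PB2 (fun K L => A / μ * uu μ K L ^ 1) := (PB2.const _).mul ((pb_uu μ).pow 1)
      have p3 : PB2 (fun K L => A / μ ^ 2 * uu μ K L ^ 3) := (PB2.const _).mul ((pb_uu μ).pow 3)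
      have h1 := hEb f (fun K L => A / μ * uu μ K L ^ 1 + A / μ ^ 2 * uu μ K L ^ 3) (B * μ ^ 2)
        pf (p1.add p3) (by positivity)
        (fun K L => by have := uu_one μ K L; positivity)
        (fun K L h => (hg K L h).trans (le_of_eq (by ring))) hb
      rw [ham.Ew_add p1 p3, Ew_const_mul, Ew_const_mul] at h1
      refine h1.trans ?_
      have h2 : A / μ * Ew a (fun K L => uu μ K L ^ 1) ≤ A / μ * (D * r) :=
        mul_le_mul_of_nonneg_left hu1 (by positivity)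
      have h3 : A / μ ^ 2 * Ew a (fun K L => uu μ K L ^ 3) ≤ A / μ ^ 2 * (D * (μ * r)) :=
        mul_le_mul_of_nonneg_left hu3 (by positivity)
      have h4 : A / μ * (D * r) = A * D / r := by
        rw [← hrr]; field_simp
      have h5 : A / μ ^ 2 * (D * (μ * r)) = A * D / r := by
        rw [← hrr]; field_simp
      have h6 : D * (B * μ ^ 2) / μ ^ 3 = D * B * (1 / μ) := by field_simp
      have h7 : D * B * (1 / μ) ≤ D * B * (1 / r) := mul_le_mul_of_nonneg_left sc1 (by positivity)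
      have h8 : (2 * A + B) * D / r = A * D / r + A * D / r + D * B * (1 / r) := by ring
      linarith
    have hq3 : ∀ K L : ℕ, 0 ≤ uu μ K L / μ ∧ 0 ≤ uu μ K L ^ 3 / μ ^ 2 := fun K L => by
      have := uu_one μ K L
      constructor <;> positivity
    -- e1
    have e1 : |Ew a kk - 1/4| ≤ (2 * 2 + 1) * D / r := by
      have h0 : Ew a (fun K L => kk K L - 1/4) = Ew a kk - 1/4 := by
        rw [ham.Ew_sub pb_kk (PB2.const _), ham.Ew_const]
      rw [← h0]
      refine tool _ 2 1 (pb_kk.sub (PB2.const _)) (by norm_num) (by norm_num)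
        (fun K L h => ?_) (fun K L h => ?_)
      · have h1 := kk_near hμ10 h
        have h2 := hq3 K L
        linarith
      · have h1 := kk_nonneg K L
        have h2 := kk_le K L
        have h3 : 1 ≤ μ ^ 2 := one_le_pow₀ (by linarith)
        rw [abs_le]; constructor <;> linarith
    -- e2
    have e2 : |Ew a (fun K L => kk K L * la K L) - 1/16| ≤ (2 * 9 + 2) * D / r := by
      have pkl : PB2 (fun K L => kk K L * la K L) := pb_kk.mul pb_la
      have h0 : Ew a (fun K L => kk K L * la K L - 1/16) =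
          Ew a (fun K L => kk K L * la K L) - 1/16 := by
        rw [ham.Ew_sub pkl (PB2.const _), ham.Ew_const]
      rw [← h0]
      refine tool _ 9 2 (pkl.sub (PB2.const _)) (by norm_num) (by norm_num)
        (fun K L h => ?_) (fun K L h => ?_)
      · have h1 := kk_near hμ10 h
        have h2 := la_near hμ10 h
        have h3 := hq3 K L
        have l0 := la_nonneg K L
        have l1 := la_le K L
        have e : kk K L * la K L - 1/16 = (kk K L - 1/4) * la K L + 1/4 * (la K L - 1/4) := by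
          ring
        rw [e]
        have t1 : |(kk K L - 1/4) * la K L| ≤ 2 * (uu μ K L / μ) := by
          rw [abs_mul, abs_of_nonneg l0]
          calc |kk K L - 1/4| * la K L ≤ (2 * (uu μ K L / μ)) * 1 :=
                mul_le_mul h1 l1 l0 (by linarith)
            _ = _ := mul_one _
        have b1 := abs_le.1 t1
        have b2 := abs_le.1 h2
        rw [abs_le]; constructor <;> linarith
      · have h1 := kk_nonneg K L
        have h2 := kk_le K L
        have l0 := la_nonneg K L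
        have l1 := la_le K L
        have h3 : 1 ≤ μ ^ 2 := one_le_pow₀ (by linarith)
        have h4 : 0 ≤ kk K L * la K L := mul_nonneg h1 l0
        have h5 : kk K L * la K L ≤ 1 := by nlinarith
        rw [abs_le]; constructor <;> linarith
    -- e3
    have e3 : |Ew a (fun K L => kk K L * w K L)| ≤ (2 * 3 + 6) * D / r := by
      have hsym : Ew a (fun K L => kk K L * w K L) = Ew a (fun K L => ks K L * w K L) := by
        have p1 : PB2 (fun K L => kk K L * w K L) := pb_kk.mul pw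
        have h1 := Ew_swap (a := a) (fun K L => kk K L * w K L)
        have h2 : Ew a (fun K L => kk K L * w K L + kk L K * w L K) =
            Ew a (fun K L => 2 * (ks K L * w K L)) := by
          congr 1; funext K L
          have h3 : w L K = w K L := by
            rw [hw]; simp only
            unfold hm
            have e : (L:ℝ) + K = K + L := add_comm _ _
            rw [e, mul_comm (L:ℝ) K]
          rw [h3, ← add_mul, kk_sym]; ring
        rw [ham.Ew_add p1 (pb2_swap p1), Ew_const_mul] at h2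
        have h4 : Ew a (fun K L => kk L K * w L K) = Ew a (fun K L => kk K L * w K L) := h1
        rw [h4] at h2
        linarith
      rw [hsym]
      have pks : PB2 (fun K L => ks K L * w K L) := pb_ks.mul pw
      have h0 : Ew a (fun K L => (ks K L - 1/4) * w K L) = Ew a (fun K L => ks K L * w K L) := by
        have h1 : (fun K L => (ks K L - 1/4) * w K L) =
            fun K L => ks K L * w K L - 1/4 * w K L := by
          funext K L; ring
        rw [h1, ham.Ew_sub pks ((PB2.const _).mul pw), Ew_const_mul]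
        have : Ew a (fun K L => w K L) = 0 := hw0
        rw [this]; ring
      rw [← h0]
      refine tool _ 3 6 ((pb_ks.sub (PB2.const _)).mul pw) (by norm_num) (by norm_num)
        (fun K L h => ?_) (fun K L h => ?_)
      · have hu := uu_one μ K L
        have h2 : |w K L| ≤ 2 * uu μ K L := w_le hm'
        have h3 := gg_good hμ10 h
        have g0 := gg_nonneg K L
        have hj0 := jv_pos K L
        have hj : jv K L ≤ 4/3 / μ := by
          unfold jv
          rw [div_le_div_iff₀ (by positivity) hμ0]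
          have hK : (0:ℝ) ≤ K := Nat.cast_nonneg K
          have hL : (0:ℝ) ≤ L := Nat.cast_nonneg L
          linarith
        have hjw0 := jw_pos K L
        have hjw : jw K L ≤ 1 / μ := by
          unfold jw
          have hK : (0:ℝ) ≤ K := Nat.cast_nonneg K
          have hL : (0:ℝ) ≤ L := Nat.cast_nonneg L
          rw [div_le_div_iff₀ (by positivity) hμ0]
          nlinarith
        have h4 : gg K L * jv K L ≤ 16/9 * (uu μ K L ^ 2 / μ ^ 2) := by
          calc gg K L * jv K L ≤ (4 / 3 * uu μ K L ^ 2 / μ) * (4/3 / μ) :=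
                mul_le_mul h3 hj hj0.le (by positivity)
            _ = _ := by ring
        have h5 : 0 ≤ gg K L * jv K L := by positivity
        have h6 : |ks K L - 1/4| ≤ 1 / μ + uu μ K L ^ 2 / μ ^ 2 := by
          rw [ks_eq]
          have q : 0 ≤ uu μ K L ^ 2 / μ ^ 2 := by positivity
          have hi : 0 < 1 / μ := by positivity
          have hj' : jv K L ≤ 4/3 * (1 / μ) := hj.trans (le_of_eq (by ring))
          rw [abs_le]; constructor <;> linarith
        rw [abs_mul]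
        calc |ks K L - 1/4| * |w K L| ≤ (1 / μ + uu μ K L ^ 2 / μ ^ 2) * (2 * uu μ K L) :=
              mul_le_mul h6 h2 (abs_nonneg _) (by positivity)
          _ = 2 * (uu μ K L / μ + uu μ K L ^ 3 / μ ^ 2) := by ring
          _ ≤ _ := by
            have := hq3 K L
            linarith
      · have hu := bad_uu hμ10 h
        have h2 : |w K L| ≤ 2 * uu μ K L := w_le hm'
        have k0 := ks_nonneg K L
        have k1 := ks_le K L
        have h3 : |ks K L - 1/4| ≤ 1 := by rw [abs_le]; constructor <;> linarith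
        rw [abs_mul]
        calc |ks K L - 1/4| * |w K L| ≤ 1 * (6 * μ) :=
              mul_le_mul h3 (h2.trans (by linarith)) (abs_nonneg _) (by norm_num)
          _ ≤ 6 * μ ^ 2 := by nlinarith
    -- e4
    have e4 : |Ew a (fun K L => sv m' V' K L * jv K L)| ≤ (2 * 12 + 40) * D / r := by
      have psj : PB2 (fun K L => sv m' V' K L * jv K L) := psv.mul pb_jv
      have h0 : Ew a (fun K L => sv m' V' K L * (jv K L - 1 / (2 * μ))) =
          Ew a (fun K L => sv m' V' K L * jv K L) := by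
        have h1 : (fun K L => sv m' V' K L * (jv K L - 1 / (2 * μ))) =
            fun K L => sv m' V' K L * jv K L - 1 / (2 * μ) * sv m' V' K L := by
          funext K L; ring
        rw [h1, ham.Ew_sub psj ((PB2.const _).mul psv), Ew_const_mul]
        have : Ew a (fun K L => sv m' V' K L) = 0 := hsv0
        rw [this]; ring
      rw [← h0]
      refine tool _ 12 40 (psv.mul (pb_jv.sub (PB2.const _))) (by norm_num) (by norm_num)
        (fun K L h => ?_) (fun K L h => ?_)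
      · have hu := uu_one μ K L
        have h1 := sv_good hμ10 hm' hV0 hVμ h
        have h2 := jv_near hμ10 h
        rw [abs_mul]
        calc |sv m' V' K L| * |jv K L - 1 / (2 * μ)| ≤
            (2 * μ + 6 * uu μ K L ^ 2) * (2 * uu μ K L / μ ^ 2) :=
              mul_le_mul h1 h2 (abs_nonneg _) (by positivity)
          _ = 4 * (uu μ K L / μ) + 12 * (uu μ K L ^ 3 / μ ^ 2) := by field_simp; ring
          _ ≤ _ := by
            have := hq3 K L
            linarith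
      · have h1 := sv_bad hμ10 hm' hV0 hVμ h
        have h2 := jv_pos K L
        have h3 := jv_le K L
        have h4 : 0 < 1 / (2 * μ) := by positivity
        have h5 : 1 / (2 * μ) ≤ 1 := by rw [div_le_one (by positivity)]; linarith
        have h6 : |jv K L - 1 / (2 * μ)| ≤ 1 := by rw [abs_le]; constructor <;> linarith
        rw [abs_mul]
        calc |sv m' V' K L| * |jv K L - 1 / (2 * μ)| ≤ (40 * μ ^ 2) * 1 :=
              mul_le_mul h1 h6 (abs_nonneg _) (by positivity)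
          _ = _ := mul_one _
    -- assembling
    have hfc : Ew a (fc m' V') = (2 * Ew a (fun K L => kk K L * w K L) + Ew a kk) -
        2 * Ew a (fun K L => kk K L * la K L) - 3/2 * Ew a (fun K L => sv m' V' K L * jv K L) := by
      have h1 : fc m' V' = fun K L => (((2 * (kk K L * w K L) + kk K L) -
          2 * (kk K L * la K L)) - 3/2 * (sv m' V' K L * jv K L)) := by
        funext K L
        unfold fc qq la
        rw [hw]; simp only
        ring
      have p1 : PB2 (fun K L => kk K L * w K L) := pb_kk.mul pw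
      have p2 : PB2 (fun K L => kk K L * la K L) := pb_kk.mul pb_la
      have p3 : PB2 (fun K L => sv m' V' K L * jv K L) := psv.mul pb_jv
      rw [h1, ham.Ew_sub ((((PB2.const 2).mul p1).add pb_kk).sub ((PB2.const 2).mul p2))
        ((PB2.const (3/2)).mul p3), ham.Ew_sub (((PB2.const 2).mul p1).add pb_kk)
        ((PB2.const 2).mul p2), ham.Ew_add ((PB2.const 2).mul p1) pb_kk, Ew_const_mul,
        Ew_const_mul, Ew_const_mul]
    rw [hfc]
    have k1 := abs_le.1 e1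
    have k2 := abs_le.1 e2
    have k3 := abs_le.1 e3
    have k4 := abs_le.1 e4
    set x := D / r with hx
    have hx0 : 0 < x := by positivity
    have g1 : (2 * 2 + 1) * D / r = 5 * x := by rw [hx]; ring
    have g2 : (2 * 9 + 2) * D / r = 20 * x := by rw [hx]; ring
    have g3 : (2 * 3 + 6) * D / r = 12 * x := by rw [hx]; ring
    have g4 : (2 * 12 + 40) * D / r = 64 * x := by rw [hx]; ring
    rw [g1] at k1
    rw [g2] at k2
    rw [g3] at k3
    rw [g4] at k4
    have g5 : (D1 + D2) / r = D1 / r + 500 * x := by rw [hx, hD2]; ring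
    have g6 : 0 < D1 / r := by positivity
    rw [g5, abs_le]
    constructor <;> linarith

end Pool.Agent.Q280.MK
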