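import Pool.Agent.Q291.MK.Stm3
import Pool.Agent.Q291.MK.Base
import Pool.Agent.Q61.MK.Eng

/-!
# The twelfth central moment of `T a`
-/

namespace Pool.Agent.Q280.MK

open Finset Pool.Agent.Q291.MK
open Pool.Agent.Q284.MK (hm_upper hm_lower pbK pbL vr_nonneg)
open Pool.Agent.Q61.MK (eng U PB2_U Ew_up U_nonneg)

/-- Convexity of the twelfth power. -/
lemma twelfth_add (A B : ℝ) : (A + B) ^ 12 ≤ (101/100) ^ 11 * A ^ 12 + 101 ^ 11 * B ^ 12 := by
  have h := (Even.convexOn_pow (𝕜 := ℝ) (n := 12) (by decide)).2 (Set.mem_univ (101/100 * A))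
    (Set.mem_univ (101 * B)) (by norm_num : (0:ℝ) ≤ 100/101) (by norm_num : (0:ℝ) ≤ 1/101)
    (by norm_num)
  simp only [smul_eq_mul] at h
  have e1 : (100:ℝ)/101 * (101/100 * A) + 1/101 * (101 * B) = A + B := by ring
  rw [e1] at h
  refine h.trans (le_of_eq ?_)
  ring

lemma hm_twelfth {K L : ℕ} {m m1 : ℝ} (h0 : 0 ≤ m/2 - m1) (h1 : m/2 - m1 ≤ 1) :
    (hm K L - m1) ^ 12 ≤ (101/100) ^ 11 / 4096 * (((K:ℝ) - m) ^ 12 + ((L:ℝ) - m) ^ 12) +
      101 ^ 11 * (9/8) ^ 12 := by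
  set t := max |(K:ℝ) - m| |(L:ℝ) - m| with ht
  have ha : |hm K L - m1| ≤ t / 2 + 9/8 := by
    have h2 := hm_upper K L m
    have h3 := hm_lower K L m
    rw [← ht] at h2 h3
    rw [abs_le]; constructor <;> linarith
  have ht0 : 0 ≤ t := (abs_nonneg _).trans (le_max_left _ _)
  have h4 : (hm K L - m1) ^ 12 ≤ (t/2 + 9/8) ^ 12 := by
    have : (hm K L - m1) ^ 12 = |hm K L - m1| ^ 12 := (Even.pow_abs (by decide) _).symm
    rw [this]; exact pow_le_pow_left₀ (abs_nonneg _) ha 12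
  have h5 := twelfth_add (t/2) (9/8)
  have h6 : t ^ 12 ≤ ((K:ℝ) - m) ^ 12 + ((L:ℝ) - m) ^ 12 := by
    have e1 : 0 ≤ ((K:ℝ) - m) ^ 12 := Even.pow_nonneg (by decide) _
    have e2 : 0 ≤ ((L:ℝ) - m) ^ 12 := Even.pow_nonneg (by decide) _
    rcases max_choice |(K:ℝ) - m| |(L:ℝ) - m| with h | h
    · rw [ht, h, Even.pow_abs (by decide)]; linarith
    · rw [ht, h, Even.pow_abs (by decide)]; linarith
  have h7 : (t/2) ^ 12 = t ^ 12 / 4096 := by ring
  rw [h7] at h5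
  calc (hm K L - m1) ^ 12 ≤ (t/2 + 9/8) ^ 12 := h4
    _ ≤ _ := h5
    _ ≤ _ := by nlinarith

lemma H_twelfth (h1 : P_HYP1) (K L : ℕ) (c : ℝ) :
    H K L (fun j => ((j:ℝ) - c) ^ 12) ≤
      (101/100) ^ 11 * (hm K L - c) ^ 12 + 101 ^ 11 * H K L (fun j => ((j:ℝ) - hm K L) ^ 12) := by
  obtain ⟨hnn, -, -, hone, -⟩ := h1 K L
  have e : H K L (fun j => ((j:ℝ) - c) ^ 12) ≤
      (101/100) ^ 11 * (hm K L - c) ^ 12 * H K L (fun _ => 1) +
        101 ^ 11 * H K L (fun j => ((j:ℝ) - hm K L) ^ 12) := by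
    unfold H
    simp only [Finset.mul_sum, ← Finset.sum_add_distrib]
    refine Finset.sum_le_sum fun j _ => ?_
    have h := twelfth_add (hm K L - c) ((j:ℝ) - hm K L)
    have e1 : hm K L - c + ((j:ℝ) - hm K L) = (j:ℝ) - c := by ring
    rw [e1] at h
    have := mul_le_mul_of_nonneg_left h (hnn j)
    linarith
  rw [hone] at e
  linarith

/-- Lower bound for the normalisation. -/
lemma Z_lower {a : ℕ → ℝ} (ha : AM a) (hm : 0 ≤ mean a) :
    1 / (2 * (mean a + 1) ^ 2) ≤ E2 a (fun K L => I (K + L)) := by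
  set μ := mean a with hμ
  have hb : (0:ℝ) < 2 * μ + 2 := by linarith
  have key : ∀ K L : ℕ, 2 / (2 * μ + 2) ^ 2 - 4 / (2 * μ + 2) ^ 3 * ((K:ℝ) + L - 2 * μ) ≤
      I (K + L) := by
    intro K L
    refine le_trans ?_ (Pool.Agent.Q150.MK.I_lower (K + L))
    push_cast
    have hk : (0:ℝ) ≤ K := Nat.cast_nonneg K
    have hl : (0:ℝ) ≤ L := Nat.cast_nonneg L
    set s : ℝ := (K:ℝ) + L + 2 with hs
    have hs0 : 0 < s := by positivity
    set b := 2 * μ + 2 with hbdef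
    have e1 : (K:ℝ) + L - 2 * μ = s - b := by rw [hs, hbdef]; ring
    rw [e1, mul_one_div]
    have e2 : 2 / b ^ 2 - 4 / b ^ 3 * (s - b) = (6 * b - 4 * s) / b ^ 3 := by
      field_simp; ring
    rw [e2, div_le_div_iff₀ (by positivity) (by positivity)]
    nlinarith [mul_nonneg (sq_nonneg (s - b)) hb.le, mul_nonneg (sq_nonneg (s - b)) hs0.le]
  have h1 := ha.E2_mono ((PB2.const (2 / (2 * μ + 2) ^ 2)).sub
    ((PB2.const (4 / (2 * μ + 2) ^ 3)).mul ((pbK.add pbL).sub (PB2.const (2 * μ))))) PB2.I key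
  have hpx : PB2 (fun K L => (K:ℝ) + L - 2 * μ) := (pbK.add pbL).sub (PB2.const (2 * μ))
  rw [ha.E2_sub (PB2.const _) ((PB2.const _).mul hpx), ha.E2_cst, E2_const_mul,
    ha.E2_sub (pbK.add pbL) (PB2.const _), ha.E2_cst, ha.E2_add pbK pbL,
    ha.E2_fst PB.id, ha.E2_snd PB.id] at h1
  have h2 : E a (fun k => (k:ℝ)) = μ := rfl
  rw [h2] at h1
  have h3 : μ + μ - 2 * μ = 0 := by ring
  rw [h3, mul_zero, sub_zero] at h1
  refine le_trans (le_of_eq ?_) h1
  have : (2 * μ + 2) ^ 2 = 4 * (μ + 1) ^ 2 := by ring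
  rw [this]
  have h4 : (μ + 1) ≠ 0 := by linarith
  field_simp
  norm_num

lemma m12_nonneg {a : ℕ → ℝ} (ha : AM a) : 0 ≤ m12 a := by
  have h := ha.E_mono (PB.const 0) ((PB.id.sub (PB.const (mean a))).pow 12)
    (fun k => Even.pow_nonneg (by decide) _)
  rwa [ha.toLaw.E_const] at h

/-- The weighted twelfth moment. -/
lemma ew12 (hM : P_EXPM) (hA : P_EXPA) : ∀ C8 C12 : ℝ, 1 ≤ C8 → 1 ≤ C12 → ∃ M : ℝ, 100 ≤ M ∧
    ∀ (C3 : ℝ) (a : ℕ → ℝ), Cl C3 C8 C12 a → M ≤ mean a →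
    Ew a (fun K L => ((K:ℝ) - mean a) ^ 12 + ((L:ℝ) - mean a) ^ 12) ≤
      10 * m12 a + mean a ^ 6 ∧
    Ew a (fun K _ => ((K:ℝ) + 1) ^ 6) ≤ 100 * mean a ^ 6 := by
  intro C8 C12 hC8 hC12
  obtain ⟨D, hD1, heng⟩ := eng hM hA C8 hC8
  refine ⟨100 + 20 * D + 16 * 4 ^ 12 * C12 ^ 2, by
    have : 0 ≤ 16 * 4 ^ 12 * C12 ^ 2 := by positivity
    linarith, ?_⟩
  intro C3 a ha hm
  have hC0 : 0 ≤ 16 * 4 ^ 12 * C12 ^ 2 := by positivity
  obtain ⟨hmom, -, Z0, c0, hZ0, -, hZ, hexp⟩ := heng C3 a ha.toCls (by linarith) (by linarith)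
  have ham : AM a := ha.toCls.toAM
  have hm12 := ha.m12_le
  have hm12' : m12 a = E a (fun k => ((k:ℝ) - mean a) ^ 12) := rfl
  have hm120 := m12_nonneg ham
  have hZl := Z_lower ham (by linarith)
  set μ := mean a with hμ
  have hμ0 : 0 < μ := by linarith
  have hd : D / μ ≤ 1 / 20 := by
    rw [div_le_iff₀ hμ0]
    linarith
  have px : PB2 (fun K _ => (K:ℝ) - μ) := pbK.sub (PB2.const μ)
  have py : PB2 (fun _ L => (L:ℝ) - μ) := pbL.sub (PB2.const μ)
  constructor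
  · set f : ℕ → ℕ → ℝ := fun K L => ((K:ℝ) - μ) ^ 12 + ((L:ℝ) - μ) ^ 12 with hf
    have hf0 : ∀ K L, 0 ≤ f K L := fun K L =>
      add_nonneg (Even.pow_nonneg (by decide) _) (Even.pow_nonneg (by decide) _)
    have pf : PB2 f := (px.pow 12).add (py.pow 12)
    set f1 : ℕ → ℕ → ℝ := fun K L => if (K:ℝ) + L < 3 / 4 * μ then 0 else f K L with hf1
    set f2 : ℕ → ℕ → ℝ := fun K L => if (K:ℝ) + L < 3 / 4 * μ then f K L else 0 with hf2
    have pf1 : PB2 f1 := pf.of_le fun K L => by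
      rw [hf1]; simp only
      split_ifs
      · rw [abs_zero]; exact hf0 K L
      · rw [abs_of_nonneg (hf0 K L)]
    have pf2 : PB2 f2 := pf.of_le fun K L => by
      rw [hf2]; simp only
      split_ifs
      · rw [abs_of_nonneg (hf0 K L)]
      · rw [abs_zero]; exact hf0 K L
    have hf10 : ∀ K L, 0 ≤ f1 K L := fun K L => by
      rw [hf1]; simp only
      split_ifs
      · exact le_rfl
      · exact hf0 K L
    have hsum : Ew a f = Ew a f1 + Ew a f2 := by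
      rw [← ham.Ew_add pf1 pf2]
      congr 1
      funext K L
      rw [hf1, hf2]; simp only
      split_ifs
      · rw [zero_add]
      · rw [add_zero]
    -- the good part
    have hEf : E2 a f = 2 * m12 a := by
      have p12 : PB (fun k => ((k:ℝ) - μ) ^ 12) := (PB.id.sub (PB.const μ)).pow 12
      rw [hf, ham.E2_add (PB2.fst p12) (PB2.snd p12), ham.E2_fst p12, ham.E2_snd p12, hm12']
      ring
    have hg1 : Ew a f1 ≤ 20 / 19 * (9 / 2 * (2 * m12 a)) := by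
      obtain ⟨-, q1⟩ := hexp f1 0 pf1 le_rfl (fun K L h => by
        rw [hf1]; simp only
        rw [if_pos h, abs_zero])
      have e1 : (fun K L : ℕ => I (K + L) * |f1 K L|) = fun K L => I (K + L) * f1 K L := by
        funext K L; rw [abs_of_nonneg (hf10 K L)]
      have e2 : (fun K L : ℕ => |f1 K L|) = f1 := by
        funext K L; rw [abs_of_nonneg (hf10 K L)]
      rw [e1, e2, mul_zero, zero_div, add_zero] at q1
      have q2 : E2 a f1 ≤ 2 * m12 a := by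
        rw [← hEf]
        refine ham.E2_mono pf1 pf fun K L => ?_
        rw [hf1]; simp only
        split_ifs
        · exact hf0 K L
        · exact le_rfl
      exact Ew_up hZ hd hZ0 (q1.trans (by linarith)) (by linarith)
    -- the bad part
    have hg2 : Ew a f2 ≤ μ ^ 6 / 2 := by
      have p12 : PB (fun k => ((k:ℝ) - μ) ^ 12) := (PB.id.sub (PB.const μ)).pow 12
      have r1 : E2 a (fun K L => I (K + L) * f2 K L) ≤ 2 * 4 ^ 12 * C12 ^ 2 := by
        have r2 := ham.E2_mono (PB2.I.mul pf2) ((PB2.const (2 * (4 ^ 12 / μ ^ 12))).mul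
          ((PB2.fst p12).mul (PB2.snd p12))) (fun K L => by
            have hK : (0:ℝ) ≤ K := Nat.cast_nonneg K
            have hL : (0:ℝ) ≤ L := Nat.cast_nonneg L
            have hx0 : 0 ≤ ((K:ℝ) - μ) ^ 12 := Even.pow_nonneg (by decide) _
            have hy0 : 0 ≤ ((L:ℝ) - μ) ^ 12 := Even.pow_nonneg (by decide) _
            have hI1 := I_le_one (K + L)
            have hI0 := (I_pos (K + L)).le
            rw [hf2]; simp only
            split_ifs with h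
            · have key : ∀ z : ℝ, 0 ≤ z → z < 3 / 4 * μ →
                  1 ≤ (4 ^ 12 / μ ^ 12) * (z - μ) ^ 12 := by
                intro z hz hz2
                have h3 : 1 ≤ 4 / μ * (μ - z) := by
                  rw [div_mul_eq_mul_div, le_div_iff₀ hμ0]
                  linarith
                have h4 : 1 ≤ (4 / μ * (μ - z)) ^ 12 := one_le_pow₀ h3
                calc (1:ℝ) ≤ (4 / μ * (μ - z)) ^ 12 := h4
                  _ = _ := by ring
              have k1 := key K hK (by linarith)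
              have k2 := key L hL (by linarith)
              have k3 := mul_le_mul_of_nonneg_left k1 hy0
              have k4 := mul_le_mul_of_nonneg_left k2 hx0
              have k5 : 0 ≤ f K L := hf0 K L
              calc I (K + L) * f K L ≤ 1 * f K L := mul_le_mul_of_nonneg_right hI1 k5
                _ = ((K:ℝ) - μ) ^ 12 + ((L:ℝ) - μ) ^ 12 := by rw [one_mul]
                _ ≤ _ := by nlinarith
            · rw [mul_zero]
              positivity)
        rw [E2_const_mul, ham.E2_mul p12 p12, ← hm12'] at r2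
        refine r2.trans ?_
        have r3 : m12 a * m12 a ≤ (C12 * μ ^ 6) * (C12 * μ ^ 6) :=
          mul_le_mul hm12 hm12 hm120 (hm120.trans hm12)
        calc 2 * (4 ^ 12 / μ ^ 12) * (m12 a * m12 a) ≤
            2 * (4 ^ 12 / μ ^ 12) * ((C12 * μ ^ 6) * (C12 * μ ^ 6)) :=
              mul_le_mul_of_nonneg_left r3 (by positivity)
          _ = _ := by field_simp
      have r4 : Ew a f2 ≤ 2 * 4 ^ 12 * C12 ^ 2 * (2 * (μ + 1) ^ 2) := by
        unfold Ew
        rw [div_le_iff₀ ham.Z_pos]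
        refine r1.trans ?_
        have r5 : 1 ≤ (2 * (μ + 1) ^ 2) * E2 a (fun K L => I (K + L)) := by
          rw [div_le_iff₀ (by positivity)] at hZl
          linarith
        have r6 : 0 ≤ 2 * 4 ^ 12 * C12 ^ 2 := by positivity
        calc 2 * 4 ^ 12 * C12 ^ 2 = 2 * 4 ^ 12 * C12 ^ 2 * 1 := by ring
          _ ≤ 2 * 4 ^ 12 * C12 ^ 2 * ((2 * (μ + 1) ^ 2) * E2 a (fun K L => I (K + L))) :=
            mul_le_mul_of_nonneg_left r5 r6
          _ = _ := by ring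
      refine r4.trans ?_
      have r7 : 2 * (μ + 1) ^ 2 ≤ 4 * μ ^ 2 := by nlinarith
      have r8 : 16 * 4 ^ 12 * C12 ^ 2 ≤ μ := by linarith
      have r9 : μ * μ ^ 2 ≤ μ ^ 6 := by
        have h1 : 1 ≤ μ := by linarith
        calc μ * μ ^ 2 = μ ^ 3 := by ring
          _ ≤ μ ^ 6 := pow_le_pow_right₀ h1 (by norm_num)
      have r10 : 0 ≤ μ ^ 2 := by positivity
      calc 2 * 4 ^ 12 * C12 ^ 2 * (2 * (μ + 1) ^ 2) ≤ 2 * 4 ^ 12 * C12 ^ 2 * (4 * μ ^ 2) :=
            mul_le_mul_of_nonneg_left r7 (by positivity)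
        _ = (16 * 4 ^ 12 * C12 ^ 2) * μ ^ 2 / 2 := by ring
        _ ≤ μ * μ ^ 2 / 2 := by gcongr
        _ ≤ _ := by linarith
    show Ew a f ≤ _
    rw [hsum]
    have : 0 ≤ μ ^ 6 := by positivity
    linarith
  · -- sixth moment of `K + 1`
    have hr1 : 1 ≤ √μ := by
      rw [Real.one_le_sqrt]
      linarith
    have hrr : √μ ^ 2 = μ := Real.sq_sqrt hμ0.le
    have h6 := hmom 6 (by norm_num)
    have h66 : √μ ^ 6 = μ ^ 3 := by
      calc √μ ^ 6 = (√μ ^ 2) ^ 3 := by ring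
        _ = _ := by rw [hrr]
    rw [h66] at h6
    have pu := (PB2_U μ).pow 6
    have hu : Ew a (fun K L => U μ K L ^ 6) ≤ 20 / 19 * (9 / 2 * (D * μ ^ 3) + D * (2 * μ) ^ 6 / μ ^ 6) := by
      obtain ⟨-, q1⟩ := hexp (fun K L => U μ K L ^ 6) ((2 * μ) ^ 6) pu (by positivity)
        (fun K L h => by
          have hK : (0:ℝ) ≤ K := Nat.cast_nonneg K
          have hL : (0:ℝ) ≤ L := Nat.cast_nonneg L
          rw [abs_of_nonneg (pow_nonneg (U_nonneg μ K L) 6)]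
          refine pow_le_pow_left₀ (U_nonneg μ K L) ?_ 6
          unfold U
          have e1 : |(K:ℝ) - μ| ≤ μ := by rw [abs_le]; constructor <;> linarith
          have e2 : |(L:ℝ) - μ| ≤ μ := by rw [abs_le]; constructor <;> linarith
          linarith)
      have e1 : (fun K L : ℕ => I (K + L) * |U μ K L ^ 6|) =
          fun K L => I (K + L) * U μ K L ^ 6 := by
        funext K L; rw [abs_of_nonneg (pow_nonneg (U_nonneg μ K L) 6)]
      have e2 : (fun K L : ℕ => |U μ K L ^ 6|) = fun K L => U μ K L ^ 6 := by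
        funext K L; rw [abs_of_nonneg (pow_nonneg (U_nonneg μ K L) 6)]
      rw [e1, e2] at q1
      exact Ew_up hZ hd hZ0 (q1.trans (by linarith)) (by positivity)
    have h7 : D * (2 * μ) ^ 6 / μ ^ 6 = 64 * D := by field_simp; norm_num
    rw [h7] at hu
    have p1 : PB2 (fun K _ => ((K:ℝ) + 1) ^ 6) := (pbK.add (PB2.const 1)).pow 6
    have h8 := ham.Ew_mono p1 (((PB2.const 32).mul pu).add (PB2.const (32 * (μ + 1) ^ 6)))
      (fun K L => by
        have e1 : (K:ℝ) + 1 ≤ U μ K L + (μ + 1) := by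
          unfold U
          have := le_abs_self ((K:ℝ) - μ)
          have := abs_nonneg ((L:ℝ) - μ)
          linarith
        have hK : (0:ℝ) ≤ K := Nat.cast_nonneg K
        have hU := U_nonneg μ K L
        have hb : 0 ≤ μ + 1 := by linarith
        have e3 := add_pow_le hU hb 6
        have e2 : ((K:ℝ) + 1) ^ 6 ≤ (U μ K L + (μ + 1)) ^ 6 :=
          pow_le_pow_left₀ (by positivity) e1 6
        norm_num at e3
        linarith)
    rw [ham.Ew_add ((PB2.const 32).mul pu) (PB2.const _), Ew_const_mul, ham.Ew_const] at h8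
    refine h8.trans ?_
    have g1 : (μ + 1) ^ 6 ≤ 2 * μ ^ 6 := by
      have : (μ + 1) ^ 6 ≤ (101/100 * μ) ^ 6 := pow_le_pow_left₀ (by linarith) (by linarith) 6
      have h3 : (101/100 * μ) ^ 6 = (101/100) ^ 6 * μ ^ 6 := by ring
      rw [h3] at this
      have h4 : 0 ≤ μ ^ 6 := by positivity
      nlinarith
    have g2 : D * μ ^ 3 ≤ μ ^ 6 / 100 := by
      have h1 : 1 ≤ μ := by linarith
      have h2 : (100:ℝ) ≤ μ := by linarith
      have h3 : D ≤ μ := by linarith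
      have h4 : μ ^ 5 ≤ μ ^ 6 / 100 := by
        have : μ ^ 6 = μ * μ ^ 5 := by ring
        rw [this]
        have : 0 ≤ μ ^ 5 := by positivity
        nlinarith
      have h5 : D * μ ^ 3 ≤ μ ^ 5 := by
        calc D * μ ^ 3 ≤ μ * μ ^ 3 := mul_le_mul_of_nonneg_right h3 (by positivity)
          _ = μ ^ 4 := by ring
          _ ≤ μ ^ 5 := pow_le_pow_right₀ h1 (by norm_num)
      linarith
    have g3 : D ≤ D * μ ^ 3 := by
      have h1 : 1 ≤ μ ^ 3 := one_le_pow₀ (by linarith)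
      nlinarith
    have g4 : 0 ≤ μ ^ 6 := by positivity
    nlinarith

theorem t_TWT (h : P_HTW) : P_TWT := by
  obtain ⟨C, hC, h⟩ := h
  refine ⟨10 ^ 3 * (1 + 101 ^ 11 * (10 + 100 * C)), by
    have : 0 ≤ 101 ^ 11 * (10 + 100 * C) := by positivity
    nlinarith, ?_⟩
  intro C12 hC12 C3 C8 hC3 hC8
  have hB0 : 0 ≤ 101 ^ 11 * (10 + 100 * C) := by positivity
  have hC121 : 1 ≤ C12 := by linarith
  obtain ⟨M1, hM1, h1⟩ := ew12 bEXPM bEXPA C8 C12 hC8 hC121
  obtain ⟨D', M', hD', hM', h'⟩ := bTM C3 C8 hC3 hC8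
  refine ⟨M1 + M' + 8 * D', by linarith, fun a ha hm' => ?_⟩
  obtain ⟨e12, e6⟩ := h1 C3 a ha (by linarith)
  obtain ⟨f1, -⟩ := h' a ha.toCls (by linarith)
  have hAM : AM a := ha.toCls.toAM
  obtain ⟨hT, hE⟩ := bTLAW a hAM
  have hmu : 100 ≤ mean a := by linarith
  have hmu0 : 0 < mean a := by linarith
  have hV0 := vr_nonneg hAM
  have hVm0 : 0 ≤ vr a / mean a := by positivity
  have hVm : vr a / mean a ≤ 1 := by rw [div_le_one hmu0]; exact ha.vr_le
  have hDm : D' / mean a ≤ 1/8 := by rw [div_le_iff₀ hmu0]; linarith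
  rw [abs_le] at f1
  set m1 := mean (T a) with hm1
  have g0 : 0 ≤ mean a / 2 - m1 := by linarith
  have g1 : mean a / 2 - m1 ≤ 1 := by linarith
  have hPB : PB (fun k => ((k:ℝ) - m1) ^ 12) := (PB.id.sub (PB.const m1)).pow 12
  obtain ⟨hp, he⟩ := hE _ hPB
  have hm12 : m12 (T a) = Ew a (fun K L => H K L (fun k => ((k:ℝ) - m1) ^ 12)) := he
  have p12 : PB2 (fun K L => ((K:ℝ) - mean a) ^ 12 + ((L:ℝ) - mean a) ^ 12) :=
    (((pbK.sub (PB2.const _)).pow 12).add ((pbL.sub (PB2.const _)).pow 12))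
  have p6 : PB2 (fun K _ => ((K:ℝ) + 1) ^ 6) := (pbK.add (PB2.const 1)).pow 6
  have q1 : PB2 (fun K L => (101/100) ^ 11 / 4096 * (((K:ℝ) - mean a) ^ 12 +
      ((L:ℝ) - mean a) ^ 12) + 101 ^ 11 * (9/8) ^ 12) := ((PB2.const _).mul p12).add (PB2.const _)
  have hle : ∀ K L, H K L (fun k => ((k:ℝ) - m1) ^ 12) ≤
      (101/100) ^ 11 * ((101/100) ^ 11 / 4096 * (((K:ℝ) - mean a) ^ 12 +
      ((L:ℝ) - mean a) ^ 12) + 101 ^ 11 * (9/8) ^ 12) +
      (101 ^ 11 * C) * ((K:ℝ) + 1) ^ 6 := by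
    intro K L
    have r1 := H_twelfth bHYP1 K L m1
    have r2 := hm_twelfth (K := K) (L := L) g0 g1
    have r3 := h K L
    have hK : (0:ℝ) ≤ K := Nat.cast_nonneg K
    have hL : (0:ℝ) ≤ L := Nat.cast_nonneg L
    have r4 : (min (K:ℝ) L + 1) ^ 6 ≤ ((K:ℝ) + 1) ^ 6 :=
      pow_le_pow_left₀ (by positivity) (by linarith [min_le_left (K:ℝ) L]) 6
    have r5 : C * (min (K:ℝ) L + 1) ^ 6 ≤ C * ((K:ℝ) + 1) ^ 6 :=
      mul_le_mul_of_nonneg_left r4 hC.le
    have r6 : (101:ℝ) ^ 11 * H K L (fun j => ((j:ℝ) - hm K L) ^ 12) ≤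
        101 ^ 11 * (C * ((K:ℝ) + 1) ^ 6) := mul_le_mul_of_nonneg_left (r3.trans r5) (by positivity)
    have r7 := mul_le_mul_of_nonneg_left r2 (show (0:ℝ) ≤ (101/100) ^ 11 by positivity)
    linarith
  have hfin := hAM.Ew_mono hp (((PB2.const ((101/100) ^ 11)).mul q1).add
    ((PB2.const (101 ^ 11 * C)).mul p6)) hle
  rw [hAM.Ew_add ((PB2.const ((101/100) ^ 11)).mul q1) ((PB2.const (101 ^ 11 * C)).mul p6),
    Ew_const_mul, Ew_const_mul,
    hAM.Ew_add ((PB2.const _).mul p12) (PB2.const _), Ew_const_mul, hAM.Ew_const] at hfin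
  rw [hm12]
  refine hfin.trans ?_
  have hq0 : 1 ≤ mean a ^ 6 := one_le_pow₀ (by linarith)
  have s1 : (49/100 * mean a) ^ 6 ≤ m1 ^ 6 := pow_le_pow_left₀ (by linarith) (by linarith) 6
  have s2 : C12 * (49/100 * mean a) ^ 6 ≤ C12 * m1 ^ 6 := mul_le_mul_of_nonneg_left s1 (by linarith)
  refine le_trans ?_ s2
  have s3 : (49/100 * mean a) ^ 6 = (49/100) ^ 6 * mean a ^ 6 := by ring
  rw [s3]
  have s4 := ha.m12_le
  set q := mean a ^ 6 with hq
  have s5 : 10 ^ 3 * (1 + 101 ^ 11 * (10 + 100 * C)) * q ≤ C12 * q :=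
    mul_le_mul_of_nonneg_right hC12 (by linarith)
  have s6 : 101 ^ 11 * C * Ew a (fun K _ => ((K:ℝ) + 1) ^ 6) ≤ 101 ^ 11 * C * (100 * q) :=
    mul_le_mul_of_nonneg_left e6 (by positivity)
  have s7 : (101/100 : ℝ) ^ 11 / 4096 * Ew a (fun K L => ((K:ℝ) - mean a) ^ 12 +
      ((L:ℝ) - mean a) ^ 12) ≤ (101/100) ^ 11 / 4096 * (10 * (C12 * q) + q) :=
    mul_le_mul_of_nonneg_left (by linarith) (by positivity)
  have s8 : (101:ℝ) ^ 11 * (9 / 8) ^ 12 ≤ 101 ^ 11 * 5 * q := by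
    have : (9 / 8 : ℝ) ^ 12 ≤ 5 := by norm_num
    nlinarith
  have s9 : (101/100 : ℝ) ^ 11 ≤ 9 / 8 := by norm_num
  have s10 : 0 ≤ (101/100 : ℝ) ^ 11 := by positivity
  have s11 : 0 ≤ C12 * q := by positivity
  have s12 : (101/100 : ℝ) ^ 11 * ((101/100) ^ 11 / 4096 * Ew a (fun K L =>
      ((K:ℝ) - mean a) ^ 12 + ((L:ℝ) - mean a) ^ 12) + 101 ^ 11 * (9/8) ^ 12) ≤
      9 / 8 * (9 / 8 / 4096 * (10 * (C12 * q) + q) + 101 ^ 11 * 5 * q) := by
    have t1 : (101/100 : ℝ) ^ 11 / 4096 * (10 * (C12 * q) + q) ≤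
        9 / 8 / 4096 * (10 * (C12 * q) + q) := by
      apply mul_le_mul_of_nonneg_right _ (by linarith)
      linarith
    have t2 : 0 ≤ 9 / 8 / 4096 * (10 * (C12 * q) + q) + 101 ^ 11 * 5 * q := by positivity
    calc _ ≤ (101/100 : ℝ) ^ 11 * (9 / 8 / 4096 * (10 * (C12 * q) + q) + 101 ^ 11 * 5 * q) :=
          mul_le_mul_of_nonneg_left (by linarith) s10
      _ ≤ _ := mul_le_mul_of_nonneg_right s9 t2
  have s13 : (0:ℝ) ≤ C * q := by positivity
  norm_num at s5 s6 s12 ⊢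
  nlinarith

end Pool.Agent.Q280.MK
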