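import Pool.Agent.Q280.MK.NTK

/-!
# Second differences: a general estimate
-/

namespace Pool.Agent.Q280.MK

open Finset Pool.Agent.Q291.MK
open Pool.Agent.Q61.MK (X U PB2_U U_nonneg X_le_U)

/-- real arithmetic: from moments to the weight -/
lemma wt_arith {C2 C3' D e r y μ : ℝ} (hC2 : 0 ≤ C2) (hC3 : 0 ≤ C3') (hD : 1 ≤ D) (he : 0 < e)
    (hr : 1 ≤ r) (hμ : r ^ 2 = μ) (hy : 0 ≤ y) :
    C2 * ((D * r + y + 1) / μ + 3 * (D * μ + y ^ 2 + 1) / μ ^ 2) + C3' * D * y / μ ≤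
      (C2 * (4 * D + 9) + C3' * D) * (2 * (1 + 1 / e)) / r * (1 + e * (y ^ 10 / μ ^ 5)) := by
  have hr0 : 0 < r := by linarith
  set z := y / r with hz
  have hz0 : 0 ≤ z := by positivity
  have hyz : y = z * r := by rw [hz]; field_simp
  have e1 : y ^ 10 / μ ^ 5 = z ^ 10 := by
    rw [← hμ, hyz]; field_simp
  rw [e1]
  have h1 : (D * r + y + 1) / μ ≤ (D + z + 1) / r := by
    rw [← hμ, hyz, div_le_div_iff₀ (by positivity) hr0]
    nlinarith [mul_nonneg (mul_nonneg hr0.le hr0.le) hz0, mul_nonneg hr0.le hr0.le,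
      mul_le_mul_of_nonneg_left hr hr0.le]
  have h2 : 3 * (D * μ + y ^ 2 + 1) / μ ^ 2 ≤ 3 * (D + z ^ 2 + 1) / r := by
    rw [← hμ, hyz, div_le_div_iff₀ (by positivity) hr0]
    have g1 : r ^ 2 ≤ (r ^ 2) ^ 2 := by
      have : 1 ≤ r ^ 2 := one_le_pow₀ hr
      nlinarith
    have g2 : (D * r ^ 2 + (z * r) ^ 2 + 1) * r ≤ (D + z ^ 2 + 1) * (r ^ 2 * r) := by
      have : 1 ≤ r ^ 2 := one_le_pow₀ hr
      nlinarith
    have g3 : r ^ 2 * r ≤ (r ^ 2) ^ 2 := by
      have : (r ^ 2) ^ 2 = r ^ 2 * r * r := by ring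
      rw [this]
      have : 0 ≤ r ^ 2 * r := by positivity
      nlinarith
    have g4 : 0 ≤ D + z ^ 2 + 1 := by positivity
    have g5 := mul_le_mul_of_nonneg_left g3 g4
    linarith
  have h3 : C3' * D * y / μ = C3' * D * z / r := by
    rw [← hμ, hyz]; field_simp
  rw [h3]
  have h4 : z ≤ 1 + z ^ 2 := by nlinarith [sq_nonneg (z - 1)]
  have h5 : z ^ 2 ≤ 1 + z ^ 10 := by
    rcases le_total z 1 with h | h
    · have : z ^ 2 ≤ 1 := pow_le_one₀ hz0 h
      have : 0 ≤ z ^ 10 := by positivity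
      linarith
    · have : z ^ 2 ≤ z ^ 10 := pow_le_pow_right₀ h (by norm_num)
      linarith
  have h6 : 1 + z ^ 10 ≤ (1 + 1 / e) * (1 + e * z ^ 10) := by
    have : (1 + 1 / e) * (1 + e * z ^ 10) = 1 + z ^ 10 + 1 / e + e * z ^ 10 := by
      field_simp; ring
    rw [this]
    have : 0 ≤ 1 / e := by positivity
    have : 0 ≤ e * z ^ 10 := by positivity
    linarith
  have h7 : C2 * ((D + z + 1) / r + 3 * (D + z ^ 2 + 1) / r) + C3' * D * z / r =
      (C2 * (D + z + 1 + 3 * (D + z ^ 2 + 1)) + C3' * D * z) / r := by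
    field_simp
  have h8 : C2 * (D + z + 1 + 3 * (D + z ^ 2 + 1)) + C3' * D * z ≤
      (C2 * (4 * D + 9) + C3' * D) * (1 + z ^ 2) := by
    have g1 : 0 ≤ z ^ 2 := sq_nonneg z
    have g2 : C2 * (D + z + 1 + 3 * (D + z ^ 2 + 1)) ≤ C2 * ((4 * D + 9) * (1 + z ^ 2)) := by
      apply mul_le_mul_of_nonneg_left _ hC2
      nlinarith
    have g3 : C3' * D * z ≤ C3' * D * (1 + z ^ 2) :=
      mul_le_mul_of_nonneg_left h4 (by positivity)
    linarith
  have h9 : 1 + z ^ 2 ≤ 2 * ((1 + 1 / e) * (1 + e * z ^ 10)) := by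
    have : 0 ≤ z ^ 10 := by positivity
    linarith
  have hP : 0 ≤ C2 * (4 * D + 9) + C3' * D := by positivity
  calc _ ≤ C2 * ((D + z + 1) / r + 3 * (D + z ^ 2 + 1) / r) + C3' * D * z / r := by
        have := mul_le_mul_of_nonneg_left (add_le_add h1 h2) hC2
        linarith
    _ = _ := h7
    _ ≤ ((C2 * (4 * D + 9) + C3' * D) * (2 * ((1 + 1 / e) * (1 + e * z ^ 10)))) / r := by
        apply div_le_div_of_nonneg_right _ hr0.le
        exact h8.trans (mul_le_mul_of_nonneg_left h9 hP)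
    _ = _ := by ring

/-- `I n` is nearly constant near `2 μ`. -/
lemma rho_one {D1 μ c0 ρ x : ℝ} (hD1 : 0 < D1) (hμ : 10 ≤ μ) (hc0 : |c0| ≤ D1 / μ) (hρ0 : 0 ≤ ρ)
    (hρ : ρ ≤ 9 / 2)
    (h : |ρ - (1 + c0 - 3 / 4 * (x / μ) + 15 / 32 * (x / μ) ^ 2)| ≤
      D1 * (|x| ^ 3 / μ ^ 3 + |x| / μ ^ 2 + 1 / μ ^ 2)) :
    |ρ - 1| ≤ (6 + 4 * D1) * ((|x| + 1) / μ) := by
  have hμ0 : 0 < μ := by linarith
  set t := |x| / μ with ht
  have ht0 : 0 ≤ t := by positivity
  have e0 : (|x| + 1) / μ = t + 1 / μ := by rw [ht]; ring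
  rw [e0]
  have hi : 0 ≤ 1 / μ := by positivity
  have hi1 : 1 / μ ≤ 1 := by rw [div_le_one hμ0]; linarith
  rcases le_or_gt t 1 with h1 | h1
  · have e1 : |x| ^ 3 / μ ^ 3 = t ^ 3 := by rw [ht, div_pow]
    have e2 : |x| / μ ^ 2 = t * (1 / μ) := by rw [ht]; field_simp
    have e3 : 1 / μ ^ 2 = (1 / μ) ^ 2 := by rw [div_pow, one_pow]
    rw [e1, e2, e3] at h
    have e4 : D1 / μ = D1 * (1 / μ) := by ring
    rw [e4] at hc0
    have e5 : |x / μ| = t := by rw [abs_div, abs_of_pos hμ0]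
    have e6 : (x / μ) ^ 2 = t ^ 2 := by rw [← e5, sq_abs]
    rw [e6] at h
    have h2 := abs_le.1 h
    have h3 := abs_le.1 hc0
    have h4 : |x / μ| ≤ t := e5.le
    have h5 := abs_le.1 h4
    have h6 : t ^ 3 ≤ t := by
      have : t ^ 3 = t * (t * t) := by ring
      rw [this]; nlinarith [mul_nonneg ht0 ht0]
    have h7 : t * (1 / μ) ≤ t := by nlinarith
    have h8 : (1 / μ) ^ 2 ≤ 1 / μ := by nlinarith
    have h9 : t ^ 2 ≤ t := by nlinarith
    have h10 : 0 ≤ t ^ 2 := sq_nonneg t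
    have h11 : D1 * (t ^ 3 + t * (1 / μ) + (1 / μ) ^ 2) ≤ D1 * (2 * t + 1 / μ) :=
      mul_le_mul_of_nonneg_left (by linarith) hD1.le
    have h12 : 0 ≤ D1 * t := by positivity
    have h13 : 0 ≤ D1 * (1 / μ) := by positivity
    rw [abs_le]
    constructor <;> nlinarith
  · have h2 : |ρ - 1| ≤ 9 / 2 := by rw [abs_le]; constructor <;> linarith
    have h3 : 0 ≤ D1 * (t + 1 / μ) := by positivity
    nlinarith

/-- Second differences: general estimate. -/
lemma genA (C3 C8 A e : ℝ) (hC8 : 1 ≤ C8) (hA0 : 0 ≤ A) (he : 0 < e) :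
    ∃ D M : ℝ, 0 < D ∧ 10 ≤ M ∧ ∀ a : ℕ → ℝ, Cls C3 C8 a → M ≤ mean a →
    ∀ (f : ℕ → ℕ → ℝ) (c : ℝ), PB2 f → |c| ≤ 1 →
    (∀ K L : ℕ, 3 / 4 * mean a ≤ (K:ℝ) + L →
      |f K L - c| ≤ A * (uu (mean a) K L / mean a + uu (mean a) K L ^ 2 / mean a ^ 2)) →
    (∀ K L : ℕ, (K:ℝ) + L < 3 / 4 * mean a → |f K L| ≤ A * mean a ^ 2) →
    ∀ L : ℕ, |2 * E a (fun K => I (K + L) * f K L) / E2 a (fun K L => I (K + L)) - 2 * c| ≤
      D / √(mean a) * wt e (mean a) L := by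
  obtain ⟨D, hD1, hmom⟩ := momT C8 hC8
  obtain ⟨D1, hD10, hrho⟩ := bRHO
  set C1 := 6 + 4 * D1 with hC1
  set C2 := C1 + 9 / 2 * A with hC2
  set C4 := (D1 * A + 1) * 4 ^ 9 with hC4
  set C5 := (C2 * (4 * D + 9) + C4 * D) * (2 * (1 + 1 / e)) with hC5
  set C6 := C1 * D + (D1 + 1) * 4 ^ 6 * D with hC6
  have hC10 : 0 < C1 := by positivity
  have hC20 : 0 < C2 := by positivity
  have hC40 : 0 < C4 := by positivity
  have hC50 : 0 < C5 := by positivity
  have hC60 : 0 < C6 := by positivity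
  refine ⟨4 * (C5 + C6), 10 + D + (2 * C6) ^ 2, by positivity, by nlinarith [sq_nonneg (2 * C6)], ?_⟩
  intro a ha hM f c hf hc hgood hbad L
  have hsqC : 0 ≤ (2 * C6) ^ 2 := sq_nonneg _
  obtain ⟨-, hE2u, hEx, -⟩ := hmom C3 a ha (by linarith) (by linarith)
  have ham : AM a := ha.toAM
  set μ := mean a with hμ
  have hμ10 : 10 ≤ μ := by linarith
  have hμ0 : 0 < μ := by linarith
  obtain ⟨I0, c0, hI0, hc0, hb1, hb2⟩ := hrho μ hμ10
  have hr1 : 1 ≤ √μ := by
    rw [Real.one_le_sqrt]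
    linarith
  have hrr : √μ ^ 2 = μ := Real.sq_sqrt hμ0.le
  set r := √μ with hr
  have hr0 : 0 < r := by linarith
  have hrC : 2 * C6 ≤ r := by
    rw [hr]
    apply Real.le_sqrt_of_sq_le
    linarith
  -- the normalised weight
  set ρ : ℕ → ℕ → ℝ := fun K L => I (K + L) / I0 with hρ
  have hρ0 : ∀ K L, 0 < ρ K L := fun K L => div_pos (I_pos _) hI0
  have pρ : PB2 ρ := PB2.I.div_const I0
  have hρ1 : ∀ K L : ℕ, 3 / 4 * μ ≤ (K:ℝ) + L → |ρ K L - 1| ≤ C1 * (uu μ K L / μ) ∧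
      ρ K L ≤ 9 / 2 := by
    intro K L h
    obtain ⟨h1, h2⟩ := hb2 (K + L) (by push_cast; exact h)
    push_cast at h2
    refine ⟨(rho_one hD10 hμ10 hc0 (hρ0 K L).le h1 h2).trans ?_, h1⟩
    apply mul_le_mul_of_nonneg_left _ hC10.le
    apply div_le_div_of_nonneg_right _ hμ0.le
    have := X_le_U μ K L
    unfold X at this
    unfold uu
    linarith
  -- normalisation
  have hZ : |E2 a ρ - 1| ≤ C6 / r := by
    have p1 : PB2 (fun K L => ρ K L - 1) := pρ.sub (PB2.const 1)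
    have e1 : E2 a ρ - 1 = E2 a (fun K L => ρ K L - 1) := by
      rw [ham.E2_sub pρ (PB2.const 1), ham.E2_cst]
    rw [e1]
    have p2 : PB2 (fun K L => C1 / μ * uu μ K L ^ 1) := (PB2.const _).mul ((pb_uu μ).pow 1)
    have p3 : PB2 (fun K L => ((D1 + 1) * μ ^ 2) * (4 / μ) ^ 6 * uu μ K L ^ 6) :=
      (PB2.const _).mul ((pb_uu μ).pow 6)
    refine (ham.abs_E2_le p1).trans ?_
    have h3 := ham.E2_mono p1.abs (p2.add p3) (fun K L => by
      have hu := uu_one μ K L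
      rcases le_or_gt (3 / 4 * μ) ((K:ℝ) + L) with h | h
      · have h4 := (hρ1 K L h).1
        have : 0 ≤ ((D1 + 1) * μ ^ 2) * (4 / μ) ^ 6 * uu μ K L ^ 6 := by positivity
        have e2 : C1 / μ * uu μ K L ^ 1 = C1 * (uu μ K L / μ) := by rw [pow_one]; ring
        rw [e2]; linarith
      · have h5 : |ρ K L - 1| ≤ (D1 + 1) * μ ^ 2 := by
          have h6 := hb1 (K + L)
          have h7 := hρ0 K L
          have h8 : 1 ≤ μ ^ 2 := one_le_pow₀ (by linarith)
          have h9 : ρ K L ≤ D1 * μ ^ 2 := h6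
          have h10 : 0 ≤ D1 * μ ^ 2 := by positivity
          rw [abs_le]; constructor <;> nlinarith
        have h6 := mul_le_mul_of_nonneg_left (bad_big hμ0 h)
          (show 0 ≤ (D1 + 1) * μ ^ 2 by positivity)
        have : 0 ≤ C1 / μ * uu μ K L ^ 1 := by positivity
        nlinarith)
    rw [ham.E2_add p2 p3, E2_const_mul, E2_const_mul] at h3
    have h4 := hE2u 1 (by norm_num)
    have h5 := hE2u 6 (by norm_num)
    rw [pow_one] at h4
    have h6 : r ^ 6 = μ ^ 3 := by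
      calc r ^ 6 = (r ^ 2) ^ 3 := by ring
        _ = _ := by rw [hrr]
    rw [h6] at h5
    have h7 : C1 / μ * E2 a (fun K L => uu μ K L ^ 1) ≤ C1 / μ * (D * r) :=
      mul_le_mul_of_nonneg_left h4 (by positivity)
    have h8 : C1 / μ * (D * r) = C1 * D / r := by
      rw [← hrr]; field_simp
    have h9 : (D1 + 1) * μ ^ 2 * (4 / μ) ^ 6 * E2 a (fun K L => uu μ K L ^ 6) ≤
        (D1 + 1) * μ ^ 2 * (4 / μ) ^ 6 * (D * μ ^ 3) :=
      mul_le_mul_of_nonneg_left h5 (by positivity)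
    have h10 : (D1 + 1) * μ ^ 2 * (4 / μ) ^ 6 * (D * μ ^ 3) = (D1 + 1) * 4 ^ 6 * D / μ := by
      field_simp
    have h11 : (D1 + 1) * 4 ^ 6 * D / μ ≤ (D1 + 1) * 4 ^ 6 * D / r := by
      apply div_le_div_of_nonneg_left (by positivity) hr0
      rw [← hrr]; nlinarith
    have h12 : C6 / r = C1 * D / r + (D1 + 1) * 4 ^ 6 * D / r := by rw [hC6]; ring
    rw [h12]
    linarith
  -- the numerator
  have hN : |E a (fun K => ρ K L * f K L) - c| ≤ C5 / r * wt e μ L := by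
    have ps : PB (fun K => ρ K L * f K L) := pb2_sec (pρ.mul hf) L
    have p1 : PB (fun K => ρ K L * f K L - c) := ps.sub (PB.const c)
    have e1 : E a (fun K => ρ K L * f K L) - c = E a (fun K => ρ K L * f K L - c) := by
      rw [ham.E_sub ps (PB.const c), ham.toLaw.E_const]
    rw [e1]
    set y := |(L:ℝ) - μ| with hy
    have hy0 : 0 ≤ y := abs_nonneg _
    have px : ∀ p, PB (fun K => |(K:ℝ) - μ| ^ p) := fun p => ((PB.id.sub (PB.const μ)).abs).pow p
    -- pointwise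
    have hpt : ∀ K : ℕ, |ρ K L * f K L - c| ≤
        C2 * ((|(K:ℝ) - μ| ^ 1 + (y + 1)) / μ + 3 * (|(K:ℝ) - μ| ^ 2 + (y ^ 2 + 1)) / μ ^ 2) +
          C4 * y / μ ^ 5 * |(K:ℝ) - μ| ^ 8 := by
      intro K
      set x := |(K:ℝ) - μ| with hx
      have hx0 : 0 ≤ x := abs_nonneg _
      have hu : uu μ K L = x + y + 1 := rfl
      have hu2 : uu μ K L ^ 2 ≤ 3 * (x ^ 2 + (y ^ 2 + 1)) := by
        rw [hu]; nlinarith [sq_nonneg (x - y), sq_nonneg (x - 1), sq_nonneg (y - 1)]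
      rcases le_or_gt (3 / 4 * μ) ((K:ℝ) + L) with h | h
      · obtain ⟨h1, h2⟩ := hρ1 K L h
        have h3 := hgood K L h
        have e2 : ρ K L * f K L - c = (ρ K L - 1) * c + ρ K L * (f K L - c) := by ring
        have h4 : |ρ K L * f K L - c| ≤ C1 * (uu μ K L / μ) * 1 +
            9 / 2 * (A * (uu μ K L / μ + uu μ K L ^ 2 / μ ^ 2)) := by
          rw [e2]
          refine (abs_add_le _ _).trans (add_le_add ?_ ?_)
          · rw [abs_mul]
            exact mul_le_mul h1 hc (abs_nonneg _) (by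
              have := uu_one μ K L
              positivity)
          · rw [abs_mul, abs_of_pos (hρ0 K L)]
            exact mul_le_mul h2 h3 (abs_nonneg _) (by norm_num)
        have h5 : 0 ≤ C4 * y / μ ^ 5 * x ^ 8 := by positivity
        have h6 : uu μ K L / μ = (x ^ 1 + (y + 1)) / μ := by rw [hu]; ring
        have h7 : uu μ K L ^ 2 / μ ^ 2 ≤ 3 * (x ^ 2 + (y ^ 2 + 1)) / μ ^ 2 :=
          div_le_div_of_nonneg_right hu2 (by positivity)
        rw [h6] at h4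
        set p := (x ^ 1 + (y + 1)) / μ
        set q := uu μ K L ^ 2 / μ ^ 2
        have hp : 0 ≤ p := by positivity
        have hq : 0 ≤ q := by have := uu_one μ K L; positivity
        have h8 : C2 * (p + q) ≤ C2 * (p + 3 * (x ^ 2 + (y ^ 2 + 1)) / μ ^ 2) :=
          mul_le_mul_of_nonneg_left (by linarith) hC20.le
        have h9 : C2 * (p + q) = C1 * p + 9 / 2 * (A * (p + q)) + C1 * q := by rw [hC2]; ring
        have h10 : 0 ≤ C1 * q := by positivity
        linarith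
      · have hK : (0:ℝ) ≤ K := Nat.cast_nonneg K
        have hL : (0:ℝ) ≤ L := Nat.cast_nonneg L
        have h1 := hbad K L h
        have h2 := hb1 (K + L)
        have h3 : |ρ K L * f K L - c| ≤ (D1 * A + 1) * μ ^ 4 := by
          have h4 : |ρ K L * f K L| ≤ (D1 * μ ^ 2) * (A * μ ^ 2) := by
            rw [abs_mul, abs_of_pos (hρ0 K L)]
            exact mul_le_mul h2 h1 (abs_nonneg _) (by positivity)
          have h5 : |ρ K L * f K L - c| ≤ |ρ K L * f K L| + |c| := abs_sub _ _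
          have h6 : 1 ≤ μ ^ 4 := one_le_pow₀ (by linarith)
          nlinarith
        have hxl : μ / 4 ≤ x := by
          have := neg_le_abs ((K:ℝ) - μ)
          rw [hx]; linarith
        have hyl : μ / 4 ≤ y := by
          have := neg_le_abs ((L:ℝ) - μ)
          rw [hy]; linarith
        have h4 : (μ / 4) ^ 8 * (μ / 4) ≤ x ^ 8 * y :=
          mul_le_mul (pow_le_pow_left₀ (by positivity) hxl 8) hyl (by positivity) (by positivity)
        have h5 : (D1 * A + 1) * μ ^ 4 ≤ C4 * y / μ ^ 5 * x ^ 8 := by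
          have e3 : C4 * y / μ ^ 5 * x ^ 8 = (D1 * A + 1) * 4 ^ 9 / μ ^ 5 * (x ^ 8 * y) := by
            rw [hC4]; ring
          rw [e3]
          have h6 : 0 ≤ (D1 * A + 1) * 4 ^ 9 / μ ^ 5 := by positivity
          refine le_trans (le_of_eq ?_) (mul_le_mul_of_nonneg_left h4 h6)
          field_simp
        have h6 : 0 ≤ C2 * ((x ^ 1 + (y + 1)) / μ + 3 * (x ^ 2 + (y ^ 2 + 1)) / μ ^ 2) := by
          positivity
        linarith
    have p2 : PB (fun K => |(K:ℝ) - μ| ^ 1 + (y + 1)) := (px 1).add (PB.const _)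
    have p3 : PB (fun K => |(K:ℝ) - μ| ^ 2 + (y ^ 2 + 1)) := (px 2).add (PB.const _)
    have hfun : (fun K : ℕ => C2 * ((|(K:ℝ) - μ| ^ 1 + (y + 1)) / μ +
        3 * (|(K:ℝ) - μ| ^ 2 + (y ^ 2 + 1)) / μ ^ 2) + C4 * y / μ ^ 5 * |(K:ℝ) - μ| ^ 8) =
        fun K : ℕ => (C2 / μ * (|(K:ℝ) - μ| ^ 1 + (y + 1)) +
          C2 * 3 / μ ^ 2 * (|(K:ℝ) - μ| ^ 2 + (y ^ 2 + 1))) +
          C4 * y / μ ^ 5 * |(K:ℝ) - μ| ^ 8 := by
      funext K; ring
    have hm := ham.E_mono p1.abs ((((pbCM (C2 / μ) p2).add (pbCM (C2 * 3 / μ ^ 2) p3))).add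
      (pbCM (C4 * y / μ ^ 5) (px 8))) (fun K => by
        have h1 := hpt K
        have h2 := congrFun hfun K
        rw [← h2]
        exact h1)
    rw [ham.E_add ((pbCM (C2 / μ) p2).add (pbCM (C2 * 3 / μ ^ 2) p3))
      (pbCM (C4 * y / μ ^ 5) (px 8)), ham.E_add (pbCM (C2 / μ) p2) (pbCM (C2 * 3 / μ ^ 2) p3),
      E_const_mul, E_const_mul, E_const_mul, ham.E_add (px 1) (PB.const _),
      ham.E_add (px 2) (PB.const _), ham.toLaw.E_const, ham.toLaw.E_const] at hm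
    have q1 := hEx 1 (by norm_num)
    have q2 := hEx 2 (by norm_num)
    have q8 := hEx 8 (by norm_num)
    have e8 : r ^ 8 = μ ^ 4 := by
      calc r ^ 8 = (r ^ 2) ^ 4 := by ring
        _ = _ := by rw [hrr]
    rw [pow_one r] at q1
    rw [hrr] at q2
    rw [e8] at q8
    have t1 : C2 / μ * (E a (fun K => |(K:ℝ) - μ| ^ 1) + (y + 1)) ≤
        C2 * ((D * r + y + 1) / μ) := by
      have : C2 * ((D * r + y + 1) / μ) = C2 / μ * (D * r + (y + 1)) := by ring
      rw [this]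
      exact mul_le_mul_of_nonneg_left (by linarith) (by positivity)
    have t2 : C2 * 3 / μ ^ 2 * (E a (fun K => |(K:ℝ) - μ| ^ 2) + (y ^ 2 + 1)) ≤
        C2 * (3 * (D * μ + y ^ 2 + 1) / μ ^ 2) := by
      have : C2 * (3 * (D * μ + y ^ 2 + 1) / μ ^ 2) = C2 * 3 / μ ^ 2 * (D * μ + (y ^ 2 + 1)) := by
        ring
      rw [this]
      exact mul_le_mul_of_nonneg_left (by linarith) (by positivity)
    have t3 : C4 * y / μ ^ 5 * E a (fun K => |(K:ℝ) - μ| ^ 8) ≤ C4 * D * y / μ := by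
      have : C4 * D * y / μ = C4 * y / μ ^ 5 * (D * μ ^ 4) := by field_simp
      rw [this]
      exact mul_le_mul_of_nonneg_left q8 (by positivity)
    have hw := wt_arith (C2 := C2) (C3' := C4) (D := D) (e := e) (r := r) (y := y) (μ := μ)
      hC20.le hC40.le hD1 he hr1 hrr hy0
    have hwt : wt e μ L = 1 + e * (y ^ 10 / μ ^ 5) := by
      unfold wt
      rw [hy, Even.pow_abs (by decide)]
    rw [hwt]
    refine (ham.abs_E_le p1).trans ?_
    have h0 : C5 / r * (1 + e * (y ^ 10 / μ ^ 5)) = (C2 * (4 * D + 9) + C4 * D) *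
      (2 * (1 + 1 / e)) / r * (1 + e * (y ^ 10 / μ ^ 5)) := by rw [hC5]
    rw [h0]
    refine le_trans ?_ hw
    linarith
  -- conclusion
  have hwt1 := wt_nn he.le hμ0 L
  have hZE : E2 a ρ = E2 a (fun K L => I (K + L)) / I0 := by
    have : ρ = fun K L => I0⁻¹ * I (K + L) := by
      funext K L; rw [hρ]; simp only; ring
    rw [this, E2_const_mul]; ring
  have hNE : E a (fun K => ρ K L * f K L) = E a (fun K => I (K + L) * f K L) / I0 := by
    have : (fun K => ρ K L * f K L) = fun K => I0⁻¹ * (I (K + L) * f K L) := by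
      funext K; rw [hρ]; simp only; ring
    rw [this, E_const_mul]; ring
  set Z' := E2 a ρ with hZ'
  set N := E a (fun K => ρ K L * f K L) with hNdef
  have hC6r : C6 / r ≤ 1 / 2 := by
    rw [div_le_iff₀ hr0]; linarith
  have hZh : 1 / 2 ≤ Z' := by
    have := abs_le.1 hZ
    linarith
  have hZpos := ham.Z_pos
  have e1 : 2 * E a (fun K => I (K + L) * f K L) / E2 a (fun K L => I (K + L)) = 2 * N / Z' := by
    rw [hZE, hNE]; field_simp
  rw [e1]
  have e2 : 2 * N / Z' - 2 * c = 2 * ((N - c) + c * (1 - Z')) / Z' := by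
    field_simp; ring
  rw [e2, abs_div, abs_of_pos (by linarith : 0 < Z'), div_le_iff₀ (by linarith), abs_mul,
    abs_of_pos (by norm_num : (0:ℝ) < 2)]
  have h1 : |N - c + c * (1 - Z')| ≤ C5 / r * wt e μ L + C6 / r := by
    refine (abs_add_le _ _).trans (add_le_add hN ?_)
    rw [abs_mul, abs_sub_comm 1 Z']
    calc |c| * |Z' - 1| ≤ 1 * (C6 / r) := mul_le_mul hc hZ (abs_nonneg _) (by norm_num)
      _ = _ := one_mul _
  have h2 : C6 / r ≤ C6 / r * wt e μ L := by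
    have : 0 ≤ C6 / r := by positivity
    nlinarith
  have h3 : 4 * (C5 + C6) / r * wt e μ L = 4 * (C5 / r * wt e μ L + C6 / r * wt e μ L) := by
    ring
  rw [h3]
  have h4 : 0 ≤ C5 / r * wt e μ L + C6 / r * wt e μ L := by positivity
  nlinarith

end Pool.Agent.Q280.MK
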