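import Pool.Agent.Q280.MK.SgK
import Pool.Agent.Q280.MK.TWT

/-!
# Toolkit for the response of `T` to shifts
-/

namespace Pool.Agent.Q280.MK

open Finset Pool.Agent.Q291.MK
open Pool.Agent.Q284.MK (hm_upper hm_lower pbK pbL vr_nonneg pb_hm gg iv gg_nonneg gg_le)
open Pool.Agent.Q61.MK (eng X U PB2_U Ew_up U_nonneg X_le_U Y_le_U PB2_X)
open Pool.Agent.Q150.MK (E2_iter)

/-- distance from `(μ, μ)`, plus one -/
noncomputable def uu (μ : ℝ) (K L : ℕ) : ℝ := U μ K L + 1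

lemma uu_one (μ : ℝ) (K L : ℕ) : 1 ≤ uu μ K L := by
  have := U_nonneg μ K L
  unfold uu; linarith

lemma pb_uu (μ : ℝ) : PB2 (uu μ) := (PB2_U μ).add (PB2.const 1)

lemma E2_swap {a : ℕ → ℝ} (φ : ℕ → ℕ → ℝ) : E2 a (fun K L => φ L K) = E2 a φ := by
  unfold E2
  rw [← (Equiv.prodComm ℕ ℕ).tsum_eq]
  refine tsum_congr fun p => ?_
  simp only [Equiv.prodComm_apply, Prod.fst_swap, Prod.snd_swap]
  ring

lemma Ew_swap {a : ℕ → ℝ} (φ : ℕ → ℕ → ℝ) : Ew a (fun K L => φ L K) = Ew a φ := by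
  unfold Ew
  congr 1
  rw [← E2_swap (fun K L => I (K + L) * φ K L)]
  congr 1
  funext K L
  rw [add_comm]

lemma pb2_sec {φ : ℕ → ℕ → ℝ} (h : PB2 φ) (L : ℕ) : PB (fun K => φ K L) := by
  obtain ⟨C, q, hC, h⟩ := h.nonneg_C
  refine ⟨C * (1 + (L:ℝ)) ^ q, q, fun K => (h K L).trans (le_of_eq ?_)⟩
  rw [mul_pow]; ring

lemma pb2_swap {φ : ℕ → ℕ → ℝ} (h : PB2 φ) : PB2 (fun K L => φ L K) := by
  obtain ⟨C, q, h⟩ := h
  refine ⟨C, q, fun K L => (h L K).trans (le_of_eq ?_)⟩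
  rw [mul_comm (1 + (L:ℝ))]

lemma pb2_add1 {φ : ℕ → ℕ → ℝ} (h : PB2 φ) : PB2 (fun K L => φ K (L + 1)) := by
  obtain ⟨C, q, hC, h⟩ := h.nonneg_C
  refine ⟨C * 2 ^ q, q, fun K L => (h K (L + 1)).trans ?_⟩
  have hK : (0:ℝ) ≤ K := Nat.cast_nonneg K
  have hL : (0:ℝ) ≤ L := Nat.cast_nonneg L
  have h2 : ((1 + (K:ℝ)) * (1 + ((L + 1 : ℕ) : ℝ))) ^ q ≤
      (2 * ((1 + (K:ℝ)) * (1 + (L:ℝ)))) ^ q := by
    apply pow_le_pow_left₀ (by positivity)
    push_cast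
    nlinarith
  calc C * ((1 + (K:ℝ)) * (1 + ((L + 1 : ℕ) : ℝ))) ^ q ≤
      C * (2 * ((1 + (K:ℝ)) * (1 + (L:ℝ)))) ^ q := by gcongr
    _ = C * 2 ^ q * ((1 + (K:ℝ)) * (1 + (L:ℝ))) ^ q := by rw [mul_pow]; ring

/-- Fubini. -/
lemma E_iter {a : ℕ → ℝ} (hA : AM a) {φ : ℕ → ℕ → ℝ} (h : PB2 φ) :
    E a (fun L => E a (fun K => φ K L)) = E2 a φ := by
  rw [← E2_swap φ, E2_iter hA (pb2_swap h)]
  rfl

/-- the function whose sections are averaged in `TT` -/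
noncomputable def gt (φ : ℕ → ℝ) (t : ℝ) (K L : ℕ) : ℝ := I (K + L) * (H K L φ - t)

lemma pb_gt {φ : ℕ → ℝ} {t : ℝ} (h : PB2 (fun K L => H K L φ)) : PB2 (gt φ t) :=
  PB2.I.mul (h.sub (PB2.const t))

lemma dl_TT {a : ℕ → ℝ} (hA : AM a) {φ : ℕ → ℝ} (h : PB2 (fun K L => H K L φ))
    (G : ℕ → ℕ → ℝ) (hG : ∀ K L, dl (fun L => gt φ (E (T a) φ) K L) L = G K L) (L : ℕ) :
    dl (TT a φ) L = 2 * E a (fun K => G K L) / E2 a (fun K L => I (K + L)) := by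
  have hp := pb_gt (t := E (T a) φ) h
  have h1 : E a (fun K => G K L) = E a (fun K => gt φ (E (T a) φ) K (L + 1)) -
      E a (fun K => gt φ (E (T a) φ) K L) := by
    rw [← hA.E_sub (pb2_sec (pb2_add1 hp) L) (pb2_sec hp L)]
    congr 1
    funext K
    rw [← hG K L]
    rfl
  rw [h1]
  unfold dl TT
  change 2 * E a (fun K => gt φ (E (T a) φ) K (L + 1)) / _ -
    2 * E a (fun K => gt φ (E (T a) φ) K L) / _ = _
  ring

lemma pb2_dl {g : ℕ → ℕ → ℝ} (h : PB2 g) : PB2 (fun K L => dl (fun L => g K L) L) :=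
  (pb2_add1 h).sub h

lemma dldl_TT {a : ℕ → ℝ} (hA : AM a) {φ : ℕ → ℝ} (h : PB2 (fun K L => H K L φ))
    (G : ℕ → ℕ → ℝ) (hG : ∀ K L, dl (dl (fun L => gt φ (E (T a) φ) K L)) L = G K L) (L : ℕ) :
    dl (dl (TT a φ)) L = 2 * E a (fun K => G K L) / E2 a (fun K L => I (K + L)) := by
  have hp := pb2_dl (pb_gt (t := E (T a) φ) h)
  have h1 : E a (fun K => G K L) =
      E a (fun K => dl (fun L => gt φ (E (T a) φ) K L) (L + 1)) -
      E a (fun K => dl (fun L => gt φ (E (T a) φ) K L) L) := by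
    rw [← hA.E_sub (pb2_sec (pb2_add1 hp) L) (pb2_sec hp L)]
    congr 1
    funext K
    rw [← hG K L]
    rfl
  have h2 : dl (dl (TT a φ)) L = dl (TT a φ) (L + 1) - dl (TT a φ) L := rfl
  rw [h2, dl_TT hA h _ (fun K L => rfl) (L + 1), dl_TT hA h _ (fun K L => rfl) L, h1]
  ring

/-! ### Moments -/

lemma bad_big {μ : ℝ} (hμ : 0 < μ) {K L : ℕ} (h : (K:ℝ) + L < 3 / 4 * μ) :
    1 ≤ (4 / μ) ^ 6 * uu μ K L ^ 6 := by
  have hK : (0:ℝ) ≤ K := Nat.cast_nonneg K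
  have hL : (0:ℝ) ≤ L := Nat.cast_nonneg L
  rw [← mul_pow]
  apply one_le_pow₀
  rw [div_mul_eq_mul_div, le_div_iff₀ hμ]
  unfold uu U
  have := neg_le_abs ((K:ℝ) - μ)
  have := neg_le_abs ((L:ℝ) - μ)
  linarith

lemma momT : ∀ C8 : ℝ, 1 ≤ C8 → ∃ D : ℝ, 1 ≤ D ∧
    ∀ (C3 : ℝ) (a : ℕ → ℝ), Cls C3 C8 a → 10 ≤ mean a → D ≤ mean a →
    (∀ p : ℕ, p ≤ 6 → Ew a (fun K L => uu (mean a) K L ^ p) ≤ D * √(mean a) ^ p) ∧
    (∀ p : ℕ, p ≤ 8 → E2 a (fun K L => uu (mean a) K L ^ p) ≤ D * √(mean a) ^ p) ∧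
    (∀ p : ℕ, p ≤ 8 → E a (fun K => |(K:ℝ) - mean a| ^ p) ≤ D * √(mean a) ^ p) ∧
    (∀ (f g : ℕ → ℕ → ℝ) (B : ℝ), PB2 f → PB2 g → 0 ≤ B → (∀ K L, 0 ≤ g K L) →
      (∀ K L : ℕ, 3 / 4 * mean a ≤ (K:ℝ) + L → |f K L| ≤ g K L) →
      (∀ K L : ℕ, (K:ℝ) + L < 3 / 4 * mean a → |f K L| ≤ B) →
      |Ew a f| ≤ Ew a g + D * B / mean a ^ 3) := by
  intro C8 hC8
  obtain ⟨D, hD1, heng⟩ := eng bEXPM bEXPA C8 hC8
  refine ⟨4 ^ 6 * (2000 * D), by linarith, ?_⟩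
  intro C3 a ha hμ10 hμD
  obtain ⟨hmom, -, Z0, c0, hZ0, -, hZ, hexp⟩ := heng C3 a ha (by linarith) (by linarith)
  have ham : AM a := ha.toAM
  set μ := mean a with hμ
  have hμ0 : 0 < μ := by linarith
  have hd : D / μ ≤ 1 / 20 := by
    rw [div_le_iff₀ hμ0]
    linarith
  have hr1 : 1 ≤ √μ := by
    rw [Real.one_le_sqrt]
    linarith
  have hrr : √μ ^ 2 = μ := Real.sq_sqrt hμ0.le
  have h2 : ∀ p : ℕ, p ≤ 8 → E2 a (fun K L => uu μ K L ^ p) ≤ 256 * D * √μ ^ p := by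
    intro p hp
    have h3 := ham.E2_mono ((pb_uu μ).pow p) (((PB2.const 128).mul ((PB2_U μ).pow p)).add
      (PB2.const 128)) (fun K L => by
        have e3 := add_pow_le (U_nonneg μ K L) zero_le_one p
        have e4 : (2:ℝ) ^ (p - 1) ≤ 128 := by
          calc (2:ℝ) ^ (p - 1) ≤ 2 ^ 7 := pow_le_pow_right₀ (by norm_num) (by omega)
            _ = 128 := by norm_num
        have e5 : 0 ≤ U μ K L ^ p := pow_nonneg (U_nonneg μ K L) p
        rw [one_pow] at e3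
        have e6 : (2:ℝ) ^ (p - 1) * (U μ K L ^ p + 1) ≤ 128 * (U μ K L ^ p + 1) :=
          mul_le_mul_of_nonneg_right e4 (by linarith)
        show (U μ K L + 1) ^ p ≤ _
        linarith)
    rw [ham.E2_add ((PB2.const 128).mul ((PB2_U μ).pow p)) (PB2.const 128), E2_const_mul,
      ham.E2_cst] at h3
    have h4 := hmom p hp
    have h5 : 1 ≤ √μ ^ p := one_le_pow₀ hr1
    nlinarith
  have h1 : ∀ p : ℕ, p ≤ 6 → Ew a (fun K L => uu μ K L ^ p) ≤ 2000 * D * √μ ^ p := by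
    intro p hp
    have h5 : 1 ≤ √μ ^ p := one_le_pow₀ hr1
    have hu0 : ∀ K L, 0 ≤ uu μ K L := fun K L => by have := uu_one μ K L; linarith
    obtain ⟨-, q1⟩ := hexp (fun K L => uu μ K L ^ p) ((3 * μ) ^ p) ((pb_uu μ).pow p)
      (by positivity) (fun K L h => by
        have hK : (0:ℝ) ≤ K := Nat.cast_nonneg K
        have hL : (0:ℝ) ≤ L := Nat.cast_nonneg L
        rw [abs_of_nonneg (pow_nonneg (hu0 K L) p)]
        refine pow_le_pow_left₀ (hu0 K L) ?_ p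
        unfold uu U
        have e1 : |(K:ℝ) - μ| ≤ μ := by rw [abs_le]; constructor <;> linarith
        have e2 : |(L:ℝ) - μ| ≤ μ := by rw [abs_le]; constructor <;> linarith
        linarith)
    have e1 : (fun K L : ℕ => I (K + L) * |uu μ K L ^ p|) =
        fun K L => I (K + L) * uu μ K L ^ p := by
      funext K L; rw [abs_of_nonneg (pow_nonneg (hu0 K L) p)]
    have e2 : (fun K L : ℕ => |uu μ K L ^ p|) = fun K L => uu μ K L ^ p := by
      funext K L; rw [abs_of_nonneg (pow_nonneg (hu0 K L) p)]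
    rw [e1, e2] at q1
    have h6 := h2 p (by omega)
    have h7 : D * (3 * μ) ^ p / μ ^ 6 ≤ 729 * D := by
      rw [div_le_iff₀ (by positivity), mul_pow]
      have g1 : (3:ℝ) ^ p ≤ 729 := by
        calc (3:ℝ) ^ p ≤ 3 ^ 6 := pow_le_pow_right₀ (by norm_num) hp
          _ = 729 := by norm_num
      have g2 : μ ^ p ≤ μ ^ 6 := pow_le_pow_right₀ (by linarith) hp
      have g3 : (3:ℝ) ^ p * μ ^ p ≤ 729 * μ ^ 6 := mul_le_mul g1 g2 (by positivity) (by norm_num)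
      have := mul_le_mul_of_nonneg_left g3 (show 0 ≤ D by linarith)
      linarith
    have h8 := Ew_up hZ hd hZ0 (u := 9 / 2 * (256 * D * √μ ^ p) + 729 * D)
      (q1.trans (by linarith)) (by positivity)
    refine (show Ew a (fun K L => uu μ K L ^ p) ≤ _ from h8).trans ?_
    nlinarith
  refine ⟨fun p hp => ?_, fun p hp => ?_, fun p hp => ?_, ?_⟩
  · refine (h1 p hp).trans ?_
    have h5 : 0 ≤ D * √μ ^ p := by positivity
    nlinarith
  · refine (h2 p hp).trans ?_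
    have h5 : 0 ≤ D * √μ ^ p := by positivity
    nlinarith
  · have p1 : PB (fun K => |(K:ℝ) - μ| ^ p) := ((PB.id.sub (PB.const μ)).abs).pow p
    rw [← ham.E2_fst p1]
    refine (ham.E2_mono (PB2.fst p1) ((PB2_U μ).pow p) fun K L => ?_).trans ((hmom p hp).trans ?_)
    · refine pow_le_pow_left₀ (abs_nonneg _) ?_ p
      unfold U
      have := abs_nonneg ((L:ℝ) - μ)
      linarith
    · have h5 : 0 ≤ D * √μ ^ p := by positivity
      nlinarith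
  · intro f g B hf hg hB hg0 hgood hbad
    have p6 : PB2 (fun K L => (B * (4 / μ) ^ 6) * uu μ K L ^ 6) :=
      (PB2.const _).mul ((pb_uu μ).pow 6)
    have h3 := ham.abs_Ew_le hf
    have h4 := ham.Ew_mono hf.abs (hg.add p6) (fun K L => by
      have hu0 : 0 ≤ uu μ K L := by have := uu_one μ K L; linarith
      rcases le_or_gt (3 / 4 * μ) ((K:ℝ) + L) with h | h
      · have := hgood K L h
        have : 0 ≤ (B * (4 / μ) ^ 6) * uu μ K L ^ 6 := by positivity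
        linarith
      · have h5 := hbad K L h
        have h6 := mul_le_mul_of_nonneg_left (bad_big hμ0 h) hB
        have := hg0 K L
        nlinarith)
    rw [ham.Ew_add hg p6, Ew_const_mul] at h4
    have h5 := h1 6 le_rfl
    have h6 : √μ ^ 6 = μ ^ 3 := by
      calc √μ ^ 6 = (√μ ^ 2) ^ 3 := by ring
        _ = _ := by rw [hrr]
    rw [h6] at h5
    have h7 : B * (4 / μ) ^ 6 * Ew a (fun K L => uu μ K L ^ 6) ≤
        B * (4 / μ) ^ 6 * (2000 * D * μ ^ 3) := mul_le_mul_of_nonneg_left h5 (by positivity)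
    have h8 : B * (4 / μ) ^ 6 * (2000 * D * μ ^ 3) = 4 ^ 6 * (2000 * D) * B / μ ^ 3 := by
      field_simp
    linarith

end Pool.Agent.Q280.MK
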