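import Pool.Agent.Q280.MK.GenA

/-!
# Pointwise bounds
-/

namespace Pool.Agent.Q280.MK

open Finset Pool.Agent.Q291.MK
open Pool.Agent.Q284.MK (hm_upper hm_lower pbK pbL vr_nonneg pb_hm gg iv gg_nonneg gg_le pb_gg
  pb_iv XX pb_XX four_hm)
open Pool.Agent.Q61.MK (X U PB2_U U_nonneg X_le_U Y_le_U)

noncomputable def kk (K L : ℕ) : ℝ := (K:ℝ) * (K + 1/2) / (((K:ℝ) + L + 1/2) * ((K:ℝ) + L + 3))

noncomputable def ks (K L : ℕ) : ℝ :=
  (((K:ℝ) + L) ^ 2 + ((K:ℝ) + L) + ((K:ℝ) - L) ^ 2) / (4 * (((K:ℝ) + L + 1/2) * ((K:ℝ) + L + 3)))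

noncomputable def jv (K L : ℕ) : ℝ := 1 / ((K:ℝ) + L + 3)
noncomputable def jw (K L : ℕ) : ℝ := 1 / (((K:ℝ) + L + 1/2) * ((K:ℝ) + L + 3))

lemma kk_nonneg (K L : ℕ) : 0 ≤ kk K L := by unfold kk; positivity
lemma kk_le (K L : ℕ) : kk K L ≤ 1 := by
  have hK : (0:ℝ) ≤ K := Nat.cast_nonneg K
  have hL : (0:ℝ) ≤ L := Nat.cast_nonneg L
  unfold kk
  rw [div_le_one (by positivity)]
  nlinarith [mul_nonneg hK hL, mul_nonneg hL hL]

lemma pb_kk : PB2 kk := PB2.bdd 1 fun K L => by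
  rw [abs_of_nonneg (kk_nonneg K L)]; exact kk_le K L

lemma jv_pos (K L : ℕ) : 0 < jv K L := by unfold jv; positivity
lemma jv_le (K L : ℕ) : jv K L ≤ 1 / 3 := by
  unfold jv
  have hK : (0:ℝ) ≤ K := Nat.cast_nonneg K
  have hL : (0:ℝ) ≤ L := Nat.cast_nonneg L
  apply one_div_le_one_div_of_le (by norm_num)
  linarith
lemma pb_jv : PB2 jv := PB2.bdd 1 fun K L => by
  rw [abs_of_pos (jv_pos K L)]; have := jv_le K L; linarith

lemma jw_pos (K L : ℕ) : 0 < jw K L := by unfold jw; positivity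
lemma jw_le (K L : ℕ) : jw K L ≤ 1 := by
  unfold jw
  have hK : (0:ℝ) ≤ K := Nat.cast_nonneg K
  have hL : (0:ℝ) ≤ L := Nat.cast_nonneg L
  rw [div_le_one (by positivity)]
  nlinarith [mul_nonneg hK hL]
lemma pb_jw : PB2 jw := PB2.bdd 1 fun K L => by
  rw [abs_of_pos (jw_pos K L)]; exact jw_le K L

lemma kk_sym (K L : ℕ) : kk K L + kk L K = 2 * ks K L := by
  unfold kk ks
  have h1 : ((K:ℝ) + L + 1/2) ≠ 0 := by positivity
  have h2 : ((K:ℝ) + L + 3) ≠ 0 := by positivity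
  have e : (L:ℝ) + K = K + L := add_comm _ _
  rw [e]
  field_simp
  ring

lemma ks_eq (K L : ℕ) : ks K L = 1/4 - 5/8 * jv K L - 1/16 * jw K L + 1/4 * (gg K L * jv K L) := by
  unfold ks jv jw gg
  have h1 : ((K:ℝ) + L + 1/2) ≠ 0 := by positivity
  have h2 : ((K:ℝ) + L + 3) ≠ 0 := by positivity
  field_simp
  ring

lemma pb_ks : PB2 ks := by
  have h := (((PB2.const (1/4)).sub ((PB2.const (5/8)).mul pb_jv)).sub
    ((PB2.const (1/16)).mul pb_jw)).add ((PB2.const (1/4)).mul (pb_gg.mul pb_jv))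
  have e : (fun K L => 1/4 - 5/8 * jv K L - 1/16 * jw K L + 1/4 * (gg K L * jv K L)) = ks := by
    funext K L; exact (ks_eq K L).symm
  rw [e] at h; exact h

lemma ks_nonneg (K L : ℕ) : 0 ≤ ks K L := by
  have h1 := kk_sym K L
  have h2 := kk_nonneg K L
  have h3 := kk_nonneg L K
  linarith

lemma ks_le (K L : ℕ) : ks K L ≤ 1 := by
  have h1 := kk_sym K L
  have h2 := kk_le K L
  have h3 := kk_le L K
  linarith

section pw
variable {μ : ℝ} {K L : ℕ}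

lemma bad_uu (hμ : 10 ≤ μ) (h : (K:ℝ) + L < 3 / 4 * μ) : uu μ K L ≤ 3 * μ := by
  have hK : (0:ℝ) ≤ K := Nat.cast_nonneg K
  have hL : (0:ℝ) ≤ L := Nat.cast_nonneg L
  unfold uu U
  have e1 : |(K:ℝ) - μ| ≤ μ := by rw [abs_le]; constructor <;> linarith
  have e2 : |(L:ℝ) - μ| ≤ μ := by rw [abs_le]; constructor <;> linarith
  linarith

lemma X_uu : |(K:ℝ) + L - 2 * μ| ≤ uu μ K L - 1 := by
  have := X_le_U μ K L
  unfold X at this
  unfold uu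
  linarith

lemma Y_uu : |(K:ℝ) - L| ≤ uu μ K L - 1 := by
  have := Y_le_U μ K L
  unfold uu
  linarith

lemma w_le {m' : ℝ} (hm' : |m' - μ / 2| ≤ 1) : |hm K L - m'| ≤ 2 * uu μ K L := by
  have h1 := hm_upper K L μ
  have h2 := hm_lower K L μ
  have h3 : max |(K:ℝ) - μ| |(L:ℝ) - μ| ≤ U μ K L := by
    unfold U
    rcases max_choice |(K:ℝ) - μ| |(L:ℝ) - μ| with h | h
    · rw [h]; have := abs_nonneg ((L:ℝ) - μ); linarith
    · rw [h]; have := abs_nonneg ((K:ℝ) - μ); linarith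
  have h4 := abs_le.1 hm'
  have h5 := U_nonneg μ K L
  unfold uu
  rw [abs_le]
  constructor <;> linarith

lemma jv_near (hμ : 10 ≤ μ) (h : 3 / 4 * μ ≤ (K:ℝ) + L) :
    |jv K L - 1 / (2 * μ)| ≤ 2 * uu μ K L / μ ^ 2 := by
  have hμ0 : 0 < μ := by linarith
  have h1 := X_uu (μ := μ) (K := K) (L := L)
  have hu := uu_one μ K L
  unfold jv
  have h3 : (0:ℝ) < (K:ℝ) + L + 3 := by positivity
  have e : 1 / ((K:ℝ) + L + 3) - 1 / (2 * μ) =
      -(((K:ℝ) + L - 2 * μ) + 3) / (2 * μ * ((K:ℝ) + L + 3)) := by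
    field_simp; ring
  rw [e, abs_div, abs_neg, abs_of_pos (show 0 < 2 * μ * ((K:ℝ) + L + 3) by positivity),
    div_le_div_iff₀ (by positivity) (by positivity)]
  have h4 : |(K:ℝ) + L - 2 * μ + 3| ≤ 3 * uu μ K L := by
    refine (abs_add_le _ _).trans ?_
    rw [abs_of_pos (by norm_num : (0:ℝ) < 3)]
    linarith
  have h5 : 3 / 2 * μ ^ 2 ≤ 2 * μ * ((K:ℝ) + L + 3) := by nlinarith
  calc |(K:ℝ) + L - 2 * μ + 3| * μ ^ 2 ≤ 3 * uu μ K L * μ ^ 2 :=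
        mul_le_mul_of_nonneg_right h4 (by positivity)
    _ = 2 * uu μ K L * (3 / 2 * μ ^ 2) := by ring
    _ ≤ _ := mul_le_mul_of_nonneg_left h5 (by positivity)

lemma kk_near (hμ : 10 ≤ μ) (h : 3 / 4 * μ ≤ (K:ℝ) + L) :
    |kk K L - 1 / 4| ≤ 2 * (uu μ K L / μ) := by
  have hK : (0:ℝ) ≤ K := Nat.cast_nonneg K
  have hL : (0:ℝ) ≤ L := Nat.cast_nonneg L
  have hμ0 : 0 < μ := by linarith
  have h1 := Y_uu (μ := μ) (K := K) (L := L)
  have hu := uu_one μ K L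
  unfold kk
  have e : (K:ℝ) * (K + 1/2) / (((K:ℝ) + L + 1/2) * ((K:ℝ) + L + 3)) - 1 / 4 =
      (((K:ℝ) - L) * (3 * K + L) + (2 * K - 7/2 * (K + L) - 3/2)) /
        (4 * (((K:ℝ) + L + 1/2) * ((K:ℝ) + L + 3))) := by
    field_simp; ring
  rw [e, abs_div, abs_of_pos (show 0 < 4 * (((K:ℝ) + L + 1/2) * ((K:ℝ) + L + 3)) by positivity),
    div_le_iff₀ (by positivity)]
  have h2 : |((K:ℝ) - L) * (3 * K + L)| ≤ (uu μ K L - 1) * (3 * (K + L)) := by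
    rw [abs_mul, abs_of_nonneg (show 0 ≤ 3 * (K:ℝ) + L by positivity)]
    exact mul_le_mul h1 (by linarith) (by positivity) (by linarith)
  have h3 : |2 * (K:ℝ) - 7/2 * (K + L) - 3/2| ≤ 7/2 * (K + L) + 3/2 := by
    rw [abs_le]; constructor <;> linarith
  have h4 : |((K:ℝ) - L) * (3 * K + L) + (2 * K - 7/2 * (K + L) - 3/2)| ≤
      4 * uu μ K L * ((K:ℝ) + L + 1/2) := by
    refine (abs_add_le _ _).trans ?_
    nlinarith [mul_nonneg (by linarith : 0 ≤ uu μ K L - 1) (add_nonneg hK hL)]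
  refine h4.trans ?_
  have h5 : (1:ℝ) ≤ 2 * ((K:ℝ) + L + 3) / μ := by
    rw [le_div_iff₀ hμ0]; linarith
  have h6 : 0 ≤ 4 * uu μ K L * ((K:ℝ) + L + 1/2) := by positivity
  calc _ = 4 * uu μ K L * ((K:ℝ) + L + 1/2) * 1 := by ring
    _ ≤ 4 * uu μ K L * ((K:ℝ) + L + 1/2) * (2 * ((K:ℝ) + L + 3) / μ) :=
      mul_le_mul_of_nonneg_left h5 h6
    _ = _ := by ring

lemma n4_near (hμ : 10 ≤ μ) (h : 3 / 4 * μ ≤ (K:ℝ) + L) :
    |μ / ((K:ℝ) + L + 4) - 1 / 2| ≤ 3 * (uu μ K L / μ) := by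
  have hμ0 : 0 < μ := by linarith
  have h1 := X_uu (μ := μ) (K := K) (L := L)
  have hu := uu_one μ K L
  have e : μ / ((K:ℝ) + L + 4) - 1 / 2 = -(((K:ℝ) + L - 2 * μ) + 4) / (2 * ((K:ℝ) + L + 4)) := by
    field_simp; ring
  rw [e, abs_div, abs_neg, abs_of_pos (show 0 < 2 * ((K:ℝ) + L + 4) by positivity),
    div_le_iff₀ (by positivity)]
  have h4 : |(K:ℝ) + L - 2 * μ + 4| ≤ 4 * uu μ K L := by
    refine (abs_add_le _ _).trans ?_
    rw [abs_of_pos (by norm_num : (0:ℝ) < 4)]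
    linarith
  refine h4.trans ?_
  have h5 : (4:ℝ) ≤ 6 * ((K:ℝ) + L + 4) / μ := by
    rw [le_div_iff₀ hμ0]; linarith
  calc 4 * uu μ K L ≤ (6 * ((K:ℝ) + L + 4) / μ) * uu μ K L :=
        mul_le_mul_of_nonneg_right h5 (by linarith)
    _ = _ := by ring

lemma gg_good (hμ : 10 ≤ μ) (h : 3 / 4 * μ ≤ (K:ℝ) + L) :
    gg K L ≤ 4 / 3 * uu μ K L ^ 2 / μ := by
  have hμ0 : 0 < μ := by linarith
  have h1 := Pool.Agent.Q61.MK.good_g hμ0 h
  have h2 : Pool.Agent.Q61.MK.g K L = gg K L := rfl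
  rw [h2] at h1
  refine h1.trans ?_
  apply div_le_div_of_nonneg_right _ hμ0.le
  apply mul_le_mul_of_nonneg_left _ (by norm_num)
  apply pow_le_pow_left₀ (U_nonneg μ K L)
  unfold uu; linarith

end pw

/-! ### Differences -/

lemma I1 (K L : ℕ) : I (K + L + 1) = I (K + L) * (((K:ℝ) + L + 3/2) / ((K:ℝ) + L + 3)) := by
  rw [I_succ]
  push_cast
  congr 1
  field_simp
  ring

lemma I2 (K L : ℕ) : I (K + L + 2) = I (K + L) * (((K:ℝ) + L + 3/2) * ((K:ℝ) + L + 5/2) /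
    (((K:ℝ) + L + 3) * ((K:ℝ) + L + 4))) := by
  have h1 : I (K + L + 2) = I (K + L + 1) *
      ((2 * ((K + L + 1 : ℕ) : ℝ) + 3) / (2 * ((K + L + 1 : ℕ) : ℝ) + 6)) := I_succ (K + L + 1)
  rw [h1, I1]
  push_cast
  field_simp
  ring

lemma kap_kk (K L : ℕ) : ((K:ℝ) + L + 3/2) / ((K:ℝ) + L + 3) * kap K L = kk K L := by
  unfold kap kk
  field_simp

end Pool.Agent.Q280.MK
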