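import Pool.Agent.Q291.MK.Stm3

/-!
# Signed perturbations: toolkit
-/

namespace Pool.Agent.Q280.MK

open Finset Pool.Agent.Q291.MK

lemma sgSumm {h φ : ℕ → ℝ} (hh : Sg h) (hφ : PB φ) : Summable fun k => h k * φ k := by
  obtain ⟨C, q, hC, hφ⟩ := hφ.nonneg_C
  have h1 : Summable fun k => |h k| * (C * ∑ i ∈ range (q + 1), (q.choose i : ℝ) * (k:ℝ) ^ i) := by
    have : (fun k => |h k| * (C * ∑ i ∈ range (q + 1), (q.choose i : ℝ) * (k:ℝ) ^ i)) =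
        fun k => ∑ i ∈ range (q + 1), (C * q.choose i) * (|h k| * (k:ℝ) ^ i) := by
      funext k
      rw [Finset.mul_sum, Finset.mul_sum]
      exact Finset.sum_congr rfl fun i _ => by ring
    rw [this]
    exact summable_sum fun i _ => (hh.mom i).mul_left _
  refine Summable.of_norm_bounded h1 fun k => ?_
  rw [Real.norm_eq_abs, abs_mul]
  refine mul_le_mul_of_nonneg_left ((hφ k).trans (le_of_eq ?_)) (abs_nonneg _)
  congr 1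
  rw [add_comm (1:ℝ), add_pow]
  exact Finset.sum_congr rfl fun i _ => by ring

lemma sgAdd {h φ ψ : ℕ → ℝ} (hh : Sg h) (hφ : PB φ) (hψ : PB ψ) :
    E h (fun k => φ k + ψ k) = E h φ + E h ψ := by
  unfold E
  rw [← (sgSumm hh hφ).tsum_add (sgSumm hh hψ)]
  exact tsum_congr fun k => by ring

lemma sgSub {h φ ψ : ℕ → ℝ} (hh : Sg h) (hφ : PB φ) (hψ : PB ψ) :
    E h (fun k => φ k - ψ k) = E h φ - E h ψ := by
  unfold E
  rw [← (sgSumm hh hφ).tsum_sub (sgSumm hh hψ)]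
  exact tsum_congr fun k => by ring

lemma pbCM {φ : ℕ → ℝ} (c : ℝ) (h : PB φ) : PB (fun k => c * φ k) := (PB.const c).mul h

lemma pbDl {φ : ℕ → ℝ} (h : PB φ) : PB (dl φ) := by
  obtain ⟨C, q, hC, h⟩ := h.nonneg_C
  have h1 : PB (fun k => φ (k + 1)) := by
    refine ⟨C * 2 ^ q, q, fun k => (h (k + 1)).trans ?_⟩
    have h0 : (0:ℝ) ≤ k := Nat.cast_nonneg k
    have h2 : (1 + ((k + 1 : ℕ) : ℝ)) ^ q ≤ (2 * (1 + (k:ℝ))) ^ q := by
      apply pow_le_pow_left₀ (by positivity)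
      push_cast
      linarith
    calc C * (1 + ((k + 1 : ℕ) : ℝ)) ^ q ≤ C * (2 * (1 + (k:ℝ))) ^ q := by gcongr
      _ = C * 2 ^ q * (1 + (k:ℝ)) ^ q := by rw [mul_pow]; ring
  exact h1.sub ⟨C, q, h⟩

lemma dl_add (φ ψ : ℕ → ℝ) (k : ℕ) : dl (fun k => φ k + ψ k) k = dl φ k + dl ψ k := by
  unfold dl; ring
lemma dl_sub (φ ψ : ℕ → ℝ) (k : ℕ) : dl (fun k => φ k - ψ k) k = dl φ k - dl ψ k := by
  unfold dl; ring
lemma dl_cmul (c : ℝ) (φ : ℕ → ℝ) (k : ℕ) : dl (fun k => c * φ k) k = c * dl φ k := by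
  unfold dl; ring
lemma dldl_add (φ ψ : ℕ → ℝ) (k : ℕ) :
    dl (dl (fun k => φ k + ψ k)) k = dl (dl φ) k + dl (dl ψ) k := by
  unfold dl; ring
lemma dldl_sub (φ ψ : ℕ → ℝ) (k : ℕ) :
    dl (dl (fun k => φ k - ψ k)) k = dl (dl φ) k - dl (dl ψ) k := by
  unfold dl; ring
lemma dldl_cmul (c : ℝ) (φ : ℕ → ℝ) (k : ℕ) :
    dl (dl (fun k => c * φ k)) k = c * dl (dl φ) k := by
  unfold dl; ring

lemma dl_id (k : ℕ) : dl (fun k => (k:ℝ)) k = 1 := by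
  unfold dl; push_cast; ring
lemma dldl_id (k : ℕ) : dl (dl (fun k => (k:ℝ))) k = 0 := by
  unfold dl; push_cast; ring
lemma dl_sq (m : ℝ) (k : ℕ) : dl (fun k => ((k:ℝ) - m) ^ 2) k = 2 * ((k:ℝ) - m) + 1 := by
  unfold dl; push_cast; ring
lemma dldl_sq (m : ℝ) (k : ℕ) : dl (dl (fun k => ((k:ℝ) - m) ^ 2)) k = 2 := by
  unfold dl; push_cast; ring

lemma pbSq (m : ℝ) : PB (fun k => ((k:ℝ) - m) ^ 2) := (PB.id.sub (PB.const m)).pow 2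

lemma wt_nn {e m : ℝ} (he : 0 ≤ e) (hm : 0 < m) (J : ℕ) : 1 ≤ wt e m J := by
  unfold wt
  have h1 : 0 ≤ ((J:ℝ) - m) ^ 10 := by
    have : ((J:ℝ) - m) ^ 10 = (((J:ℝ) - m) ^ 5) ^ 2 := by ring
    rw [this]; positivity
  have : 0 ≤ e * (((J:ℝ) - m) ^ 10 / m ^ 5) := by positivity
  linarith

lemma wt_mono {e e' m : ℝ} (he : e ≤ e') (hm : 0 < m) (J : ℕ) : wt e m J ≤ wt e' m J := by
  unfold wt
  have h1 : 0 ≤ ((J:ℝ) - m) ^ 10 := by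
    have : ((J:ℝ) - m) ^ 10 = (((J:ℝ) - m) ^ 5) ^ 2 := by ring
    rw [this]; positivity
  have : 0 ≤ (((J:ℝ) - m) ^ 10 / m ^ 5) := by positivity
  nlinarith

/-- Scaling of test functions. -/
lemma nrScale {e c ρ A : ℝ} {a h ψ : ℕ → ℝ} (hN : Nr e a h c ρ) (hψ : PB ψ) (hA : 0 < A)
    (hb : ∀ J, |dl (dl ψ) J| ≤ A * wt e (mean a) J) :
    |E h ψ - c * E a (dl ψ)| ≤ ρ * A := by
  have h1 : Tst e (mean a) (fun k => A⁻¹ * ψ k) := by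
    refine ⟨pbCM _ hψ, fun J => ?_⟩
    rw [dldl_cmul, abs_mul, abs_of_pos (inv_pos.mpr hA), inv_mul_le_iff₀ hA]
    exact hb J
  have h2 := hN.bd _ h1
  have h3 : dl (fun k => A⁻¹ * ψ k) = fun k => A⁻¹ * dl ψ k := funext fun k => dl_cmul _ _ _
  rw [h3, E_const_mul, E_const_mul] at h2
  have h4 : A⁻¹ * E h ψ - c * (A⁻¹ * E a (dl ψ)) = A⁻¹ * (E h ψ - c * E a (dl ψ)) := by ring
  rw [h4, abs_mul, abs_of_pos (inv_pos.mpr hA), inv_mul_le_iff₀ hA] at h2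
  linarith

end Pool.Agent.Q280.MK
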